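import Pool.Agent.R426.QJ.Stm
import Pool.Agent.R426.QK.Asy

/-!
# Project QJ: the final asymptotics (port of `Pool/Agent/R426/QK/Asy.lean`)
-/

set_option autoImplicit false

open scoped Classical
open Finset Filter

namespace Pool.Agent.R426.QJ.Asy

open Pool.Agent.R426.QK Pool.Agent.R426.QJ Pool.Agent.R426.QK.Asy
open Pool.Agent.Y698 (RR)
open Pool.Agent.Y703.CX (jj XX eL zz kk eL_tendsto logX_eq rpow_eL HH NN ev_eL one_le_exp
  HH_ge HH_le HH_pos kk_ge kk_le X_pos one_add_log lin_le zz_ge zz_pos)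

/-- the norms of a finite set are eventually at most `zz X`, its size at most `kk X` -/
theorem ev_Z (Z : Finset RR) : ∀ᶠ X : ℕ in atTop, (∀ u ∈ Z, nrm u ≤ zz X) ∧ Z.card ≤ kk X := by
  set B : ℕ := Z.sup nrm with hB
  filter_upwards [ev_eL (2 * B + Z.card + 1)] with X hX
  have hB0 : (0 : ℝ) ≤ B := Nat.cast_nonneg _
  have hc0 : (0 : ℝ) ≤ Z.card := Nat.cast_nonneg _
  have h1 : 1 ≤ eL X := by linarith
  constructor
  · intro u hu
    have h2 : nrm u ≤ B := Finset.le_sup (f := nrm) hu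
    have h3 : (B : ℝ) ≤ zz X := by
      refine le_trans ?_ (zz_ge h1)
      have h4 : eL X ≤ (eL X) ^ 3 := by
        have h8 : (eL X) ^ 3 = eL X * (eL X * eL X) := by ring
        rw [h8]
        nlinarith
      have h5 := Real.add_one_le_exp ((eL X) ^ 3)
      linarith
    exact h2.trans (by exact_mod_cast h3)
  · have h2 : ((Z.card : ℕ) : ℝ) ≤ kk X := by
      have h3 := kk_ge X
      linarith
    exact_mod_cast h2

/-- the sets outside the regular part -/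
theorem out_sub {I : Type} [Fintype I] (F : I → Finset RR) (K V X z H k : ℕ) :
    SSJ (ZZ F) X \ ((RgJ (ZZ F) X z H k).filter fun S => NdJ F K V (sm z S) (la z S)) ⊆
      ((((SS X).filter fun S => k < S.card) ∪
      ((SS X).filter fun S => S.card ≤ k ∧
        X < (∏ π ∈ sm z S, nrm π) * ∏ π ∈ la z S, XX H (bl H π))) ∪
      ((SS X).filter fun S => ¬ Set.InjOn (bl H) (la z S : Set RR))) ∪
      ((SSJ (ZZ F) X).filter fun S => S.card ≤ k ∧ ¬ NdJ F K V (sm z S) (la z S)) := by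
  intro S hS
  rw [Finset.mem_sdiff, Finset.mem_filter] at hS
  obtain ⟨h1, h2⟩ := hS
  have h1' : S ∈ SS X := (mem_filter.1 h1).1
  simp only [mem_union, mem_filter]
  by_contra hc
  push Not at hc
  obtain ⟨⟨⟨c1, c2⟩, c3⟩, c5⟩ := hc
  have d1 : S.card ≤ k := c1 h1'
  have d2 := c2 h1' d1
  have d3 := c3 h1'
  have d5 := c5 h1 d1
  apply h2
  refine ⟨?_, d5⟩
  unfold RgJ
  rw [mem_filter]
  exact ⟨h1, d3, d1, d2⟩

theorem t_DQJ : RecP → S_BIL → S_EQ → S_LAJ → S_BOXJ → S_KEYJ → S_CNT → S_FBJ → S_LOWJ → S_C2 →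
    S_DQJ := by
  intro hR h1 h3 h4 h5 hK hC hF hLo hc2 I hI F hFx
  obtain ⟨C, hC1, hkey⟩ := hK hR h1 h3 h5
  obtain ⟨D, hD⟩ := hC
  have hZq : ∀ u ∈ ZZ F, Pq u := by
    intro u hu
    unfold ZZ at hu
    obtain ⟨i, -, hi⟩ := mem_biUnion.1 hu
    exact (hFx.cl i).1 u hi
  obtain ⟨c, X₀, hc, hlow⟩ := hLo (ZZ F) hZq
  have hg0 : (0 : ℝ) ≤ c2 ^ Fintype.card I := pow_nonneg hc2.2.1.le _
  have hg1 : (c2 : ℝ) ^ Fintype.card I ≤ 1 := pow_le_one₀ hc2.2.1.le hc2.2.2.1.le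
  rw [Metric.tendsto_nhds]
  intro ε hε
  have hε6 : (0 : ℝ) < ε / 6 := by linarith
  obtain ⟨K, V, hV⟩ := h4 I (ε / 6) hε6
  have s1 := sml_many hD
  have s2 := sml_cut hD
  have s3 := sml_coll hD
  have s4 := sml_eps (hF I F hFx K V)
  have s6 := sml_main hC1
  have s := sml_add (sml_add (sml_add (sml_add s1 s2) s3) s4) s6
  have hδ : (0 : ℝ) < c * ε / 4 := by positivity
  filter_upwards [s (c * ε / 4) hδ, ev_eL 1, ev_Z (ZZ F), eventually_ge_atTop X₀] with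
    X hX hl hZ hX0
  rw [neg_zero, zero_mul, Real.exp_zero, mul_one] at hX
  have hl0 : 0 < eL X := by linarith
  have hlo := hlow X hX0
  have hXp := X_pos hl0
  have hXp' : (0 : ℝ) < X := by exact_mod_cast hXp
  have hSpos : (0 : ℝ) < ((SSJ (ZZ F) X).card : ℝ) := by
    refine lt_of_lt_of_le ?_ hlo
    positivity
  have hN : (HH X : ℝ) * Real.log X < NN X := by
    unfold NN
    push_cast
    exact Nat.lt_floor_add_one _
  have hmain := hkey I F hFx (ε / 6) K V hε6 hV X (zz X) (HH X) (kk X) (NN X) (kap C X) hXp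
    (HH_pos hl0) (zz_pos hl) (kap_nonneg hC1 X) (kap_pow hC1 hl) hN hZ.1 hZ.2
  set T := (RgJ (ZZ F) X (zz X) (HH X) (kk X)).filter
    fun S => NdJ F K V (sm (zz X) S) (la (zz X) S) with hT
  have hTG : (RgJ (ZZ F) X (zz X) (HH X) (kk X)).filter
      (fun S => NdJ F K V (sm (zz X) S) (la (zz X) S) ∧ GdJ F S) = T.filter (GdJ F) := by
    rw [hT, filter_filter]
  rw [hTG] at hmain
  have hTS : T ⊆ SSJ (ZZ F) X := (filter_subset _ _).trans (filter_subset _ _)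
  have hRS : ((RgJ (ZZ F) X (zz X) (HH X) (kk X)).card : ℝ) ≤ ((SSJ (ZZ F) X).card : ℝ) := by
    exact_mod_cast card_le_card (filter_subset _ _)
  have hcmp := cmp (GdJ F) T (SSJ (ZZ F) X) hTS (c2 ^ Fintype.card I) hg0 hg1
  have hout : ((SSJ (ZZ F) X \ T).card : ℝ) ≤
      ((((SS X).filter fun S => kk X < S.card).card : ℝ) +
      (((SS X).filter fun S => S.card ≤ kk X ∧
        X < (∏ π ∈ sm (zz X) S, nrm π) * ∏ π ∈ la (zz X) S, XX (HH X) (bl (HH X) π)).card : ℝ) +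
      (((SS X).filter fun S => ¬ Set.InjOn (bl (HH X)) (la (zz X) S : Set RR)).card : ℝ)) +
      (((SSJ (ZZ F) X).filter fun S => S.card ≤ kk X ∧
        ¬ NdJ F K V (sm (zz X) S) (la (zz X) S)).card : ℝ) := by
    have g := card_le_card (out_sub F K V X (zz X) (HH X) (kk X))
    rw [← hT] at g
    have g2 := (g.trans (card_union_le _ _)).trans (Nat.add_le_add_right ((card_union_le _ _).trans
      (Nat.add_le_add_right (card_union_le _ _) _)) _)
    exact_mod_cast g2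
  have htot : |(((SSJ (ZZ F) X).filter (GdJ F)).card : ℝ) -
      c2 ^ Fintype.card I * ((SSJ (ZZ F) X).card : ℝ)| ≤
      ε / 6 * ((SSJ (ZZ F) X).card : ℝ) + c * ε / 4 * X := by
    have g1 : ε / 6 * ((RgJ (ZZ F) X (zz X) (HH X) (kk X)).card : ℝ) ≤
        ε / 6 * ((SSJ (ZZ F) X).card : ℝ) := mul_le_mul_of_nonneg_left hRS (by positivity)
    linarith
  rw [Real.dist_eq]
  have e3 : (((SSJ (ZZ F) X).filter (GdJ F)).card : ℝ) / ((SSJ (ZZ F) X).card : ℝ) -
      c2 ^ Fintype.card I = ((((SSJ (ZZ F) X).filter (GdJ F)).card : ℝ) -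
      c2 ^ Fintype.card I * ((SSJ (ZZ F) X).card : ℝ)) / ((SSJ (ZZ F) X).card : ℝ) := by
    rw [sub_div, mul_div_cancel_right₀ _ hSpos.ne']
  rw [e3, abs_div, abs_of_pos hSpos, div_lt_iff₀ hSpos]
  refine lt_of_le_of_lt htot ?_
  have g2 : c * ε / 4 * X ≤ ε / 4 * ((SSJ (ZZ F) X).card : ℝ) := by
    calc c * ε / 4 * X = ε / 4 * (c * X) := by ring
      _ ≤ _ := mul_le_mul_of_nonneg_left hlo (by linarith)
  have g4 : 0 < ε * ((SSJ (ZZ F) X).card : ℝ) := by positivity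
  linarith

end Pool.Agent.R426.QJ.Asy
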