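import Pool.Agent.R426.QJ.KEY

/-!
# QJ-KEY for larger sets of excluded primes

The forms of `per_key` and `t_KEYJ` of `Pool/Agent/R426/QJ/KEY.lean` in which the primes of a finite set
`Z` that contains the fixed sets are excluded.
-/

set_option autoImplicit false

namespace Pool.Agent.R426.QJ.KEYZ

open Finset
open Pool.Agent.Y698
open Pool.Agent.Y698.SG hiding PD
open Pool.Agent.Y703.CX (jj XX)
open Pool.Agent.R426.QK
open Pool.Agent.R426.QK.KEY (fcc card_sub ky ph ph_div ph_mod CC mem_CC mem_SS le_XX nrm_one_le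
  prod_split prod_ph prod_mod ph_inj sm_disj sm_union sm_fill la_fill ky_fill prod_tt hb_box
  card_QB_le sum_inv prs_card)
open Pool.Agent.R426.QJ.KEY (CdJ disj_sm mem_RgJ key_facts key_bij box_dec keg_err)
open scoped Classical

theorem per_key (hR : RecP) (hE : S_EQ) (hB : S_BOXJ) {I : Type} [Fintype I]
    {F : I → Finset RR} (hF : Fx I F) {ε : ℝ} {K V : ℕ} (hL : LAEJ I ε K V)
    (hε : 0 < ε) {C₁ : ℝ}
    (hb1 : ∀ (P Q : Finset RR) (A B z : ℕ) (c d : RR → ℂ),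
      (∀ π ∈ P, Pq π ∧ nrm π ≤ A) → (∀ ρ ∈ Q, Pq ρ ∧ nrm ρ ≤ B) → Disjoint P Q →
      1 ≤ z → z ≤ A → z ≤ B → (∀ π, ‖c π‖ ≤ 1) → (∀ ρ, ‖d ρ‖ ≤ 1) →
      ‖∑ π ∈ P, ∑ ρ ∈ Q, c π * d ρ * ez (cs π ρ)‖ ^ 24 * z ≤ C₁ * ((A : ℝ) * B) ^ 24)
    {X z H k : ℕ} {κ : ℝ} (hH : 1 ≤ H) (hz : 1 ≤ z) (hκ : 0 ≤ κ)
    (h1 : C₁ ≤ κ ^ 24 * z) {Z : Finset RR} (hFZ : ZZ F ⊆ Z) (hZ : ∀ u ∈ Z, nrm u ≤ z)
    (hZk : (ZZ F).card ≤ k)
    {S₀ : Finset RR} {J : Finset ℕ}
    (hkey : (S₀, J) ∈ (RgJ Z X z H k).image (ky z H)) :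
    |(((RgJ Z X z H k).filter fun S => ky z H S = (S₀, J) ∧
        (NdJ F K V (sm z S) (la z S) ∧ GdJ F S)).card : ℝ) -
      c2 ^ Fintype.card I * (((RgJ Z X z H k).filter fun S => ky z H S = (S₀, J) ∧
        NdJ F K V (sm z S) (la z S)).card : ℝ)| ≤
    ε * (((RgJ Z X z H k).filter fun S => ky z H S = (S₀, J) ∧ True).card : ℝ) +
      (3 ^ (9 * k ^ 2) * κ) * (X * (1 / ((∏ p ∈ S₀, nrm p : ℕ) : ℝ))) := by
  obtain ⟨h₀O, h₀, hJi, hCd, hJf⟩ := key_facts hH hZ hkey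
  obtain ⟨c1, c4, c5, c6⟩ := hCd
  have hcJ : Fintype.card J = J.card := Fintype.card_coe J
  have hCmem : ∀ i : J, ∀ p ∈ CC z H i, Pq p ∧ z < nrm p ∧ nrm p ≤ XX H (i.1 / 4) := by
    intro i p hp
    obtain ⟨k1, k2, k3⟩ := (mem_CC hH).1 hp
    refine ⟨k1, k2, ?_⟩
    unfold CC at hp
    rw [Finset.mem_filter, mem_QB] at hp
    exact hp.1.1
  have hdis : ∀ i l : J, i ≠ l → Disjoint (CC z H (i : ℕ)) (CC z H (l : ℕ)) := by
    intro i l hil
    rw [Finset.disjoint_left]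
    intro p hp hp'
    have h5 := ((mem_CC hH).1 hp).2.2
    have h6 := ((mem_CC hH).1 hp').2.2
    exact hil (Subtype.ext (h5.symm.trans h6))
  have hzX : ∀ i : J, z ≤ XX H (i.1 / 4) := fun i => (hJf i i.2).1
  have hHB : HB (fun i : J => CC z H i) (fun i : J => 16 * XX H (i.1 / 4)) κ :=
    hb_box hb1 _ _ hz hκ h1 (fun i => by have := hzX i; omega)
      (fun i p hp => by
        obtain ⟨k1, k2, k3⟩ := hCmem i p hp
        exact ⟨k1, by omega⟩) hdis
  have hcard : ∀ i : J, (CC z H (i : ℕ)).card ≤ 16 * XX H (i.1 / 4) := by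
    intro i
    refine (Finset.card_filter_le _ _).trans (card_QB_le ?_)
    have := hzX i
    omega
  have hph : ∀ p ∈ Fintype.piFinset (fun i : J => CC z H (i : ℕ)), ∀ i : J,
      nrm (p i) % 4 = (i : ℕ) % 4 := by
    intro p hp i
    rw [Fintype.mem_piFinset] at hp
    have h5 := ((mem_CC hH).1 (hp i)).2.2
    rw [← ph_mod H (p i), h5]
  have hbox := box_dec hR hE hB hF hL J inferInstance (fun i : J => CC z H i)
    (fun i : J => 16 * XX H (i.1 / 4)) κ S₀ hκ hcard hHB h₀O (c6.mono_right hFZ) (fun i p hp => by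
      obtain ⟨k1, k2, k3⟩ := hCmem i p hp
      refine ⟨k1, fun h => ?_⟩
      rw [Finset.mem_union] at h
      rcases h with h | h
      · have := h₀ p h
        omega
      · have := hZ p (hFZ h)
        omega) hdis (by
        intro p hp
        have hq := hph p hp
        rw [Fintype.mem_piFinset] at hp
        have h5 := prod_tt S₀ (fun u => u) h₀O
        have h6 := prod_tt (univ : Finset J) p fun i _ => ((mem_CC hH).1 (hp i)).1
        have h7 : (∏ i ∈ J, i) % 4 = (∏ i : J, nrm (p i)) % 4 := by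
          rw [← Finset.prod_coe_sort J (fun i => i)]
          rw [Finset.prod_nat_mod, Finset.prod_nat_mod univ 4 (fun i : J => nrm (p i))]
          congr 1
          exact Finset.prod_congr rfl fun i _ => (hq i).symm
        rw [Nat.mul_mod, h7] at c1
        rcases h5 with ⟨h5, h8⟩ | ⟨h5, h8⟩ <;> rcases h6 with ⟨h6, h9⟩ | ⟨h6, h9⟩ <;>
          rw [h5, h6] at c1 <;> rw [h8, h9]
        · rfl
        · omega
        · omega
        · decide)
  have e1 : (((Fintype.piFinset fun i : J => CC z H i).filter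
      fun p => NdJ F K V S₀ (univ.image p) ∧ GdJ F (S₀ ∪ univ.image p)).card) =
      ((RgJ Z X z H k).filter fun S => ky z H S = (S₀, J) ∧
        (NdJ F K V (sm z S) (la z S) ∧ GdJ F S)).card := by
    refine Eq.trans (fcc ?_) ((key_bij hH hZ hkey
      (fun S => NdJ F K V (sm z S) (la z S) ∧ GdJ F S)).trans (fcc fun _ _ => Iff.rfl))
    intro p hp
    rw [Fintype.mem_piFinset] at hp
    rw [sm_fill hH h₀ hp, la_fill hH h₀ hp]
  have e2 : (((Fintype.piFinset fun i : J => CC z H i).filter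
      fun p => NdJ F K V S₀ (univ.image p)).card) =
      ((RgJ Z X z H k).filter fun S => ky z H S = (S₀, J) ∧
        NdJ F K V (sm z S) (la z S)).card := by
    refine Eq.trans (fcc ?_) ((key_bij hH hZ hkey (fun S => NdJ F K V (sm z S) (la z S))).trans
      (fcc fun _ _ => Iff.rfl))
    intro p hp
    rw [Fintype.mem_piFinset] at hp
    rw [sm_fill hH h₀ hp, la_fill hH h₀ hp]
  rw [← e1, ← e2]
  have e3 : (((Fintype.piFinset fun i : J => CC z H i).filter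
      fun p => NdJ F K V S₀ (univ.image p)).card : ℝ) ≤
      (((RgJ Z X z H k).filter fun S => ky z H S = (S₀, J) ∧ True).card : ℝ) := by
    rw [e2]
    have : (RgJ Z X z H k).filter (fun S => ky z H S = (S₀, J) ∧
        NdJ F K V (sm z S) (la z S)) ⊆
        (RgJ Z X z H k).filter fun S => ky z H S = (S₀, J) ∧ True := by
      intro S hS
      rw [Finset.mem_filter] at hS ⊢
      exact ⟨hS.1, hS.2.1, trivial⟩
    exact_mod_cast Finset.card_le_card this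
  refine hbox.trans ?_
  have hJK : J.card ≤ k := by omega
  have hSK : (S₀ ∪ ZZ F).card ≤ 2 * k := by
    have := Finset.card_union_le S₀ (ZZ F)
    omega
  obtain ⟨m, hm⟩ : ∃ m : ℕ, m = (prs J).card := ⟨_, rfl⟩
  have hpr : m ≤ k * k := by
    rw [hm]
    refine (prs_card J).trans ?_
    rw [hcJ]
    exact Nat.mul_le_mul hJK hJK
  rw [← hm]
  have hN0 : (0 : ℝ) < ((∏ p ∈ S₀, nrm p : ℕ) : ℝ) := by
    exact_mod_cast Finset.prod_pos fun p hp => nrm_one_le (h₀O p hp)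
  have hprod : ∏ j : J, ((16 * XX H (j.1 / 4) : ℕ) : ℝ) ≤
      3 ^ (3 * k) * (X * (1 / ((∏ p ∈ S₀, nrm p : ℕ) : ℝ))) := by
    have h5 : ∏ j : J, ((16 * XX H (j.1 / 4) : ℕ) : ℝ) =
        16 ^ J.card * ((∏ i ∈ J, XX H (i / 4) : ℕ) : ℝ) := by
      rw [← Finset.prod_coe_sort J (fun i => XX H (i / 4))]
      push_cast
      rw [Finset.prod_mul_distrib, Finset.prod_const, Finset.card_univ, hcJ]
    have h6 : ((∏ i ∈ J, XX H (i / 4) : ℕ) : ℝ) ≤ X * (1 / ((∏ p ∈ S₀, nrm p : ℕ) : ℝ)) := by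
      rw [mul_one_div, le_div_iff₀ hN0, mul_comm]
      exact_mod_cast c5
    have h7 : (16 : ℝ) ^ J.card ≤ 3 ^ (3 * k) := by
      calc (16 : ℝ) ^ J.card ≤ 27 ^ J.card := pow_le_pow_left₀ (by norm_num) (by norm_num) _
        _ = 3 ^ (3 * J.card) := by rw [pow_mul]; norm_num
        _ ≤ 3 ^ (3 * k) := pow_le_pow_right₀ (by norm_num) (by omega)
    rw [h5]
    gcongr
  have hpw : (2 : ℝ) ^ (((S₀ ∪ ZZ F).card + 2) * Fintype.card J + m) * 3 ^ (3 * k) ≤
      3 ^ (9 * k ^ 2) := by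
    refine (mul_le_mul_of_nonneg_right (pow_le_pow_left₀ (by norm_num)
      (show (2 : ℝ) ≤ 3 by norm_num) _) (by positivity)).trans ?_
    rw [← pow_add]
    apply pow_le_pow_right₀ (by norm_num)
    rw [hcJ]
    have h5 : (S₀ ∪ ZZ F).card * J.card ≤ 2 * k * k := Nat.mul_le_mul hSK hJK
    have h6 : k ≤ k * k := by
      rcases Nat.eq_zero_or_pos k with h | h
      · rw [h]
      · exact Nat.le_mul_of_pos_left k h
    nlinarith
  refine add_le_add ?_ ?_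
  · exact mul_le_mul_of_nonneg_left e3 hε.le
  · have hX1 : (0 : ℝ) ≤ X * (1 / ((∏ p ∈ S₀, nrm p : ℕ) : ℝ)) := by positivity
    calc (2 : ℝ) ^ (((S₀ ∪ ZZ F).card + 2) * Fintype.card J + m) *
        (κ * ∏ j : J, ((16 * XX H (j.1 / 4) : ℕ) : ℝ)) ≤
        2 ^ (((S₀ ∪ ZZ F).card + 2) * Fintype.card J + m) *
          (κ * (3 ^ (3 * k) * (X * (1 / ((∏ p ∈ S₀, nrm p : ℕ) : ℝ))))) := by gcongr
      _ = (2 ^ (((S₀ ∪ ZZ F).card + 2) * Fintype.card J + m) * 3 ^ (3 * k)) *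
          (κ * (X * (1 / ((∏ p ∈ S₀, nrm p : ℕ) : ℝ)))) := by ring
      _ ≤ 3 ^ (9 * k ^ 2) * (κ * (X * (1 / ((∏ p ∈ S₀, nrm p : ℕ) : ℝ)))) := by gcongr
      _ = _ := by ring


/-- **QJ-KEY**, with a set `Z` of excluded primes. -/
theorem t_KEYZ (hR : RecP) (hbil : S_BIL) (hE : S_EQ) (hB : S_BOXJ) : ∃ C : ℝ, 1 ≤ C ∧
    ∀ (I : Type) [Fintype I] (F : I → Finset RR), Fx I F → ∀ Z : Finset RR, ZZ F ⊆ Z →
    ∀ (ε : ℝ) (K V : ℕ), 0 < ε → LAEJ I ε K V →
    ∀ (X z H k N : ℕ) (κ : ℝ), 1 ≤ X → 1 ≤ H → 1 ≤ z → 0 ≤ κ → C ≤ κ ^ 24 * z →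
    (H : ℝ) * Real.log X < N → (∀ u ∈ Z, nrm u ≤ z) → (ZZ F).card ≤ k →
    |(((RgJ Z X z H k).filter fun S => NdJ F K V (sm z S) (la z S) ∧ GdJ F S).card : ℝ) -
        c2 ^ Fintype.card I *
          (((RgJ Z X z H k).filter fun S => NdJ F K V (sm z S) (la z S)).card : ℝ)| ≤
      ε * ((RgJ Z X z H k).card : ℝ) +
      (9 * N + 9 : ℝ) ^ k * (3 ^ (9 * k ^ 2 + 9) * κ) * (X * (1 + Real.log X)) := by
  obtain ⟨C₁, hC₁, hb1⟩ := hbil
  refine ⟨C₁, hC₁, ?_⟩
  intro I _ F hF Z hFZ ε K V hε hL X z H k N κ hX hH hz hκ h1 hN hZ hZk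
  set T := (RgJ Z X z H k).image (ky z H) with hT
  have hfib : ∀ P : Finset RR → Prop, (((RgJ Z X z H k).filter fun S => P S).card : ℝ) =
      ∑ k' ∈ T, (((RgJ Z X z H k).filter fun S => ky z H S = k' ∧ P S).card : ℝ) := by
    intro P
    rw [Finset.card_eq_sum_card_fiberwise (f := ky z H) (t := T) (by
      intro S hS
      rw [Finset.mem_coe, Finset.mem_filter] at hS
      exact Finset.mem_coe.2 (Finset.mem_image_of_mem _ hS.1))]
    push_cast
    refine Finset.sum_congr rfl fun k' _ => ?_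
    congr 2
    ext S
    simp only [Finset.mem_filter]
    tauto
  have hall : ((RgJ Z X z H k).card : ℝ) =
      ∑ k' ∈ T, (((RgJ Z X z H k).filter fun S => ky z H S = k' ∧ True).card : ℝ) := by
    rw [Finset.card_eq_sum_card_fiberwise (f := ky z H) (t := T) (by
      intro S hS
      exact Finset.mem_coe.2 (Finset.mem_image_of_mem _ hS))]
    push_cast
    exact Finset.sum_congr rfl fun k' _ => congrArg _ (fcc fun _ _ => by tauto)
  have q1 : (((RgJ Z X z H k).filter fun S =>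
      NdJ F K V (sm z S) (la z S) ∧ GdJ F S).card : ℝ) =
      ∑ k' ∈ T, (((RgJ Z X z H k).filter fun S => ky z H S = k' ∧
        (NdJ F K V (sm z S) (la z S) ∧ GdJ F S)).card : ℝ) :=
    (congrArg _ (fcc fun _ _ => Iff.rfl)).trans
      ((hfib fun S => NdJ F K V (sm z S) (la z S) ∧ GdJ F S).trans
      (Finset.sum_congr rfl fun k' _ => congrArg _ (fcc fun _ _ => Iff.rfl)))
  rw [q1, hfib, Finset.mul_sum, ← Finset.sum_sub_distrib, hall, Finset.mul_sum]
  refine (Finset.abs_sum_le_sum_abs _ _).trans ?_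
  have h3 : ∑ k' ∈ T, |(((RgJ Z X z H k).filter fun S => ky z H S = k' ∧
      (NdJ F K V (sm z S) (la z S) ∧ GdJ F S)).card : ℝ) -
      c2 ^ Fintype.card I * (((RgJ Z X z H k).filter fun S =>
      ky z H S = k' ∧ NdJ F K V (sm z S) (la z S)).card : ℝ)| ≤
      ∑ k' ∈ T, (ε * (((RgJ Z X z H k).filter fun S =>
      ky z H S = k' ∧ True).card : ℝ) +
      (3 ^ (9 * k ^ 2) * κ) * (X * (1 / ((∏ p ∈ k'.1, nrm p : ℕ) : ℝ)))) := by
    refine Finset.sum_le_sum fun k' hk => ?_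
    obtain ⟨S₀, J⟩ := k'
    exact per_key hR hE hB hF hL hε hb1 hH hz hκ h1 hFZ hZ hZk hk
  refine h3.trans ?_
  rw [Finset.sum_add_distrib]
  refine add_le_add (le_refl _) ?_
  exact keg_err hX hH hz hκ hN hZ fun k' hk => hk


end Pool.Agent.R426.QJ.KEYZ
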