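import Pool.Agent.R426.QJ.Asy
import Pool.Agent.R426.QJ.KEYZ

/-!
# Project QJ: the final asymptotics, with a larger set of excluded primes
-/

set_option autoImplicit false

open scoped Classical
open Finset Filter

namespace Pool.Agent.R426.QJ.AsyZ

open Pool.Agent.R426.QK Pool.Agent.R426.QJ Pool.Agent.R426.QK.Asy
open Pool.Agent.R426.QJ.Asy (ev_Z)
open Pool.Agent.Y698 (RR)
open Pool.Agent.Y703.CX (jj XX eL zz kk eL_tendsto logX_eq rpow_eL HH NN ev_eL one_le_exp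
  HH_ge HH_le HH_pos kk_ge kk_le X_pos one_add_log lin_le zz_ge zz_pos)

/-- the sets outside the regular part -/
theorem out_sub {I : Type} [Fintype I] (F : I → Finset RR) (Z : Finset RR) (K V X z H k : ℕ) :
    SSJ Z X \ ((RgJ Z X z H k).filter fun S => NdJ F K V (sm z S) (la z S)) ⊆
      ((((SS X).filter fun S => k < S.card) ∪
      ((SS X).filter fun S => S.card ≤ k ∧
        X < (∏ π ∈ sm z S, nrm π) * ∏ π ∈ la z S, XX H (bl H π))) ∪
      ((SS X).filter fun S => ¬ Set.InjOn (bl H) (la z S : Set RR))) ∪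
      ((SSJ Z X).filter fun S => S.card ≤ k ∧ ¬ NdJ F K V (sm z S) (la z S)) := by
  intro S hS
  rw [Finset.mem_sdiff, Finset.mem_filter] at hS
  obtain ⟨h1, h2⟩ := hS
  have h1' : S ∈ SS X := (mem_filter.1 h1).1
  simp only [mem_union, mem_filter]
  by_contra hc
  push Not at hc
  obtain ⟨⟨⟨c1, c2⟩, c3⟩, c5⟩ := hc
  have d1 : S.card ≤ k := c1 h1'
  have d2 := c2 h1' d1
  have d3 := c3 h1'
  have d5 := c5 h1 d1
  apply h2
  refine ⟨?_, d5⟩
  unfold RgJ
  rw [mem_filter]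
  exact ⟨h1, d3, d1, d2⟩

/-- **The proportion of the good sets**, for the sets disjoint from `Z`. -/
theorem t_DQZ (hR : RecP) (h1 : S_BIL) (h3 : S_EQ) (h4 : S_LAJ) (h5 : S_BOXJ) (hC : S_CNT)
    (hF : S_FBJ) (hLo : S_LOWJ) (hc2 : S_C2) (I : Type) [Fintype I] (F : I → Finset RR)
    (hFx : Fx I F) (Z : Finset RR) (hFZ : ZZ F ⊆ Z) (hZq : ∀ u ∈ Z, Pq u) : Filter.Tendsto
    (fun X : ℕ => (((SSJ Z X).filter (GdJ F)).card : ℝ) / ((SSJ Z X).card : ℝ))
    Filter.atTop (nhds (c2 ^ Fintype.card I)) := by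
  obtain ⟨C, hC1, hkey⟩ := KEYZ.t_KEYZ hR h1 h3 h5
  obtain ⟨D, hD⟩ := hC
  obtain ⟨c, X₀, hc, hlow⟩ := hLo Z hZq
  have hg0 : (0 : ℝ) ≤ c2 ^ Fintype.card I := pow_nonneg hc2.2.1.le _
  have hg1 : (c2 : ℝ) ^ Fintype.card I ≤ 1 := pow_le_one₀ hc2.2.1.le hc2.2.2.1.le
  rw [Metric.tendsto_nhds]
  intro ε hε
  have hε6 : (0 : ℝ) < ε / 6 := by linarith
  obtain ⟨K, V, hV⟩ := h4 I (ε / 6) hε6
  have s1 := sml_many hD
  have s2 := sml_cut hD
  have s3 := sml_coll hD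
  have hF' : ∀ ε' : ℝ, 0 < ε' → ∃ X₀ : ℕ, ∀ X : ℕ, X₀ ≤ X →
      (((SSJ Z X).filter fun S => S.card ≤ kk X ∧
        ¬ NdJ F K V (sm (zz X) S) (la (zz X) S)).card : ℝ) ≤ ε' * X := by
    intro ε' hε'
    obtain ⟨X₁, h⟩ := hF I F hFx K V ε' hε'
    refine ⟨X₁, fun X hX => le_trans ?_ (h X hX)⟩
    have hs : ((SSJ Z X).filter fun S => S.card ≤ kk X ∧
        ¬ NdJ F K V (sm (zz X) S) (la (zz X) S)) ⊆
        ((SSJ (ZZ F) X).filter fun S => S.card ≤ kk X ∧
        ¬ NdJ F K V (sm (zz X) S) (la (zz X) S)) := by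
      intro S hS
      rw [mem_filter] at hS ⊢
      refine ⟨?_, hS.2⟩
      have h7 := mem_filter.1 hS.1
      exact mem_filter.2 ⟨h7.1, h7.2.mono_right hFZ⟩
    exact_mod_cast card_le_card hs
  have s4 := sml_eps hF'
  have s6 := sml_main hC1
  have s := sml_add (sml_add (sml_add (sml_add s1 s2) s3) s4) s6
  have hδ : (0 : ℝ) < c * ε / 4 := by positivity
  filter_upwards [s (c * ε / 4) hδ, ev_eL 1, ev_Z Z, eventually_ge_atTop X₀] with
    X hX hl hZ hX0
  rw [neg_zero, zero_mul, Real.exp_zero, mul_one] at hX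
  have hl0 : 0 < eL X := by linarith
  have hlo := hlow X hX0
  have hXp := X_pos hl0
  have hXp' : (0 : ℝ) < X := by exact_mod_cast hXp
  have hSpos : (0 : ℝ) < ((SSJ Z X).card : ℝ) := by
    refine lt_of_lt_of_le ?_ hlo
    positivity
  have hN : (HH X : ℝ) * Real.log X < NN X := by
    unfold NN
    push_cast
    exact Nat.lt_floor_add_one _
  have hmain := hkey I F hFx Z hFZ (ε / 6) K V hε6 hV X (zz X) (HH X) (kk X) (NN X) (kap C X) hXp
    (HH_pos hl0) (zz_pos hl) (kap_nonneg hC1 X) (kap_pow hC1 hl) hN hZ.1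
    ((card_le_card hFZ).trans hZ.2)
  set T := (RgJ Z X (zz X) (HH X) (kk X)).filter
    fun S => NdJ F K V (sm (zz X) S) (la (zz X) S) with hT
  have hTG : (RgJ Z X (zz X) (HH X) (kk X)).filter
      (fun S => NdJ F K V (sm (zz X) S) (la (zz X) S) ∧ GdJ F S) = T.filter (GdJ F) := by
    rw [hT, filter_filter]
  rw [hTG] at hmain
  have hTS : T ⊆ SSJ Z X := (filter_subset _ _).trans (filter_subset _ _)
  have hRS : ((RgJ Z X (zz X) (HH X) (kk X)).card : ℝ) ≤ ((SSJ Z X).card : ℝ) := by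
    exact_mod_cast card_le_card (filter_subset _ _)
  have hcmp := cmp (GdJ F) T (SSJ Z X) hTS (c2 ^ Fintype.card I) hg0 hg1
  have hout : ((SSJ Z X \ T).card : ℝ) ≤
      ((((SS X).filter fun S => kk X < S.card).card : ℝ) +
      (((SS X).filter fun S => S.card ≤ kk X ∧
        X < (∏ π ∈ sm (zz X) S, nrm π) * ∏ π ∈ la (zz X) S, XX (HH X) (bl (HH X) π)).card : ℝ) +
      (((SS X).filter fun S => ¬ Set.InjOn (bl (HH X)) (la (zz X) S : Set RR)).card : ℝ)) +
      (((SSJ Z X).filter fun S => S.card ≤ kk X ∧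
        ¬ NdJ F K V (sm (zz X) S) (la (zz X) S)).card : ℝ) := by
    have g := card_le_card (out_sub F Z K V X (zz X) (HH X) (kk X))
    rw [← hT] at g
    have g2 := (g.trans (card_union_le _ _)).trans (Nat.add_le_add_right ((card_union_le _ _).trans
      (Nat.add_le_add_right (card_union_le _ _) _)) _)
    exact_mod_cast g2
  have htot : |(((SSJ Z X).filter (GdJ F)).card : ℝ) -
      c2 ^ Fintype.card I * ((SSJ Z X).card : ℝ)| ≤
      ε / 6 * ((SSJ Z X).card : ℝ) + c * ε / 4 * X := by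
    have g1 : ε / 6 * ((RgJ Z X (zz X) (HH X) (kk X)).card : ℝ) ≤
        ε / 6 * ((SSJ Z X).card : ℝ) := mul_le_mul_of_nonneg_left hRS (by positivity)
    linarith
  rw [Real.dist_eq]
  have e3 : (((SSJ Z X).filter (GdJ F)).card : ℝ) / ((SSJ Z X).card : ℝ) -
      c2 ^ Fintype.card I = ((((SSJ Z X).filter (GdJ F)).card : ℝ) -
      c2 ^ Fintype.card I * ((SSJ Z X).card : ℝ)) / ((SSJ Z X).card : ℝ) := by
    rw [sub_div, mul_div_cancel_right₀ _ hSpos.ne']
  rw [e3, abs_div, abs_of_pos hSpos, div_lt_iff₀ hSpos]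
  refine lt_of_le_of_lt htot ?_
  have g2 : c * ε / 4 * X ≤ ε / 4 * ((SSJ Z X).card : ℝ) := by
    calc c * ε / 4 * X = ε / 4 * (c * X) := by ring
      _ ≤ _ := mul_le_mul_of_nonneg_left hlo (by linarith)
  have g4 : 0 < ε * ((SSJ Z X).card : ℝ) := by positivity
  linarith

end Pool.Agent.R426.QJ.AsyZ
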