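import Pool.Agent.R426.QJ.Stm
import Pool.Agent.R426.QK.BOX
import Pool.Agent.R426.QK.KEY1

/-!
# Project QJ (helper426), job QJ-BOX: the joint count in a box (helper656)

Port of `Pool/Agent/R426/QK/BOX.lean` to several systems.
-/

set_option autoImplicit false
set_option linter.unusedVariables false

open scoped Classical

namespace Pool.Agent.R426.QJ.Box

open Finset
open Pool.Agent.Y698 (RR)
open Pool.Agent.R426.QK
open Pool.Agent.R426.QJ
open Pool.Agent.R426.QK.BOX (z2_self z2_swap lb LN ez0 ez0_coe cs_sw nd_iff gd_iff HB_sub)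

theorem sumW {S T : Finset RR} (hST : S ⊆ T) (h : RR → ZMod 2) :
    ∑ v ∈ univ.filter (fun u : T => (u : RR) ∈ S), h v = ∑ v : S, h v := by
  rw [Finset.sum_coe_sort S h, Finset.sum_filter,
    Finset.sum_coe_sort T (fun v => if v ∈ S then h v else 0), ← Finset.sum_filter]
  congr 1
  ext x
  rw [Finset.mem_filter]
  exact ⟨fun h => h.2, fun h => ⟨hST h, h⟩⟩

theorem sumW' {S T : Finset RR} (hST : S ⊆ T) (h : RR → ZMod 2) :
    ∑ v ∈ univ.filter (fun u : T => (u : RR) ∈ S), h v = ∑ v ∈ S, h v := by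
  rw [sumW hST, Finset.sum_coe_sort S h]

/-- the systems on a subset -/
theorem gdA_gdB {J : Type} [Fintype J] {S T : Finset RR} (hST : S ⊆ T) (f g : RR → ZMod 2)
    (a : RR → RR → ZMod 2) (b : RR → J → ZMod 2) (sJ tJ : J → ZMod 2) (R : J → J → ZMod 2) :
    GdA (fun u : S => f u) (fun u : S => g u) sJ tJ (fun u v : S => a u v)
      (fun (u : S) l => b u l) R ↔
    GdB (univ.filter fun u : T => (u : RR) ∈ S) (fun u : T => f u) (fun u : T => g u) sJ tJ
      (fun u v : T => a u v) (fun (u : T) l => b u l) R := by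
  unfold GdA GdB
  constructor
  · intro h c d h0 h1 h2
    have hc0 : ∀ u : T, (u : RR) ∉ S → c u = 0 := fun u hu =>
      h0 u (fun h' => hu (Finset.mem_filter.1 h').2)
    obtain ⟨ha, hb⟩ := h (fun u : S => ez0 c u) d (by
        intro u
        have hu := h1 ⟨u, hST u.2⟩ (Finset.mem_filter.2 ⟨Finset.mem_univ _, u.2⟩)
        have e1 := sumW hST (fun v => a u v * (ez0 c u + ez0 c v))
        have e2 : ∀ v : T, c v = ez0 c (v : RR) := fun v => (ez0_coe c v).symm
        simp only [e2] at hu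
        rw [← e1]
        exact hu) (by
        intro k
        have hk := h2 k
        have e1 := sumW hST (fun u => (b u k + g u * tJ k) * (d k + ez0 c u))
        have e2 : ∀ v : T, c v = ez0 c (v : RR) := fun v => (ez0_coe c v).symm
        simp only [e2] at hk
        rw [← e1]
        exact hk)
    refine ⟨fun u => ?_, hb⟩
    by_cases hu : (u : RR) ∈ S
    · have := ha ⟨u, hu⟩
      simp only [ez0_coe] at this
      exact this
    · exact hc0 u hu
  · intro h c d h1 h2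
    have e2 : ∀ v : S, c v = ez0 c (v : RR) := fun v => (ez0_coe c v).symm
    obtain ⟨ha, hb⟩ := h (fun u : T => ez0 c u) d (by
        intro u hu
        have hu' : (u : RR) ∉ S := fun h' => hu (Finset.mem_filter.2 ⟨Finset.mem_univ _, h'⟩)
        show ez0 c (u : RR) = 0
        unfold ez0
        rw [dif_neg hu']) (by
        intro u hu
        have hu' : (u : RR) ∈ S := (Finset.mem_filter.1 hu).2
        have h3 := h1 ⟨u, hu'⟩
        have e1 := sumW hST (fun v => a u v * (ez0 c u + ez0 c v))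
        simp only [e2] at h3
        rw [e1]
        exact h3) (by
        intro k
        have hk := h2 k
        have e1 := sumW hST (fun u => (b u k + g u * tJ k) * (d k + ez0 c u))
        simp only [e2] at hk
        rw [e1]
        exact hk)
    refine ⟨fun u => ?_, hb⟩
    rw [e2]
    exact ha ⟨u, hST u.2⟩

/-- the small primes of the `i`-th system -/
noncomputable def WW {I : Type} [Fintype I] (F : I → Finset RR) (S₀ : Finset RR) (i : I) :
    Finset (S₀ ∪ ZZ F : Finset RR) :=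
  univ.filter fun u => (u : RR) ∈ S₀ ∪ F i

theorem sub_ZZ {I : Type} [Fintype I] (F : I → Finset RR) (i : I) : F i ⊆ ZZ F := by
  intro x hx
  unfold ZZ
  rw [Finset.mem_biUnion]
  exact ⟨i, Finset.mem_univ _, hx⟩

theorem sub_T {I : Type} [Fintype I] (F : I → Finset RR) (S₀ : Finset RR) (i : I) :
    S₀ ∪ F i ⊆ S₀ ∪ ZZ F := Finset.union_subset_union_right (sub_ZZ F i)

theorem disj {I : Type} [Fintype I] {F : I → Finset RR} {S₀ : Finset RR}
    (h : Disjoint S₀ (ZZ F)) (i : I) : Disjoint S₀ (F i) :=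
  Finset.disjoint_of_subset_right (sub_ZZ F i) h

theorem tt_F {I : Type} {F : I → Finset RR} (hF : Fx I F) (i : I) : ∑ u ∈ F i, tt u = 0 := by
  have h1 := KEY.prod_tt (F i) (fun u => u) (hF.cl i).1
  have h2 := (hF.cl i).2
  rcases h1 with h | h
  · exact h.2
  · exfalso
    have h3 := h.1
    rw [h2] at h3
    exact absurd h3 (by norm_num)

section one

variable {I : Type} [Fintype I] {F : I → Finset RR} {S₀ : Finset RR}
  {ι : Type} [Fintype ι] [LinearOrder ι] {p : ι → RR}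

/-- the label condition -/
def LNJ (F : I → Finset RR) (K V : ℕ) (S₀ : Finset RR)
    (β : ι → ((S₀ ∪ ZZ F : Finset RR) → ZMod 2) × ZMod 2 × ZMod 2) : Prop :=
  LN (S₀ ∪ ZZ F) β ∧
  (∀ i j : I, K * (S₀ ∪ ZZ F).card + V ≤
    (univ.filter fun k => La (fun u : (S₀ ∪ ZZ F : Finset RR) => tt u) (fun k => (β k).2.2)
        (fun u l => (β l).1 u) (WW F S₀ i) k +
      La (fun u : (S₀ ∪ ZZ F : Finset RR) => tt u) (fun k => (β k).2.2)
        (fun u l => (β l).1 u) (WW F S₀ j) k + (β k).2.2 = 1).card) ∧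
  ∀ i j : I, i ≠ j → K * (S₀ ∪ ZZ F).card + V ≤
    (univ.filter fun k => La (fun u : (S₀ ∪ ZZ F : Finset RR) => tt u) (fun k => (β k).2.2)
        (fun u l => (β l).1 u) (WW F S₀ i) k +
      La (fun u : (S₀ ∪ ZZ F : Finset RR) => tt u) (fun k => (β k).2.2)
        (fun u l => (β l).1 u) (WW F S₀ j) k = 1).card

omit [Fintype ι] [LinearOrder ι] in
theorem la_eq (hrec : RecP) (hpr : ∀ i, Pq (p i)) (hT : ∀ u ∈ S₀ ∪ ZZ F, Pq u)
    (hd : ∀ i, p i ∉ S₀ ∪ ZZ F) (hdis : Disjoint S₀ (ZZ F)) (i : I) (k : ι) :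
    La (fun u : (S₀ ∪ ZZ F : Finset RR) => tt u) (fun k => tt (p k))
      (fun (u : (S₀ ∪ ZZ F : Finset RR)) l => cs (p l) u) (WW F S₀ i) k =
    ∑ u ∈ S₀, cs u (p k) + ∑ u ∈ F i, cs u (p k) := by
  unfold La
  have e1 : ∀ u ∈ WW F S₀ i, cs (p k) (u : RR) + tt (u : RR) * tt (p k) = cs (u : RR) (p k) := by
    intro u _
    rw [cs_sw hrec hpr hT hd k u]
  rw [Finset.sum_congr rfl e1]
  unfold WW
  rw [sumW' (sub_T F S₀ i) (fun u => cs u (p k)), Finset.sum_union (disj hdis i)]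

omit [Fintype ι] [LinearOrder ι] in
theorem la_add (hrec : RecP) (hpr : ∀ i, Pq (p i)) (hT : ∀ u ∈ S₀ ∪ ZZ F, Pq u)
    (hd : ∀ i, p i ∉ S₀ ∪ ZZ F) (hdis : Disjoint S₀ (ZZ F)) (i j : I) (k : ι) :
    La (fun u : (S₀ ∪ ZZ F : Finset RR) => tt u) (fun k => tt (p k))
      (fun (u : (S₀ ∪ ZZ F : Finset RR)) l => cs (p l) u) (WW F S₀ i) k +
    La (fun u : (S₀ ∪ ZZ F : Finset RR) => tt u) (fun k => tt (p k))
      (fun (u : (S₀ ∪ ZZ F : Finset RR)) l => cs (p l) u) (WW F S₀ j) k =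
    ∑ u ∈ F i, cs u (p k) + ∑ u ∈ F j, cs u (p k) := by
  rw [la_eq hrec hpr hT hd hdis, la_eq hrec hpr hT hd hdis]
  have h := z2_self (∑ u ∈ S₀, cs u (p k))
  linear_combination h

omit [Fintype ι] [LinearOrder ι] in
theorem card_im {α β : Type} {i : Fintype α} {q : α → β} (hq : Function.Injective q) (P : β → Prop)
    {i0 : DecidableEq β} {i1 : DecidablePred P} {i2 : DecidablePred fun k => P (q k)} :
    (@Finset.filter β P i1 (@Finset.image α β i0 q (@Finset.univ α i))).card =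
      (@Finset.filter α (fun k => P (q k)) i2 (@Finset.univ α i)).card := by
  rw [Finset.filter_image, Finset.card_image_of_injective _ hq]
  congr 1
  ext k
  simp only [Finset.mem_filter]

omit [LinearOrder ι] in
theorem ndJ_iff (hrec : RecP) (hp : Function.Injective p) (hpr : ∀ i, Pq (p i))
    (hT : ∀ u ∈ S₀ ∪ ZZ F, Pq u) (hd : ∀ i, p i ∉ S₀ ∪ ZZ F) (hdis : Disjoint S₀ (ZZ F))
    (K V : ℕ) :
    NdJ F K V S₀ (univ.image p) ↔ LNJ F K V S₀ (fun i => lb (S₀ ∪ ZZ F) (p i)) := by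
  unfold NdJ LNJ
  refine and_congr (nd_iff hrec hpr hT hd) (and_congr ?_ ?_)
  · refine forall_congr' fun i => forall_congr' fun j => ?_
    rw [card_im hp]
    have e : (univ.filter fun k => ∑ u ∈ F i, cs u (p k) + ∑ u ∈ F j, cs u (p k) + tt (p k) = 1) =
        (univ.filter fun k => La (fun u : (S₀ ∪ ZZ F : Finset RR) => tt u)
          (fun k => (lb (S₀ ∪ ZZ F) (p k)).2.2)
          (fun u l => (lb (S₀ ∪ ZZ F) (p l)).1 u) (WW F S₀ i) k +
        La (fun u : (S₀ ∪ ZZ F : Finset RR) => tt u) (fun k => (lb (S₀ ∪ ZZ F) (p k)).2.2)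
          (fun u l => (lb (S₀ ∪ ZZ F) (p l)).1 u) (WW F S₀ j) k +
          (lb (S₀ ∪ ZZ F) (p k)).2.2 = 1) := by
      refine Finset.filter_congr fun k _ => ?_
      rw [← la_add hrec hpr hT hd hdis i j k]
      exact Iff.rfl
    rw [e]
  · refine forall_congr' fun i => forall_congr' fun j => imp_congr_right fun _ => ?_
    rw [card_im hp]
    have e : (univ.filter fun k => ∑ u ∈ F i, cs u (p k) + ∑ u ∈ F j, cs u (p k) = 1) =
        (univ.filter fun k => La (fun u : (S₀ ∪ ZZ F : Finset RR) => tt u)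
          (fun k => (lb (S₀ ∪ ZZ F) (p k)).2.2)
          (fun u l => (lb (S₀ ∪ ZZ F) (p l)).1 u) (WW F S₀ i) k +
        La (fun u : (S₀ ∪ ZZ F : Finset RR) => tt u) (fun k => (lb (S₀ ∪ ZZ F) (p k)).2.2)
          (fun u l => (lb (S₀ ∪ ZZ F) (p l)).1 u) (WW F S₀ j) k = 1) := by
      refine Finset.filter_congr fun k _ => ?_
      rw [← la_add hrec hpr hT hd hdis i j k]
      exact Iff.rfl
    rw [e]

theorem gdJ_iff (hrec : RecP) (hp : Function.Injective p) (hpr : ∀ i, Pq (p i))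
    (hT : ∀ u ∈ S₀ ∪ ZZ F, Pq u) (hd : ∀ i, p i ∉ S₀ ∪ ZZ F) :
    GdJ F (S₀ ∪ univ.image p) ↔ ∀ i : I, GdB (WW F S₀ i)
      (fun u : (S₀ ∪ ZZ F : Finset RR) => ss u) (fun u : (S₀ ∪ ZZ F : Finset RR) => tt u)
      (fun k => ss (p k)) (fun k => tt (p k))
      (fun u v : (S₀ ∪ ZZ F : Finset RR) => cs v u)
      (fun (u : (S₀ ∪ ZZ F : Finset RR)) l => cs (p l) u)
      (Pool.Agent.R426.QK.ext (fun i => tt (p i)) fun e : prs ι => cs (p e.1.1) (p e.1.2)) := by
  unfold GdJ
  refine forall_congr' fun i => ?_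
  rw [Finset.union_right_comm, gd_iff hrec hp hpr (fun u hu => hT u (sub_T F S₀ i hu))
    (fun k hk => hd k (sub_T F S₀ i hk))]
  exact gdA_gdB (sub_T F S₀ i) ss tt (fun u v => cs v u) (fun u l => cs (p l) u) _ _ _

end one

/-- **The joint count in a box.** -/
theorem t_BOXJ : S_BOXJ := by
  intro hrec hEQ I _ F hF ε K V hLA ι _ _ C X κ S₀ hκ hCX hHB hS₀ hdZ hC hdis hhyp
  obtain ⟨R, hR⟩ : ∃ R : ℝ, R = 2 ^ (prs ι).card * (κ * ∏ j, (X j : ℝ)) := ⟨_, rfl⟩
  have hR0 : 0 ≤ R := by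
    rw [hR]
    exact mul_nonneg (by positivity)
      (mul_nonneg hκ (Finset.prod_nonneg fun j _ => by positivity))
  have hT : ∀ u ∈ S₀ ∪ ZZ F, Pq u := by
    intro u hu
    rw [Finset.mem_union] at hu
    rcases hu with hu | hu
    · exact hS₀ u hu
    · unfold ZZ at hu
      rw [Finset.mem_biUnion] at hu
      obtain ⟨i, -, hi⟩ := hu
      exact (hF.cl i).1 u hi
  -- facts on tuples
  have hinj : ∀ p ∈ Fintype.piFinset C, Function.Injective p := by
    intro p hp i j hij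
    rw [Fintype.mem_piFinset] at hp
    by_contra hne
    have h1 := Finset.disjoint_left.1 (hdis i j hne) (hp i)
    rw [hij] at h1
    exact h1 (hp j)
  have hd : ∀ p ∈ Fintype.piFinset C, ∀ i, p i ∉ S₀ ∪ ZZ F := by
    intro p hp i
    rw [Fintype.mem_piFinset] at hp
    exact (hC i _ (hp i)).2
  have hpr : ∀ p ∈ Fintype.piFinset C, ∀ i, Pq (p i) := by
    intro p hp i
    rw [Fintype.mem_piFinset] at hp
    exact (hC i _ (hp i)).1
  -- the part with given labels
  have h1 : ∀ β : ι → ((S₀ ∪ ZZ F : Finset RR) → ZMod 2) × ZMod 2 × ZMod 2, LNJ F K V S₀ β →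
      |(((Fintype.piFinset C).filter fun p => (fun i => lb (S₀ ∪ ZZ F) (p i)) = β ∧
          GdJ F (S₀ ∪ univ.image p)).card : ℝ) -
        c2 ^ Fintype.card I *
          (((Fintype.piFinset C).filter fun p => (fun i => lb (S₀ ∪ ZZ F) (p i)) = β).card : ℝ)| ≤
      ε * (((Fintype.piFinset C).filter fun p =>
        (fun i => lb (S₀ ∪ ZZ F) (p i)) = β).card : ℝ) + R := by
    intro β hβ
    by_cases hex : ∃ p ∈ Fintype.piFinset C, (fun i => lb (S₀ ∪ ZZ F) (p i)) = β
    swap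
    · have e1 : ((Fintype.piFinset C).filter fun p =>
          (fun i => lb (S₀ ∪ ZZ F) (p i)) = β) = ∅ := by
        rw [Finset.filter_eq_empty_iff]
        intro p hp h
        exact hex ⟨p, hp, h⟩
      have e2 : ((Fintype.piFinset C).filter fun p => (fun i => lb (S₀ ∪ ZZ F) (p i)) = β ∧
          GdJ F (S₀ ∪ univ.image p)) = ∅ := by
        rw [Finset.filter_eq_empty_iff]
        rintro p hp ⟨h, -⟩
        exact hex ⟨p, hp, h⟩
      rw [e1, e2, Finset.card_empty, Nat.cast_zero, mul_zero, mul_zero, sub_zero, abs_zero,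
        zero_add]
      exact hR0
    obtain ⟨q₀, hq₀, hq₀β⟩ := hex
    have hc2 := hhyp q₀ hq₀
    obtain ⟨C', hC'⟩ : ∃ C' : ι → Finset RR,
        C' = fun i => (C i).filter fun q => lb (S₀ ∪ ZZ F) q = β i := ⟨_, rfl⟩
    have hpi : (Fintype.piFinset C).filter (fun p => (fun i => lb (S₀ ∪ ZZ F) (p i)) = β) =
        Fintype.piFinset C' := by
      ext p
      simp only [Finset.mem_filter, Fintype.mem_piFinset, hC']
      constructor
      · rintro ⟨h2, h3⟩ i
        exact ⟨h2 i, congrFun h3 i⟩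
      · intro h2
        exact ⟨fun i => (h2 i).1, funext fun i => (h2 i).2⟩
    have htt : ∀ i, (β i).2.2 = tt (q₀ i) := by
      intro i
      rw [← hq₀β]
      rfl
    have hH : Hyp K V (fun i : I => WW F S₀ i) (fun u : (S₀ ∪ ZZ F : Finset RR) => ss u)
        (fun u : (S₀ ∪ ZZ F : Finset RR) => tt u) (fun i => (β i).2.1) (fun i => (β i).2.2)
        (fun u v : (S₀ ∪ ZZ F : Finset RR) => cs v u)
        (fun (u : (S₀ ∪ ZZ F : Finset RR)) l => (β l).1 u) := by
      constructor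
      · intro i j
        rw [Fintype.card_coe]
        exact hβ.2.1 i j
      · intro i j hij
        rw [Fintype.card_coe]
        exact hβ.2.2 i j hij
      · intro i
        simp only [htt]
        unfold WW
        rw [sumW' (sub_T F S₀ i) (fun u => tt u), Finset.sum_union (disj hdZ i), tt_F hF i,
          add_zero]
        exact hc2
      · intro u v huv
        have h3 := hrec (u : RR) v (hT u u.2) (hT v v.2) (fun h => huv (Subtype.ext h))
        rw [← h3, add_comm]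
      · intro w e hw
        exact hβ.1 w e hw
    have h2 := hLA (S₀ ∪ ZZ F : Finset RR) ι (fun i : I => WW F S₀ i) _ _ _ _ _ _ hH
    obtain ⟨Q, hQ⟩ : ∃ Q : (prs ι → ZMod 2) → Prop, Q = fun α => ∀ i : I,
        GdB (WW F S₀ i) (fun u : (S₀ ∪ ZZ F : Finset RR) => ss u)
          (fun u : (S₀ ∪ ZZ F : Finset RR) => tt u) (fun i => (β i).2.1) (fun i => (β i).2.2)
          (fun u v : (S₀ ∪ ZZ F : Finset RR) => cs v u)
          (fun (u : (S₀ ∪ ZZ F : Finset RR)) l => (β l).1 u)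
          (Pool.Agent.R426.QK.ext (fun i => (β i).2.2) α) := ⟨_, rfl⟩
    have h3 := hEQ ι C' X κ hκ
      (fun i => (Finset.card_le_card (by rw [hC']; exact Finset.filter_subset _ _)).trans (hCX i))
      (by rw [hC']; exact HB_sub hHB fun i q => lb (S₀ ∪ ZZ F) q = β i) Q
    have h4 : ((Fintype.piFinset C).filter fun p => (fun i => lb (S₀ ∪ ZZ F) (p i)) = β ∧
        GdJ F (S₀ ∪ univ.image p)) = ((Fintype.piFinset C').filter fun p =>
          Q fun e => cs (p e.1.1) (p e.1.2)) := by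
      rw [← hpi, Finset.filter_filter]
      refine Finset.filter_congr fun p hp => ?_
      refine and_congr_right fun hl => ?_
      rw [gdJ_iff hrec (hinj p hp) (hpr p hp) hT (hd p hp)]
      subst hl
      rw [hQ]
      exact Iff.rfl
    have h5 : (((Fintype.piFinset C').card : ℕ) : ℝ) = ∏ j, ((C' j).card : ℝ) := by
      rw [Fintype.card_piFinset]
      push_cast
      rfl
    rw [h4, hpi, h5]
    rw [← hR] at h3
    obtain ⟨n, hn⟩ : ∃ n : ℝ, n = (((Fintype.piFinset C').filter fun p =>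
          Q fun e => cs (p e.1.1) (p e.1.2)).card : ℝ) := ⟨_, rfl⟩
    obtain ⟨q, hq⟩ : ∃ q : ℝ, q = ((univ.filter Q).card : ℝ) / 2 ^ (prs ι).card := ⟨_, rfl⟩
    obtain ⟨P, hP⟩ : ∃ P : ℝ, P = ∏ j, ((C' j).card : ℝ) := ⟨_, rfl⟩
    obtain ⟨c, hc⟩ : ∃ c : ℝ, c = c2 ^ Fintype.card I := ⟨_, rfl⟩
    have hP0 : 0 ≤ P := by
      rw [hP]
      exact Finset.prod_nonneg fun j _ => by positivity
    have e8 : ∀ n1 n2 : ℕ, n1 = n2 →
        |(n2 : ℝ) / 2 ^ (prs ι).card - c2 ^ Fintype.card I| ≤ ε →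
        |(n1 : ℝ) / 2 ^ (prs ι).card - c2 ^ Fintype.card I| ≤ ε := by
      rintro n1 n2 rfl h
      exact h
    have h2' : |q - c| ≤ ε := by
      rw [hq, hQ, hc]
      exact e8 _ _ (KEY.fcc fun x _ => Iff.rfl) h2
    rw [← hn, ← hq, ← hP] at h3
    rw [← hn, ← hP, ← hc]
    have h6 : |n - c * P| ≤ |n - q * P| + |q - c| * P := by
      have h7 : n - c * P = (n - q * P) + (q - c) * P := by ring
      have h8 : |(q - c) * P| = |q - c| * P := by rw [abs_mul, abs_of_nonneg hP0]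
      rw [h7, ← h8]
      exact abs_add_le _ _
    have h7 : |q - c| * P ≤ ε * P := mul_le_mul_of_nonneg_right h2' hP0
    linarith
  -- sum over the labels
  obtain ⟨LL, hLL⟩ : ∃ LL : Finset (ι → ((S₀ ∪ ZZ F : Finset RR) → ZMod 2) × ZMod 2 × ZMod 2),
      LL = univ.filter (fun β => LNJ F K V S₀ β) := ⟨_, rfl⟩
  have hfib : ∀ T : (ι → RR) → Prop,
      (((Fintype.piFinset C).filter fun p => NdJ F K V S₀ (univ.image p) ∧ T p).card : ℝ) =
      ∑ β ∈ LL, (((Fintype.piFinset C).filter fun p =>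
        (fun i => lb (S₀ ∪ ZZ F) (p i)) = β ∧ T p).card : ℝ) := by
    intro T
    rw [Finset.card_eq_sum_card_fiberwise (f := fun (p : ι → RR) (i : ι) => lb (S₀ ∪ ZZ F) (p i))
      (t := LL) (by
        intro p hp
        rw [Finset.mem_coe, Finset.mem_filter] at hp
        rw [Finset.mem_coe, hLL, Finset.mem_filter]
        exact ⟨Finset.mem_univ _,
          (ndJ_iff hrec (hinj p hp.1) (hpr p hp.1) hT (hd p hp.1) hdZ K V).1 hp.2.1⟩)]
    push_cast
    refine Finset.sum_congr rfl fun β hβ => ?_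
    rw [hLL, Finset.mem_filter] at hβ
    congr 2
    ext p
    simp only [Finset.mem_filter]
    constructor
    · rintro ⟨⟨h3, h4, h4'⟩, h5⟩
      exact ⟨h3, h5, h4'⟩
    · rintro ⟨h3, h4, h5⟩
      refine ⟨⟨h3, ?_, h5⟩, h4⟩
      rw [ndJ_iff hrec (hinj p h3) (hpr p h3) hT (hd p h3) hdZ K V, h4]
      exact hβ.2
  have hf1 := hfib fun p => GdJ F (S₀ ∪ univ.image p)
  have hf2 := hfib fun _ => True
  simp only [and_true] at hf2
  rw [hf1, hf2, Finset.mul_sum, ← Finset.sum_sub_distrib]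
  refine (Finset.abs_sum_le_sum_abs _ _).trans ?_
  refine (Finset.sum_le_sum fun β hβ => h1 β (by
    rw [hLL] at hβ
    exact (Finset.mem_filter.1 hβ).2)).trans ?_
  rw [Finset.sum_add_distrib, ← Finset.mul_sum, Finset.sum_const, nsmul_eq_mul]
  have h5 : ((LL.card : ℕ) : ℝ) ≤ 2 ^ (((S₀ ∪ ZZ F).card + 2) * Fintype.card ι) := by
    have h6 : LL.card ≤
        Fintype.card (ι → ((S₀ ∪ ZZ F : Finset RR) → ZMod 2) × ZMod 2 × ZMod 2) :=
      Finset.card_le_univ _
    rw [Fintype.card_fun, Fintype.card_prod, Fintype.card_prod, Fintype.card_fun, ZMod.card,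
      Fintype.card_coe] at h6
    have h7 : 2 ^ (S₀ ∪ ZZ F).card * (2 * 2) = 2 ^ ((S₀ ∪ ZZ F).card + 2) := by ring
    rw [h7, ← pow_mul] at h6
    exact_mod_cast h6
  have h6 := mul_le_mul_of_nonneg_right h5 hR0
  rw [pow_add, mul_assoc, ← hR]
  linarith

end Pool.Agent.R426.QJ.Box
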