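import Pool.Agent.R426.QJ.Stm
import Pool.Agent.R426.QK.FB

/-!
Project QJ: FB, few sets have degenerate labels (helper806).
-/

set_option autoImplicit false

open scoped Classical

namespace Pool.Agent.R426.QJ.FB

open Finset Filter
open Pool.Agent.R426.QK Pool.Agent.R426.QJ
open Pool.Agent.R426.QK.FB
open Pool.Agent.Y698 (RR)
open Pool.Agent.Y703.CX (eL zz kk)
open Pool.Agent.Y495.CX.Few (eL_tendsto)

lemma lgn_mul {a b : ℕ} (ha : 0 < a) (hb : 0 < b) : lgn (a * b) ≤ 2 * lgn b * lgn a := by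
  have h1 : lgn (a * b) ≤ lgn a + lgn b := by
    unfold lgn
    have h2 : Nat.log 2 (a * b) < Nat.log 2 a + 1 + (Nat.log 2 b + 1) := by
      apply Nat.log_lt_of_lt_pow (by positivity)
      rw [pow_add]
      exact Nat.mul_lt_mul'' (Nat.lt_pow_succ_log_self (by norm_num) a)
        (Nat.lt_pow_succ_log_self (by norm_num) b)
    have h3 : Nat.log 2 (a * b) ≤ Nat.log 2 a + Nat.log 2 b + 1 := by omega
    have h4 : ((Nat.log 2 (a * b) : ℕ) : ℝ) ≤ Nat.log 2 a + Nat.log 2 b + 1 := by exact_mod_cast h3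
    linarith
  have h5 := one_le_lgn a
  have h6 := one_le_lgn b
  nlinarith

/-- the general count -/
theorem char_count {C : ℝ} (hC1 : 1 ≤ C)
    (hC : ∀ (n : RR) (i j : ℕ), PS n → i < 2 → j < 2 → (n ≠ 1 ∨ i ≠ 0 ∨ j ≠ 0) → ∀ T : ℕ,
      ∑ a ∈ SB T, mf (fun π => (2 + (xr n i j π).re) / 3) a ≤
        C * (lgn (nrm n)) ^ (1 / 3 : ℝ) * (T * (lgn T) ^ (-(1 / 3) : ℝ)))
    (X z : ℕ) (Z S₀ : Finset RR) (hZ : ∀ u ∈ Z, Pq u ∧ nrm u ≤ z)
    (hS₀ : ∀ u ∈ S₀, Pq u ∧ nrm u ≤ z)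
    (A : Finset RR) (i j m : ℕ) (hA : A ⊆ S₀ ∪ Z) (hi : i < 2) (hj : j < 2)
    (hAij : A ≠ ∅ ∨ i ≠ 0 ∨ j ≠ 0)
    (G : Finset (Finset RR)) (hG : ∀ S ∈ G, (S ∈ SS X ∧ sm z S = S₀) ∧
      ((la z S).filter fun π => ∑ u ∈ A, cs u π + i * ss π + j * tt π = 1).card ≤ m) :
    (G.card : ℝ) ≤ 3 ^ m * (2 * C * lgn (pN Z) * lgn (pN S₀) * (((X / pN S₀ : ℕ) : ℝ) *
          (lgn (X / pN S₀)) ^ (-(1 / 3) : ℝ))) := by
  have hAq : ∀ u ∈ A, Pq u ∧ nrm u ≤ z := by
    intro u hu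
    rcases mem_union.1 (hA hu) with h | h
    · exact hS₀ u h
    · exact hZ u h
  obtain ⟨a1, a2⟩ := PS_prod (S := A) fun π hπ => (hAq π hπ).1
  have hval : ∀ S ∈ G, ∀ π ∈ la z S, xr (∏ π ∈ A, π) i j π =
      ez (∑ u ∈ A, cs u π + i * ss π + j * tt π) := by
    intro S hS π hπ
    obtain ⟨⟨h1, h2⟩, h3⟩ := hG S hS
    have hπq : Pq π ∧ ¬ nrm π ≤ z := by
      unfold la at hπ
      rw [mem_filter] at hπ
      unfold SS at h1
      rw [mem_filter] at h1
      exact ⟨h1.2.1.1 π hπ.1, hπ.2⟩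
    exact xr_ez (fun u hu => (hAq u hu).1) hi hj hπq.1 (fun h => hπq.2 (hAq π h).2)
  set a := ∏ π ∈ A, π with ha
  have hab : a ≠ 1 ∨ i ≠ 0 ∨ j ≠ 0 := by
    rcases hAij with h | h
    · left
      intro h1
      apply h
      rw [← a2, h1, PD_one]
    · exact Or.inr h
  have h := fiber_le X z S₀ (fun u hu => (hS₀ u hu).1) G (fun S hS => (hG S hS).1)
    (fun π => (2 + (xr a i j π).re) / 3) (fun π => by
      have := g_ge a i j π
      linarith) ((1 / 3) ^ m) (fun S hS => by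
      have e1 : ∏ π ∈ la z S, (2 + (xr a i j π).re) / 3 =
          ∏ π ∈ (la z S).filter (fun π => ∑ u ∈ A, cs u π + i * ss π + j * tt π = 1),
            (2 + (xr a i j π).re) / 3 := by
        rw [prod_filter]
        refine prod_congr rfl fun π hπ => ?_
        by_cases htt : ∑ u ∈ A, cs u π + i * ss π + j * tt π = 1
        · rw [if_pos htt]
        · rw [if_neg htt]
          have key : ∀ c : ZMod 2, c ≠ 1 → c = 0 := by decide
          rw [hval S hS π hπ, key _ htt, ez_zero]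
          norm_num
      rw [e1]
      calc ((1 : ℝ) / 3) ^ m ≤ (1 / 3) ^
            ((la z S).filter (fun π => ∑ u ∈ A, cs u π + i * ss π + j * tt π = 1)).card :=
            pow_le_pow_of_le_one (by norm_num) (by norm_num) (hG S hS).2
        _ = ∏ _π ∈ (la z S).filter (fun π => ∑ u ∈ A, cs u π + i * ss π + j * tt π = 1),
            ((1 : ℝ) / 3) := by rw [prod_const]
        _ ≤ _ := prod_le_prod (fun _ _ => by norm_num) fun π _ => g_ge a i j π)
  have hnn : nrm a ≤ pN S₀ * pN Z := by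
    have h1 : nrm a ≤ pN (S₀ ∪ Z) := by
      rw [ha, nrm_prod]
      unfold pN
      refine prod_le_prod_of_subset_of_one_le' hA fun u hu _ => ?_
      rcases mem_union.1 hu with h | h
      · exact nrm_pos' (pq_ne (hS₀ u h).1)
      · exact nrm_pos' (pq_ne (hZ u h).1)
    refine h1.trans ?_
    unfold pN
    rw [← prod_union_inter]
    refine Nat.le_mul_of_pos_right _ (prod_pos fun u hu => ?_)
    exact nrm_pos' (pq_ne (hS₀ u (mem_inter.1 hu).1).1)
  have hT := hC a i j a1 hi hj hab (X / pN S₀)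
  have h4 : (lgn (nrm a)) ^ (1 / 3 : ℝ) ≤ 2 * lgn (pN Z) * lgn (pN S₀) := by
    calc (lgn (nrm a)) ^ (1 / 3 : ℝ) ≤ (lgn (nrm a)) ^ (1 : ℝ) :=
          Real.rpow_le_rpow_of_exponent_le (one_le_lgn _) (by norm_num)
      _ = lgn (nrm a) := Real.rpow_one _
      _ ≤ lgn (pN S₀ * pN Z) := lgn_mono hnn
      _ ≤ _ := lgn_mul (pN_pos fun u hu => (hS₀ u hu).1) (pN_pos fun u hu => (hZ u hu).1)
  have hTl : 0 ≤ ((X / pN S₀ : ℕ) : ℝ) * (lgn (X / pN S₀)) ^ (-(1 / 3) : ℝ) :=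
    mul_nonneg (Nat.cast_nonneg _) (Real.rpow_nonneg (zero_le_one.trans (one_le_lgn _)) _)
  have h3 : (3 : ℝ) ^ m * (1 / 3) ^ m = 1 := by
    rw [← mul_pow]
    norm_num
  calc (G.card : ℝ) = 3 ^ m * ((G.card : ℝ) * (1 / 3) ^ m) := by
        linear_combination (-(G.card : ℝ)) * h3
    _ ≤ 3 ^ m * (C * (lgn (nrm a)) ^ (1 / 3 : ℝ) * (((X / pN S₀ : ℕ) : ℝ) *
          (lgn (X / pN S₀)) ^ (-(1 / 3) : ℝ))) :=
        mul_le_mul_of_nonneg_left (h.trans hT) (by positivity)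
    _ ≤ 3 ^ m * (C * (2 * lgn (pN Z) * lgn (pN S₀)) * (((X / pN S₀ : ℕ) : ℝ) *
          (lgn (X / pN S₀)) ^ (-(1 / 3) : ℝ))) := by gcongr
    _ = _ := by ring

/-- the sum over the symmetric difference -/
lemma sum_symm (A B : Finset RR) (f : RR → ZMod 2) :
    ∑ u ∈ A, f u + ∑ u ∈ B, f u = ∑ u ∈ (A \ B) ∪ (B \ A), f u := by
  have hd : Disjoint (A \ B) (B \ A) := by
    rw [disjoint_left]
    intro x hx hx'
    rw [Finset.mem_sdiff] at hx hx'
    exact hx.2 hx'.1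
  have h1 : ∑ u ∈ A, f u = ∑ u ∈ A \ B, f u + ∑ u ∈ A ∩ B, f u := by
    rw [← sum_union (disjoint_sdiff_inter A B), sdiff_union_inter]
  have h2 : ∑ u ∈ B, f u = ∑ u ∈ B \ A, f u + ∑ u ∈ A ∩ B, f u := by
    rw [inter_comm, ← sum_union (disjoint_sdiff_inter B A), sdiff_union_inter]
  rw [sum_union hd, h1, h2]
  have key : ∀ a b c : ZMod 2, a + c + (b + c) = a + b := by decide
  exact key _ _ _

theorem fb_count (hR : RecP) {C : ℝ} (hC1 : 1 ≤ C)
    (hC : ∀ (n : RR) (i j : ℕ), PS n → i < 2 → j < 2 → (n ≠ 1 ∨ i ≠ 0 ∨ j ≠ 0) → ∀ T : ℕ,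
      ∑ a ∈ SB T, mf (fun π => (2 + (xr n i j π).re) / 3) a ≤
        C * (lgn (nrm n)) ^ (1 / 3 : ℝ) * (T * (lgn T) ^ (-(1 / 3) : ℝ)))
    {I : Type} [Fintype I] (F : I → Finset RR) (hF : Fx I F) (K V : ℕ)
    (X : ℕ) (S₀ : Finset RR) (hS₀ : ∀ u ∈ S₀, Pq u ∧ nrm u ≤ zz X)
    (G : Finset (Finset RR))
    (hG : ∀ S ∈ G, S ∈ SS X ∧ (S.card ≤ kk X ∧ ((∀ u ∈ ZZ F, nrm u ≤ zz X) ∧
      ¬ NdJ F K V (sm (zz X) S) (la (zz X) S))) ∧
      sm (zz X) S = S₀) : (G.card : ℝ) ≤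
        ((4 * 2 ^ (ZZ F).card + 2 * (Fintype.card I) ^ 2 * 3 ^ (K * (ZZ F).card + V)) *
          (2 * C * lgn (pN (ZZ F)))) * (2 * 3 ^ K) ^ S₀.card * lgn (pN S₀) *
          (((X / pN S₀ : ℕ) : ℝ) * (lgn (X / pN S₀)) ^ (-(1 / 3) : ℝ)) := by
  rcases G.eq_empty_or_nonempty with rfl | ⟨S', hS'⟩
  · rw [card_empty, Nat.cast_zero]
    have h1 := one_le_lgn (pN (ZZ F))
    have h2 := one_le_lgn (pN S₀)
    have h3 := one_le_lgn (X / pN S₀)
    positivity
  set Z := ZZ F with hZdef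
  have hZ : ∀ u ∈ Z, Pq u ∧ nrm u ≤ zz X := by
    intro u hu
    refine ⟨?_, (hG S' hS').2.1.2.1 u hu⟩
    rw [hZdef] at hu
    unfold ZZ at hu
    rw [mem_biUnion] at hu
    obtain ⟨i, -, hi⟩ := hu
    exact (hF.cl i).1 u hi
  set m := K * (S₀ ∪ Z).card + V with hm
  set w : ℝ := 2 * C * lgn (pN Z) * lgn (pN S₀) * (((X / pN S₀ : ℕ) : ℝ) *
          (lgn (X / pN S₀)) ^ (-(1 / 3) : ℝ)) with hw
  have hw0 : 0 ≤ w := by
    have h1 := one_le_lgn (pN Z)
    have h2 := one_le_lgn (pN S₀)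
    have h3 := one_le_lgn (X / pN S₀)
    rw [hw]
    positivity
  -- the index sets
  set P := ((S₀ ∪ Z).powerset ×ˢ (range 2 ×ˢ range 2)).filter
    fun p => p.1 ≠ ∅ ∨ p.2.1 ≠ 0 ∨ p.2.2 ≠ 0 with hP
  set E := fun i j : I => (F i \ F j) ∪ (F j \ F i) with hE
  have hEsub : ∀ i j, E i j ⊆ S₀ ∪ Z := by
    intro i j u hu
    rw [mem_union]
    right
    rw [hZdef]
    unfold ZZ
    rw [mem_biUnion]
    simp only [hE, mem_union, Finset.mem_sdiff] at hu
    rcases hu with h | h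
    · exact ⟨i, mem_univ _, h.1⟩
    · exact ⟨j, mem_univ _, h.1⟩
  have hEne : ∀ i j, i ≠ j → E i j ≠ ∅ := by
    intro i j hij h0
    apply hij
    apply hF.inj
    simp only [hE, union_eq_empty, sdiff_eq_empty_iff_subset] at h0
    exact Subset.antisymm h0.1 h0.2
  set G1 := P.biUnion fun p => G.filter fun S => ((la (zz X) S).filter fun π =>
    ∑ u ∈ p.1, cs u π + p.2.1 * ss π + p.2.2 * tt π = 1).card ≤ 0 with hG1
  set G2 := (univ : Finset (I × I)).biUnion fun p => G.filter fun S =>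
    ((la (zz X) S).filter fun π =>
    ∑ u ∈ E p.1 p.2, cs u π + (0 : ℕ) * ss π + (1 : ℕ) * tt π = 1).card ≤ m with hG2
  set G3 := ((univ : Finset (I × I)).filter fun p => p.1 ≠ p.2).biUnion fun p => G.filter fun S =>
    ((la (zz X) S).filter fun π =>
    ∑ u ∈ E p.1 p.2, cs u π + (0 : ℕ) * ss π + (0 : ℕ) * tt π = 1).card ≤ m with hG3
  have hsub : G ⊆ G1 ∪ (G2 ∪ G3) := by
    intro S hS
    obtain ⟨h1, ⟨h2, h5, h3⟩, h4⟩ := hG S hS
    rw [h4] at h3
    have hT : ∀ π ∈ la (zz X) S, Pq π ∧ π ∉ S₀ ∪ Z := by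
      intro π hπ
      unfold la at hπ
      rw [mem_filter] at hπ
      unfold SS at h1
      rw [mem_filter] at h1
      refine ⟨h1.2.1.1 π hπ.1, fun h => hπ.2 ?_⟩
      rcases mem_union.1 h with h | h
      · exact (hS₀ π h).2
      · exact (hZ π h).2
    unfold NdJ at h3
    rw [not_and_or, not_and_or] at h3
    rcases h3 with h3 | h3 | h3
    · have hq : ∀ u ∈ S₀ ∪ Z, Pq u := fun u hu => by
        rcases mem_union.1 hu with h | h
        · exact (hS₀ u h).1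
        · exact (hZ u h).1
      obtain ⟨A, i, j, hA, hi, hj, hAij, hDg⟩ := notNd hR hq hT h3
      rw [mem_union]
      left
      rw [hG1, mem_biUnion]
      refine ⟨(A, i, j), ?_, ?_⟩
      · rw [hP, mem_filter, mem_product, mem_product, mem_powerset, mem_range, mem_range]
        exact ⟨⟨hA, hi, hj⟩, hAij⟩
      · rw [mem_filter]
        refine ⟨hS, ?_⟩
        rw [Nat.le_zero, card_eq_zero, filter_eq_empty_iff]
        intro π hπ h6
        rw [hDg π hπ] at h6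
        exact absurd h6 (by decide)
    · push Not at h3
      obtain ⟨i, j, h3⟩ := h3
      rw [mem_union, mem_union]
      right
      left
      rw [hG2, mem_biUnion]
      refine ⟨(i, j), mem_univ _, ?_⟩
      rw [mem_filter]
      refine ⟨hS, ?_⟩
      refine le_trans (le_of_eq ?_) h3.le
      congr 1
      refine filter_congr fun π _ => ?_
      rw [sum_symm, Nat.cast_zero, zero_mul, add_zero, Nat.cast_one, one_mul]
    · push Not at h3
      obtain ⟨i, j, hij, h3⟩ := h3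
      rw [mem_union, mem_union]
      right
      right
      rw [hG3, mem_biUnion]
      refine ⟨(i, j), ?_, ?_⟩
      · rw [mem_filter]
        exact ⟨mem_univ _, hij⟩
      rw [mem_filter]
      refine ⟨hS, ?_⟩
      refine le_trans (le_of_eq ?_) h3.le
      congr 1
      refine filter_congr fun π _ => ?_
      rw [sum_symm, Nat.cast_zero, zero_mul, add_zero, zero_mul, add_zero]
  have hc1 : (G1.card : ℝ) ≤ P.card * w := by
    have h1 : (G1.card : ℝ) ≤ ∑ p ∈ P, ((G.filter fun S => ((la (zz X) S).filter fun π =>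
        ∑ u ∈ p.1, cs u π + p.2.1 * ss π + p.2.2 * tt π = 1).card ≤ 0).card : ℝ) := by
      exact_mod_cast card_biUnion_le
    refine h1.trans ?_
    rw [← nsmul_eq_mul, ← sum_const]
    refine sum_le_sum fun p hp => ?_
    rw [hP, mem_filter, mem_product, mem_product, mem_powerset, mem_range, mem_range] at hp
    have h2 := char_count hC1 hC X (zz X) Z S₀ hZ hS₀ p.1 p.2.1 p.2.2 0 hp.1.1 hp.1.2.1
      hp.1.2.2 hp.2 (G.filter fun S => ((la (zz X) S).filter fun π =>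
        ∑ u ∈ p.1, cs u π + p.2.1 * ss π + p.2.2 * tt π = 1).card ≤ 0) (fun S hS => by
      rw [mem_filter] at hS
      exact ⟨⟨(hG S hS.1).1, (hG S hS.1).2.2⟩, hS.2⟩)
    rw [pow_zero, one_mul] at h2
    exact h2
  have hc2 : (G2.card : ℝ) ≤ (Fintype.card I) ^ 2 * (3 ^ m * w) := by
    have h1 : (G2.card : ℝ) ≤ ∑ p : I × I, ((G.filter fun S => ((la (zz X) S).filter fun π =>
        ∑ u ∈ E p.1 p.2, cs u π + (0 : ℕ) * ss π + (1 : ℕ) * tt π = 1).card ≤ m).card : ℝ) := by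
      exact_mod_cast card_biUnion_le
    refine h1.trans ?_
    have h3 : ((Fintype.card I : ℝ)) ^ 2 * (3 ^ m * w) = ∑ _p : I × I, (3 ^ m * w) := by
      rw [sum_const, nsmul_eq_mul, card_univ, Fintype.card_prod]
      push_cast
      ring
    rw [h3]
    refine sum_le_sum fun p _ => ?_
    exact char_count hC1 hC X (zz X) Z S₀ hZ hS₀ (E p.1 p.2) 0 1 m (hEsub _ _) (by norm_num)
      (by norm_num) (Or.inr (Or.inr one_ne_zero)) _ (fun S hS => by
      rw [mem_filter] at hS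
      exact ⟨⟨(hG S hS.1).1, (hG S hS.1).2.2⟩, hS.2⟩)
  have hc3 : (G3.card : ℝ) ≤ (Fintype.card I) ^ 2 * (3 ^ m * w) := by
    have h1 : (G3.card : ℝ) ≤ ∑ p ∈ (univ : Finset (I × I)).filter (fun p => p.1 ≠ p.2),
        ((G.filter fun S => ((la (zz X) S).filter fun π =>
        ∑ u ∈ E p.1 p.2, cs u π + (0 : ℕ) * ss π + (0 : ℕ) * tt π = 1).card ≤ m).card : ℝ) := by
      exact_mod_cast card_biUnion_le
    refine h1.trans ?_
    have h3 : ((Fintype.card I : ℝ)) ^ 2 * (3 ^ m * w) = ∑ _p : I × I, (3 ^ m * w) := by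
      rw [sum_const, nsmul_eq_mul, card_univ, Fintype.card_prod]
      push_cast
      ring
    rw [h3]
    refine (sum_le_sum (g := fun _ => 3 ^ m * w) fun p hp => ?_).trans
      (sum_le_sum_of_subset_of_nonneg (filter_subset _ _) fun p _ _ => by positivity)
    rw [mem_filter] at hp
    exact char_count hC1 hC X (zz X) Z S₀ hZ hS₀ (E p.1 p.2) 0 0 m (hEsub _ _) (by norm_num)
      (by norm_num) (Or.inl (hEne _ _ hp.2)) _ (fun S hS => by
      rw [mem_filter] at hS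
      exact ⟨⟨(hG S hS.1).1, (hG S hS.1).2.2⟩, hS.2⟩)
  have hPc : (P.card : ℝ) ≤ 4 * 2 ^ Z.card * 2 ^ S₀.card := by
    have h1 : P.card ≤ 2 ^ (S₀ ∪ Z).card * (2 * 2) := by
      refine (card_filter_le _ _).trans (le_of_eq ?_)
      rw [card_product, card_product, card_powerset, card_range]
    have h2 : 2 ^ (S₀ ∪ Z).card ≤ 2 ^ (S₀.card + Z.card) :=
      Nat.pow_le_pow_right (by norm_num) (card_union_le _ _)
    have h3 : P.card ≤ 2 ^ (S₀.card + Z.card) * (2 * 2) := h1.trans (Nat.mul_le_mul_right _ h2)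
    have h' : (P.card : ℝ) ≤ ((2 ^ (S₀.card + Z.card) * (2 * 2) : ℕ) : ℝ) := by exact_mod_cast h3
    refine h'.trans (le_of_eq ?_)
    push_cast
    ring
  have hmc : (3 : ℝ) ^ m ≤ 3 ^ (K * Z.card + V) * (3 ^ K) ^ S₀.card := by
    have h1 : m ≤ K * Z.card + V + K * S₀.card := by
      have := Nat.mul_le_mul_left K (card_union_le S₀ Z)
      rw [hm]
      linarith
    calc (3 : ℝ) ^ m ≤ 3 ^ (K * Z.card + V + K * S₀.card) :=
          pow_le_pow_right₀ (by norm_num) h1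
      _ = _ := by rw [pow_add, pow_mul]
  have hcard : (G.card : ℝ) ≤ G1.card + (G2.card + G3.card) := by
    exact_mod_cast (card_le_card hsub).trans
      ((card_union_le _ _).trans (Nat.add_le_add_left (card_union_le _ _) _))
  have ha1 : (2 : ℝ) ^ S₀.card ≤ (2 * 3 ^ K) ^ S₀.card :=
    pow_le_pow_left₀ (by norm_num) (by
      have : (1 : ℝ) ≤ 3 ^ K := one_le_pow₀ (by norm_num)
      linarith) _
  have ha2 : ((3 : ℝ) ^ K) ^ S₀.card ≤ (2 * 3 ^ K) ^ S₀.card :=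
    pow_le_pow_left₀ (by positivity) (by
      have : (1 : ℝ) ≤ 3 ^ K := one_le_pow₀ (by norm_num)
      linarith) _
  have hb1 : (P.card : ℝ) * w ≤ 4 * 2 ^ Z.card * (2 * 3 ^ K) ^ S₀.card * w := by
    refine mul_le_mul_of_nonneg_right (hPc.trans ?_) hw0
    exact mul_le_mul_of_nonneg_left ha1 (by positivity)
  have hb2 : ((Fintype.card I : ℝ)) ^ 2 * (3 ^ m * w) ≤
      (Fintype.card I) ^ 2 * (3 ^ (K * Z.card + V) * (2 * 3 ^ K) ^ S₀.card * w) := by
    refine mul_le_mul_of_nonneg_left (mul_le_mul_of_nonneg_right (hmc.trans ?_) hw0) (by positivity)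
    exact mul_le_mul_of_nonneg_left ha2 (by positivity)
  calc (G.card : ℝ) ≤ 4 * 2 ^ Z.card * (2 * 3 ^ K) ^ S₀.card * w +
        ((Fintype.card I) ^ 2 * (3 ^ (K * Z.card + V) * (2 * 3 ^ K) ^ S₀.card * w) +
        (Fintype.card I) ^ 2 * (3 ^ (K * Z.card + V) * (2 * 3 ^ K) ^ S₀.card * w)) := by
        linarith
    _ = _ := by
        rw [hw]
        ring

theorem t_FBJ : RecP → S_HALL → S_MERT → S_FBJ := by
  rintro hR ⟨C, hC1, hC⟩ hM I _ F hF K V ε hε
  have hlg := one_le_lgn (pN (ZZ F))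
  obtain ⟨X₀, hX₀⟩ := gen hM (2 * 3 ^ K)
    ((4 * 2 ^ (ZZ F).card + 2 * (Fintype.card I) ^ 2 * 3 ^ (K * (ZZ F).card + V)) *
          (2 * C * lgn (pN (ZZ F)))) (by positivity) (by positivity)
    (fun X S => (∀ u ∈ ZZ F, nrm u ≤ zz X) ∧ ¬ NdJ F K V (sm (zz X) S) (la (zz X) S))
    (fun X S₀ hS₀ _ G hG => fb_count hR hC1 hC F hF K V X S₀ hS₀ G hG) ε hε
  -- the norms of the fixed primes
  set M := (ZZ F).sup nrm with hMdef
  have hev := eL_tendsto.eventually (eventually_ge_atTop (max (M : ℝ) 1))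
  obtain ⟨X₁, hX₁⟩ := eventually_atTop.1 hev
  refine ⟨max X₀ X₁, fun X hX => ?_⟩
  have hz : ∀ u ∈ ZZ F, nrm u ≤ zz X := by
    intro u hu
    refine (le_sup (f := nrm) hu).trans ?_
    have h1 := hX₁ X ((le_max_right _ _).trans hX)
    have h2 : (M : ℝ) ≤ eL X := (le_max_left _ _).trans h1
    have h3 : (1 : ℝ) ≤ eL X := (le_max_right _ _).trans h1
    unfold zz
    refine Nat.le_floor ?_
    have h4 := Real.add_one_le_exp ((eL X) ^ 3)
    have h5 : eL X ≤ (eL X) ^ 3 := by nlinarith [sq_nonneg (eL X - 1)]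
    linarith
  refine hX₀ X ((le_max_left _ _).trans hX) _ fun S hS => ?_
  rw [mem_filter] at hS
  unfold SSJ at hS
  rw [mem_filter] at hS
  exact ⟨hS.1.1, hS.2.1, hz, hS.2.2⟩

end Pool.Agent.R426.QJ.FB
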