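import Pool.Agent.R426.QK.Stm

/-!
# Project QJ (helper426): joint proportions over `ℚ(√-7)`

Let `F i` (`i ∈ I`) be a finite number of different sets of primary primes of `RR = ℤ[(1 + √-7) / 2]`
of the class `Cl` of project QK. For the sets `S` of the class that are disjoint from all the `F i`, the
proportion of those for which all the sets `S ∪ F i` are good tends to `c2 ^ #I`. Statements of the parts,
after `Pool/Agent/R426/QK/Stm.lean`.
-/

set_option autoImplicit false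
set_option linter.unusedVariables false

open scoped Classical

namespace Pool.Agent.R426.QJ

open Finset
open Pool.Agent.Y698
open Pool.Agent.Y698.SG hiding PD
open Pool.Agent.R426.QK
open Pool.Agent.Y703.CX (jj XX eL zz kk)

/-- the fixed sets -/
structure Fx (I : Type) (F : I → Finset RR) : Prop where
  cl : ∀ i, Cl (F i)
  inj : Function.Injective F

/-- the union of the fixed sets -/
noncomputable def ZZ {I : Type} [Fintype I] (F : I → Finset RR) : Finset RR := univ.biUnion F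

/-- the good sets -/
def GdJ {I : Type} (F : I → Finset RR) (S : Finset RR) : Prop := ∀ i, Gd (S ∪ F i)

/-- the sets of the class with norm at most `X`, disjoint from `Z` -/
noncomputable def SSJ (Z : Finset RR) (X : ℕ) : Finset (Finset RR) :=
  (SS X).filter fun S => Disjoint S Z

/-- FINAL: the proportion of the good sets -/
def S_DQJ : Prop := ∀ (I : Type) [Fintype I] (F : I → Finset RR), Fx I F → Filter.Tendsto
  (fun X : ℕ => (((SSJ (ZZ F) X).filter (GdJ F)).card : ℝ) / ((SSJ (ZZ F) X).card : ℝ))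
  Filter.atTop (nhds (c2 ^ Fintype.card I))

/-- QJ-LOW: the class has positive density. -/
def S_LOWJ : Prop := ∀ Z : Finset RR, (∀ u ∈ Z, Pq u) → ∃ (c : ℝ) (X₀ : ℕ), 0 < c ∧
  ∀ X : ℕ, X₀ ≤ X → c * X ≤ ((SSJ Z X).card : ℝ)

section blocks

variable {U J : Type} [Fintype U] [Fintype J]

/-- the block system for the subset `W` of the small primes has no solution but zero; the notation is
that of `GdA` in `QK/Stm.lean` -/
def GdB (W : Finset U) (sU tU : U → ZMod 2) (sJ tJ : J → ZMod 2)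
    (A : U → U → ZMod 2) (B : U → J → ZMod 2) (R : J → J → ZMod 2) : Prop :=
  ∀ (c : U → ZMod 2) (d : J → ZMod 2), (∀ u, u ∉ W → c u = 0) →
    (∀ u ∈ W, sU u * c u + ∑ v ∈ W, A u v * (c u + c v) + ∑ l, B u l * (c u + d l) = 0) →
    (∀ k, sJ k * d k + ∑ u ∈ W, (B u k + tU u * tJ k) * (d k + c u) + ∑ l, R k l * (d k + d l) = 0) →
    (∀ u, c u = 0) ∧ ∀ l, d l = 0

/-- the sum of the labels of a large prime -/
def La (tU : U → ZMod 2) (tJ : J → ZMod 2) (B : U → J → ZMod 2) (W : Finset U) (k : J) : ZMod 2 :=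
  ∑ u ∈ W, (B u k + tU u * tJ k)

/-- the hypotheses on the blocks -/
structure Hyp {I : Type} (K V : ℕ) (W : I → Finset U) (sU tU : U → ZMod 2) (sJ tJ : J → ZMod 2)
    (A : U → U → ZMod 2) (B : U → J → ZMod 2) : Prop where
  many : ∀ i j : I, K * Fintype.card U + V ≤
    (univ.filter fun k => La tU tJ B (W i) k + La tU tJ B (W j) k + tJ k = 1).card
  diff : ∀ i j : I, i ≠ j → K * Fintype.card U + V ≤
    (univ.filter fun k => La tU tJ B (W i) k + La tU tJ B (W j) k = 1).card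
  par : ∀ i, ∑ u ∈ W i, tU u + ∑ j, tJ j = 0
  recip : ∀ u v, u ≠ v → A u v + A v u = tU u * tU v
  nd : ∀ (w : U → ZMod 2) (e : ZMod 2), ((∃ u, w u ≠ 0) ∨ e ≠ 0) →
    (∃ k, e * sJ k + ∑ u, w u * (B u k + tU u * tJ k) ≠ 0) ∧
    ∃ k, e * (sJ k + tJ k) + ∑ u, w u * B u k ≠ 0

end blocks

/-- the probability that a random completion is good for all the systems is close to `c2 ^ #I` -/
def LAEJ (I : Type) [Fintype I] (ε : ℝ) (K V : ℕ) : Prop :=
  ∀ (U J : Type) [Fintype U] [Fintype J] [LinearOrder J] (W : I → Finset U)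
  (sU tU : U → ZMod 2) (sJ tJ : J → ZMod 2) (A : U → U → ZMod 2) (B : U → J → ZMod 2),
  Hyp K V W sU tU sJ tJ A B →
  |((univ.filter fun α : prs J → ZMod 2 => ∀ i, GdB (W i) sU tU sJ tJ A B (ext tJ α)).card : ℝ) /
      2 ^ (prs J).card - c2 ^ Fintype.card I| ≤ ε

/-- QJ-LA -/
def S_LAJ : Prop := ∀ (I : Type) [Fintype I] (ε : ℝ), 0 < ε → ∃ K V : ℕ, LAEJ I ε K V

/-- QJ-MOM: the probability that all of some random numbers are zero, from the joint moments. -/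
def S_MOMJ : Prop := ∀ (I : Type) [Fintype I] (ε : ℝ), 0 < ε → ∃ (M : ℕ) (δ : ℝ), 0 < δ ∧
  ∀ (Ω : Type) [Fintype Ω] [Nonempty Ω] (r : Ω → I → ℕ),
  (∀ m : I → ℕ, (∀ i, m i ≤ M) →
    |(∑ ω, ∏ i, ∏ a ∈ range (m i), ((2 : ℝ) ^ r ω i - 2 ^ a)) / Fintype.card Ω - 1| ≤ δ) →
  |((univ.filter fun ω => ∀ i, r ω i = 0).card : ℝ) / Fintype.card Ω - c2 ^ Fintype.card I| ≤ ε

/-- the vectors `d a` are independent modulo the constant vectors -/
def IndA {A J : Type} [Fintype A] (d : A → J → ZMod 2) : Prop :=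
  ∀ w : A → ZMod 2, (∃ a, w a ≠ 0) → ∃ k l, ∑ a, w a * (d a k + d a l) ≠ 0

/-- QJ-LA1: the number of the symmetric completions that satisfy given linear equations. -/
def S_LA1J : Prop := ∀ (J T : Type) [Fintype J] [LinearOrder J] [Fintype T] (tJ : J → ZMod 2)
  (f d : T → J → ZMod 2), IndA d →
  (univ.filter fun α : prs J → ZMod 2 =>
      ∀ a k, f a k + ∑ l, ext tJ α k l * (d a k + d a l) = 0).card *
      2 ^ (Fintype.card T * (Fintype.card J - 1)) =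
    if (∀ a, ∑ k, f a k + ∑ e ∈ prs J, tJ e.1 * tJ e.2 * (d a e.1 + d a e.2) = 0) ∧
        (∀ a b, a ≠ b → ∑ k, (f a k * d b k + f b k * d a k) +
          ∑ k, ∑ l, (if k = l then 0 else tJ k * tJ l * (d a k * d b l)) = 0)
      then 2 ^ ((prs J).card + (Fintype.card T).choose 2) else 0

section tuples

variable {U J : Type} [Fintype U] [Fintype J] [LinearOrder J]

/-- the constant part of the row of a large prime, at the vector `(c, d)` -/
def fJ (W : Finset U) (tU : U → ZMod 2) (sJ tJ : J → ZMod 2) (B : U → J → ZMod 2)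
    (x : (U → ZMod 2) × (J → ZMod 2)) (k : J) : ZMod 2 :=
  sJ k * x.2 k + ∑ u ∈ W, (B u k + tU u * tJ k) * (x.2 k + x.1 u)

/-- the vectors that can lie in the kernel of the system of `W` -/
def UR (W : Finset U) (sU tU : U → ZMod 2) (sJ tJ : J → ZMod 2) (A : U → U → ZMod 2)
    (B : U → J → ZMod 2) (x : (U → ZMod 2) × (J → ZMod 2)) : Prop :=
  (∀ u, u ∉ W → x.1 u = 0) ∧
  (∀ u ∈ W, sU u * x.1 u + ∑ v ∈ W, A u v * (x.1 u + x.1 v) + ∑ l, B u l * (x.1 u + x.2 l) = 0) ∧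
  ∑ k, fJ W tU sJ tJ B x k + ∑ e ∈ prs J, tJ e.1 * tJ e.2 * (x.2 e.1 + x.2 e.2) = 0

/-- the condition on two vectors -/
def bj (W W' : Finset U) (tU : U → ZMod 2) (sJ tJ : J → ZMod 2) (B : U → J → ZMod 2)
    (x x' : (U → ZMod 2) × (J → ZMod 2)) : ZMod 2 :=
  ∑ k, (fJ W tU sJ tJ B x k * x'.2 k + fJ W' tU sJ tJ B x' k * x.2 k) +
    ∑ k, ∑ l, (if k = l then 0 else tJ k * tJ l * (x.2 k * x'.2 l))

end tuples

/-- QJ-LA2: the number of the tuples that can lie in the kernels. -/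
def S_LA2J : Prop := ∀ (I : Type) [Fintype I] (m : I → ℕ) (δ : ℝ), 0 < δ → ∃ K V : ℕ,
  ∀ (U J : Type) [Fintype U] [Fintype J] [LinearOrder J] (W : I → Finset U)
  (sU tU : U → ZMod 2) (sJ tJ : J → ZMod 2) (A : U → U → ZMod 2) (B : U → J → ZMod 2),
  Hyp K V W sU tU sJ tJ A B →
  |((univ.filter fun x : (Σ i, Fin (m i)) → (U → ZMod 2) × (J → ZMod 2) =>
      IndA (fun a => (x a).2) ∧ (∀ a, UR (W a.1) sU tU sJ tJ A B (x a)) ∧
      ∀ a b, a ≠ b → bj (W a.1) (W b.1) tU sJ tJ B (x a) (x b) = 0).card : ℝ) *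
      2 ^ (∑ i, m i).choose 2 / 2 ^ ((∑ i, m i) * (Fintype.card J - 1)) - 1| ≤ δ

/-- QJ-LA3: the tuples of vectors in the kernels that are independent modulo the constants in each of the
systems but not jointly are rare. -/
def S_LA3J : Prop := S_LA1J → ∀ (I : Type) [Fintype I] (m : I → ℕ) (δ : ℝ), 0 < δ → ∃ K V : ℕ,
  ∀ (U J : Type) [Fintype U] [Fintype J] [LinearOrder J] (W : I → Finset U)
  (sU tU : U → ZMod 2) (sJ tJ : J → ZMod 2) (A : U → U → ZMod 2) (B : U → J → ZMod 2),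
  Hyp K V W sU tU sJ tJ A B →
  ((univ.filter fun y : (prs J → ZMod 2) × ((Σ i, Fin (m i)) → (U → ZMod 2) × (J → ZMod 2)) =>
      (∀ i, IndA (fun a : Fin (m i) => (y.2 ⟨i, a⟩).2)) ∧ ¬ IndA (fun a => (y.2 a).2) ∧
      (∀ a, UR (W a.1) sU tU sJ tJ A B (y.2 a)) ∧
      ∀ a k, fJ (W a.1) tU sJ tJ B (y.2 a) k +
        ∑ l, ext tJ y.1 k l * ((y.2 a).2 k + (y.2 a).2 l) = 0).card : ℝ) ≤ δ * 2 ^ (prs J).card

/-- QJ-LA4: the assembly -/
def S_LA4J : Prop := S_MOMJ → S_LA1J → S_LA2J → S_LA3J → S_LAJ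

/-- the labels of the large primes with respect to the small ones are not degenerate -/
def NdJ {I : Type} [Fintype I] (F : I → Finset RR) (K V : ℕ) (S₀ S₁ : Finset RR) : Prop :=
  Nd (S₀ ∪ ZZ F) S₁ ∧
  (∀ i j : I, K * (S₀ ∪ ZZ F).card + V ≤
    (S₁.filter fun π => ∑ u ∈ F i, cs u π + ∑ u ∈ F j, cs u π + tt π = 1).card) ∧
  ∀ i j : I, i ≠ j → K * (S₀ ∪ ZZ F).card + V ≤
    (S₁.filter fun π => ∑ u ∈ F i, cs u π + ∑ u ∈ F j, cs u π = 1).card

/-- QJ-BOX: the count in a box. -/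
def S_BOXJ : Prop := RecP → S_EQ → ∀ (I : Type) [Fintype I] (F : I → Finset RR), Fx I F →
  ∀ (ε : ℝ) (K V : ℕ), LAEJ I ε K V → ∀ (ι : Type) [Fintype ι] [LinearOrder ι]
  (C : ι → Finset RR) (X : ι → ℕ) (κ : ℝ) (S₀ : Finset RR), 0 ≤ κ → (∀ i, (C i).card ≤ X i) →
  HB C X κ → (∀ u ∈ S₀, Pq u) → Disjoint S₀ (ZZ F) → (∀ i, ∀ π ∈ C i, Pq π ∧ π ∉ S₀ ∪ ZZ F) →
  (∀ i l, i ≠ l → Disjoint (C i) (C l)) →
  (∀ p ∈ Fintype.piFinset C, ∑ u ∈ S₀, tt u + ∑ i, tt (p i) = 0) →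
  |(((Fintype.piFinset C).filter fun p => NdJ F K V S₀ (univ.image p) ∧
        GdJ F (S₀ ∪ univ.image p)).card : ℝ) -
      c2 ^ Fintype.card I *
        (((Fintype.piFinset C).filter fun p => NdJ F K V S₀ (univ.image p)).card : ℝ)| ≤
    ε * (((Fintype.piFinset C).filter fun p => NdJ F K V S₀ (univ.image p)).card : ℝ) +
    2 ^ (((S₀ ∪ ZZ F).card + 2) * Fintype.card ι + (prs ι).card) * (κ * ∏ j, (X j : ℝ))

/-- the regular sets -/
noncomputable def RgJ (Z : Finset RR) (X z H k : ℕ) : Finset (Finset RR) :=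
  (SSJ Z X).filter fun S => Set.InjOn (bl H) (la z S : Set RR) ∧ S.card ≤ k ∧
    (∏ π ∈ sm z S, nrm π) * ∏ π ∈ la z S, XX H (bl H π) ≤ X

/-- QJ-KEY: the sum over the boxes. -/
def S_KEYJ : Prop := RecP → S_BIL → S_EQ → S_BOXJ → ∃ C : ℝ, 1 ≤ C ∧
  ∀ (I : Type) [Fintype I] (F : I → Finset RR), Fx I F →
  ∀ (ε : ℝ) (K V : ℕ), 0 < ε → LAEJ I ε K V →
  ∀ (X z H k N : ℕ) (κ : ℝ), 1 ≤ X → 1 ≤ H → 1 ≤ z → 0 ≤ κ → C ≤ κ ^ 24 * z →
  (H : ℝ) * Real.log X < N → (∀ u ∈ ZZ F, nrm u ≤ z) → (ZZ F).card ≤ k →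
  |(((RgJ (ZZ F) X z H k).filter fun S => NdJ F K V (sm z S) (la z S) ∧ GdJ F S).card : ℝ) -
      c2 ^ Fintype.card I *
        (((RgJ (ZZ F) X z H k).filter fun S => NdJ F K V (sm z S) (la z S)).card : ℝ)| ≤
    ε * ((RgJ (ZZ F) X z H k).card : ℝ) +
    (9 * N + 9 : ℝ) ^ k * (3 ^ (9 * k ^ 2 + 9) * κ) * (X * (1 + Real.log X))

/-- QJ-FB: few sets have degenerate labels. -/
def S_FBJ : Prop := ∀ (I : Type) [Fintype I] (F : I → Finset RR), Fx I F →
  ∀ (K V : ℕ) (ε : ℝ), 0 < ε → ∃ X₀ : ℕ, ∀ X : ℕ, X₀ ≤ X →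
  (((SSJ (ZZ F) X).filter fun S => S.card ≤ kk X ∧
    ¬ NdJ F K V (sm (zz X) S) (la (zz X) S)).card : ℝ) ≤ ε * X

end Pool.Agent.R426.QJ
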