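import Pool.Agent.R426.QJ.Stm
import Pool.Agent.R426.QK.LA2

/-!
# QJ-LA2: the number of the tuples that can lie in the kernels
-/

set_option autoImplicit false
set_option linter.unusedVariables false
set_option linter.unusedSectionVars false

open scoped Classical

namespace Pool.Agent.R426.QJ.LA2

open Finset Pool.Agent.R426.QK Pool.Agent.R426.QJ Pool.Agent.R426.QK.LA0
open Pool.Agent.R426.QK.LA1 (gg gg_symm gg_self gg_pos)
open Pool.Agent.R426.QK.LA2 (eq_one ch_one sum_ch_add card_ker dual_ker)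

section generic

variable {E : Type} [AddCommGroup E] [Module (ZMod 2) E] [Fintype E] {M : ℕ}

/-- the exponent -/
noncomputable def EE (bl : Fin M → Fin M → E →ₗ[ZMod 2] E →ₗ[ZMod 2] ZMod 2)
    (h : prs (Fin M) → ZMod 2) (x : Fin M → E) : ZMod 2 :=
  ∑ e : prs (Fin M), h e * bl e.1.1 e.1.2 (x e.1.1) (x e.1.2)

theorem EE_eq (bl : Fin M → Fin M → E →ₗ[ZMod 2] E →ₗ[ZMod 2] ZMod 2)
    (h : prs (Fin M) → ZMod 2) (x : Fin M → E) :
    EE bl h x = ∑ i, ∑ j, aa h (i, j) * bl i j (x i) (x j) := by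
  unfold EE
  rw [sum_aa h fun e => bl e.1 e.2 (x e.1) (x e.2), sum_pairs]
  have h1 : ∑ k, aa h (k, k) * bl k k (x k) (x k) = 0 :=
    Finset.sum_eq_zero fun k _ => by rw [aa_neg h (e := (k, k)) (lt_irrefl _), zero_mul]
  rw [h1, add_zero]
  refine Finset.sum_congr rfl fun e he => ?_
  have h2 : e.1 < e.2 := mem_prs.1 he
  rw [aa_neg h (e := (e.2, e.1)) (not_lt.2 h2.le), zero_mul, add_zero]

theorem EE_add (bl : Fin M → Fin M → E →ₗ[ZMod 2] E →ₗ[ZMod 2] ZMod 2)
    (hb : ∀ i j v w, bl i j v w = bl j i w v)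
    (h : prs (Fin M) → ZMod 2) (x : Fin M → E) (i0 : Fin M) (v : E) :
    EE bl h (x + Pi.single i0 v) = EE bl h x + ∑ j, gg h i0 j * bl i0 j v (x j) := by
  rw [EE_eq, EE_eq]
  have h1 : ∀ i j, aa h (i, j) * bl i j ((x + Pi.single i0 v : Fin M → E) i)
      ((x + Pi.single i0 v : Fin M → E) j) =
      aa h (i, j) * bl i j (x i) (x j) +
        aa h (i, j) * bl i j (x i) ((Pi.single i0 v : Fin M → E) j) +
        (aa h (i, j) * bl i j ((Pi.single i0 v : Fin M → E) i) (x j) +
          aa h (i, j) * bl i j ((Pi.single i0 v : Fin M → E) i)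
            ((Pi.single i0 v : Fin M → E) j)) := by
    intro i j
    simp only [Pi.add_apply, map_add, LinearMap.add_apply]
    ring
  simp only [h1, Finset.sum_add_distrib]
  have h2 : ∑ i, ∑ j, aa h (i, j) * bl i j (x i) ((Pi.single i0 v : Fin M → E) j) =
      ∑ i, aa h (i, i0) * bl i0 i v (x i) := by
    refine Finset.sum_congr rfl fun i _ => ?_
    rw [Finset.sum_eq_single i0 (fun j _ hj => by rw [Pi.single_eq_of_ne hj, map_zero, mul_zero])
      (fun hh => absurd (Finset.mem_univ _) hh), Pi.single_eq_same, hb]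
  have h3 : ∑ i, ∑ j, aa h (i, j) * bl i j ((Pi.single i0 v : Fin M → E) i) (x j) =
      ∑ j, aa h (i0, j) * bl i0 j v (x j) := by
    rw [Finset.sum_eq_single i0 (fun i _ hi => Finset.sum_eq_zero fun j _ => by
      rw [Pi.single_eq_of_ne hi, map_zero, LinearMap.zero_apply, mul_zero])
      (fun hh => absurd (Finset.mem_univ _) hh), Pi.single_eq_same]
  have h4 : ∑ i, ∑ j, aa h (i, j) *
      bl i j ((Pi.single i0 v : Fin M → E) i) ((Pi.single i0 v : Fin M → E) j) = 0 := by
    refine Finset.sum_eq_zero fun i _ => Finset.sum_eq_zero fun j _ => ?_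
    by_cases hi : i = i0
    · by_cases hj : j = i0
      · subst hi
        subst hj
        rw [aa_neg h (e := (j, j)) (lt_irrefl _), zero_mul]
      · rw [Pi.single_eq_of_ne hj, map_zero, mul_zero]
    · rw [Pi.single_eq_of_ne hi, map_zero, LinearMap.zero_apply, mul_zero]
  rw [h2, h3, h4, add_zero, add_assoc]
  congr 1
  rw [← Finset.sum_add_distrib]
  refine Finset.sum_congr rfl fun j _ => ?_
  unfold gg
  ring

/-- the tuples of elements of given subspaces -/
noncomputable def PP (V : Fin M → Submodule (ZMod 2) E) : Finset (Fin M → E) :=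
  univ.filter fun x : Fin M → E => ∀ a, x a ∈ V a

theorem mem_PP {V : Fin M → Submodule (ZMod 2) E} {x : Fin M → E} :
    x ∈ PP V ↔ ∀ a, x a ∈ V a := by
  unfold PP
  rw [Finset.mem_filter]
  exact ⟨fun h => h.2, fun h => ⟨Finset.mem_univ _, h⟩⟩

theorem card_PP (V : Fin M → Submodule (ZMod 2) E) (Q : ℕ)
    (hQ : ∀ a, Fintype.card (V a) = Q) : (PP V).card = Q ^ M := by
  have h1 : PP V = Fintype.piFinset fun a => univ.filter fun x : E => x ∈ V a := by
    ext x
    rw [mem_PP, Fintype.mem_piFinset]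
    refine forall_congr' fun a => ?_
    rw [Finset.mem_filter]
    exact ⟨fun h => ⟨Finset.mem_univ _, h⟩, fun h => h.2⟩
  rw [h1, Fintype.card_piFinset]
  have h2 : ∀ a, (univ.filter fun x : E => x ∈ V a).card = Q := by
    intro a
    rw [← hQ a, ← Fintype.card_subtype]
  rw [Finset.prod_congr rfl fun a _ => h2 a, Finset.prod_const, Finset.card_univ,
    Fintype.card_fin]

theorem mem_tr (V : Fin M → Submodule (ZMod 2) E) (j0 : Fin M) (v : E) (hv : v ∈ V j0)
    (x : Fin M → E) : x + Pi.single j0 v ∈ PP V ↔ x ∈ PP V := by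
  rw [mem_PP, mem_PP]
  refine forall_congr' fun a => ?_
  by_cases ha : a = j0
  · subst ha
    rw [Pi.add_apply, Pi.single_eq_same]
    exact (V a).add_mem_iff_left hv
  · rw [Pi.add_apply, Pi.single_eq_of_ne ha, add_zero]

/-- translations -/
theorem sum_tr {R : Type} [AddCommMonoid R] (V : Fin M → Submodule (ZMod 2) E) (j0 : Fin M)
    (v : E) (hv : v ∈ V j0) (F : (Fin M → E) → R) :
    ∑ x ∈ PP V, F (x + Pi.single j0 v) = ∑ x ∈ PP V, F x := by
  refine Finset.sum_nbij' (fun x => x + Pi.single j0 v) (fun x => x - Pi.single j0 v)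
    ?_ ?_ ?_ ?_ ?_
  · intro x hx
    exact (mem_tr V j0 v hv x).2 hx
  · intro x hx
    rw [← mem_tr V j0 v hv, sub_add_cancel]
    exact hx
  · intro x _
    exact add_sub_cancel_right _ _
  · intro x _
    exact sub_add_cancel _ _
  · intro x _
    rfl

theorem card_fib (V : Fin M → Submodule (ZMod 2) E) (j0 : Fin M) (Z : (Fin M → E) → Prop)
    (C : ℕ) (hC : ∀ x ∈ PP V,
      (univ.filter fun v : V j0 => Z (x + Pi.single j0 v.1)).card ≤ C) :
    ((PP V).filter Z).card * Fintype.card (V j0) ≤ C * (PP V).card := by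
  have h1 : ∀ v : V j0, ((PP V).filter Z).card =
      ∑ x ∈ PP V, if Z (x + Pi.single j0 v.1) then 1 else 0 := by
    intro v
    rw [Finset.card_filter]
    exact (sum_tr V j0 v.1 v.2 fun x => if Z x then 1 else 0).symm
  calc ((PP V).filter Z).card * Fintype.card (V j0)
      = ∑ v : V j0, ∑ x ∈ PP V, (if Z (x + Pi.single j0 v.1) then 1 else 0 : ℕ) := by
        rw [← Finset.sum_congr rfl fun v _ => h1 v, Finset.sum_const, Finset.card_univ,
          smul_eq_mul, mul_comm]
    _ = ∑ x ∈ PP V, (univ.filter fun v : V j0 => Z (x + Pi.single j0 v.1)).card := by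
        rw [Finset.sum_comm]
        exact Finset.sum_congr rfl fun x _ => (Finset.card_filter _ _).symm
    _ ≤ ∑ x ∈ PP V, C := Finset.sum_le_sum hC
    _ = C * (PP V).card := by rw [Finset.sum_const, smul_eq_mul, mul_comm]

/-- the radical -/
noncomputable def Rd (V W : Submodule (ZMod 2) E) (b : E →ₗ[ZMod 2] E →ₗ[ZMod 2] ZMod 2) :
    Finset W := univ.filter fun w : W => ∀ v ∈ V, b v w.1 = 0

theorem mem_Rd {V W : Submodule (ZMod 2) E} {b : E →ₗ[ZMod 2] E →ₗ[ZMod 2] ZMod 2} {w : W} :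
    w ∈ Rd V W b ↔ ∀ v ∈ V, b v w.1 = 0 := by
  unfold Rd
  rw [Finset.mem_filter]
  exact ⟨fun h => h.2, fun h => ⟨Finset.mem_univ _, h⟩⟩

theorem sum_EE (V : Fin M → Submodule (ZMod 2) E)
    (bl : Fin M → Fin M → E →ₗ[ZMod 2] E →ₗ[ZMod 2] ZMod 2)
    (hb : ∀ i j v w, bl i j v w = bl j i w v) (Q R : ℕ) (hQ : ∀ a, Fintype.card (V a) = Q)
    (hQ0 : 0 < Q) (hR : ∀ i j, (Rd (V i) (V j) (bl i j)).card ≤ R)
    (h : prs (Fin M) → ZMod 2) (hh : h ≠ 0) :
    |∑ x ∈ PP V, ch (EE bl h x)| * (Q : ℤ) ≤ R * ((PP V).card : ℤ) := by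
  obtain ⟨e0, he0⟩ : ∃ e, h e ≠ 0 := by
    by_contra hcon
    push Not at hcon
    exact hh (funext hcon)
  obtain ⟨i0, hi0⟩ : ∃ i0, i0 = e0.1.1 := ⟨_, rfl⟩
  obtain ⟨j0, hj0⟩ : ∃ j0, j0 = e0.1.2 := ⟨_, rfl⟩
  have hij : gg h i0 j0 = 1 := by
    rw [hi0, hj0, gg_pos, eq_one _ he0]
  obtain ⟨Z, hZd⟩ : ∃ Z : (Fin M → E) → Prop, Z = fun x =>
    ∀ v ∈ V i0, ∑ j, gg h i0 j * bl i0 j v (x j) = 0 := ⟨_, rfl⟩
  have h1 : (Q : ℤ) * ∑ x ∈ PP V, ch (EE bl h x) =
      (Q : ℤ) * ∑ x ∈ (PP V).filter Z, ch (EE bl h x) := by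
    have h2 : ∀ v : V i0, ∑ x ∈ PP V, ch (EE bl h x) =
        ∑ x ∈ PP V, ch (EE bl h x) * ch (∑ j, gg h i0 j * bl i0 j v.1 (x j)) := by
      intro v
      refine (sum_tr V i0 v.1 v.2 fun x => ch (EE bl h x)).symm.trans ?_
      refine Finset.sum_congr rfl fun x _ => ?_
      rw [EE_add bl hb, ch_add]
    have h3 : (Q : ℤ) * ∑ x ∈ PP V, ch (EE bl h x) =
        ∑ v : V i0, ∑ x ∈ PP V,
          ch (EE bl h x) * ch (∑ j, gg h i0 j * bl i0 j v.1 (x j)) := by
      rw [← Finset.sum_congr rfl fun v _ => h2 v, Finset.sum_const, Finset.card_univ, hQ,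
        nsmul_eq_mul]
    rw [h3, Finset.sum_comm, Finset.sum_filter, Finset.mul_sum]
    refine Finset.sum_congr rfl fun x _ => ?_
    have h5 := sum_ch_add (fun v : V i0 => ∑ j, gg h i0 j * bl i0 j v.1 (x j)) (fun v w => by
      rw [← Finset.sum_add_distrib]
      refine Finset.sum_congr rfl fun j _ => ?_
      rw [Submodule.coe_add, map_add, LinearMap.add_apply]
      ring)
    rw [← Finset.mul_sum, h5]
    have h4 : Z x ↔ ∀ v : V i0, ∑ j, gg h i0 j * bl i0 j v.1 (x j) = 0 := by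
      rw [hZd]
      exact ⟨fun h v => h v.1 v.2, fun h v hv => h ⟨v, hv⟩⟩
    by_cases h6 : Z x
    · rw [if_pos (h4.1 h6), if_pos h6, hQ, mul_comm]
    · rw [if_neg (fun h => h6 (h4.2 h)), if_neg h6, mul_zero, mul_zero]
  have hV : (Q : ℤ) ≠ 0 := by exact_mod_cast hQ0.ne'
  rw [mul_left_cancel₀ hV h1]
  have h3 : |∑ x ∈ (PP V).filter Z, ch (EE bl h x)| ≤ (((PP V).filter Z).card : ℤ) := by
    refine (Finset.abs_sum_le_sum_abs _ _).trans ?_
    rw [Finset.sum_congr rfl fun x _ => ch_abs _]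
    simp
  have h4 : ((PP V).filter Z).card * Fintype.card (V j0) ≤ R * (PP V).card := by
    refine card_fib V j0 Z R fun x hx => ?_
    by_cases hne : (univ.filter fun v : V j0 => Z (x + Pi.single j0 v.1)).Nonempty
    swap
    · rw [Finset.not_nonempty_iff_eq_empty.1 hne, Finset.card_empty]
      exact Nat.zero_le _
    obtain ⟨w0, hw0⟩ := hne
    refine le_trans ?_ (hR i0 j0)
    refine Finset.card_le_card_of_injOn (fun w => w - w0) ?_ ?_
    · intro w hw
      rw [Finset.mem_coe, mem_Rd]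
      rw [Finset.mem_coe, Finset.mem_filter, hZd] at hw
      rw [Finset.mem_filter, hZd] at hw0
      intro v hv
      have h5 := hw.2 v hv
      have h6 := hw0.2 v hv
      have h7 : ∀ w : E, ∑ j, gg h i0 j * bl i0 j v ((x + Pi.single j0 w : Fin M → E) j) =
          ∑ j, gg h i0 j * bl i0 j v (x j) + bl i0 j0 v w := by
        intro w
        simp only [Pi.add_apply, map_add, mul_add, Finset.sum_add_distrib]
        congr 1
        rw [Finset.sum_eq_single j0 (fun j _ hj => by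
          rw [Pi.single_eq_of_ne hj, map_zero, mul_zero])
          (fun hh => absurd (Finset.mem_univ _) hh), Pi.single_eq_same, hij, one_mul]
      rw [h7] at h5 h6
      rw [Submodule.coe_sub, map_sub]
      linear_combination h5 - h6
    · intro w _ w' _ hww
      exact sub_left_injective hww
  rw [hQ] at h4
  have h5 : (((PP V).filter Z).card : ℤ) * (Q : ℤ) ≤ R * ((PP V).card : ℤ) := by
    exact_mod_cast h4
  exact (mul_le_mul_of_nonneg_right h3 (Int.natCast_nonneg _)).trans h5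

/-- the number of the orthogonal tuples -/
theorem card_orth (V : Fin M → Submodule (ZMod 2) E)
    (bl : Fin M → Fin M → E →ₗ[ZMod 2] E →ₗ[ZMod 2] ZMod 2)
    (hb : ∀ i j v w, bl i j v w = bl j i w v) (Q R : ℕ) (hQ : ∀ a, Fintype.card (V a) = Q)
    (hQ0 : 0 < Q) (hR : ∀ i j, (Rd (V i) (V j) (bl i j)).card ≤ R) :
    |(((PP V).filter fun x : Fin M → E =>
        ∀ e : prs (Fin M), bl e.1.1 e.1.2 (x e.1.1) (x e.1.2) = 0).card : ℤ) *
        2 ^ M.choose 2 - ((PP V).card : ℤ)| * (Q : ℤ) ≤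
      2 ^ M.choose 2 * (R * ((PP V).card : ℤ)) := by
  have h1 : (((PP V).filter fun x : Fin M → E =>
      ∀ e : prs (Fin M), bl e.1.1 e.1.2 (x e.1.1) (x e.1.2) = 0).card : ℤ) * 2 ^ M.choose 2 =
      ∑ h : prs (Fin M) → ZMod 2, ∑ x ∈ PP V, ch (EE bl h x) := by
    rw [Finset.sum_comm, Finset.card_filter]
    push_cast
    rw [Finset.sum_mul]
    refine Finset.sum_congr rfl fun x _ => ?_
    unfold EE
    rw [sum_ch (fun e : prs (Fin M) => bl e.1.1 e.1.2 (x e.1.1) (x e.1.2)), Fintype.card_coe,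
      prs_card]
    split_ifs
    · rw [one_mul]
    · rw [zero_mul]
  have h2 : ∑ x ∈ PP V, ch (EE bl 0 x) = ((PP V).card : ℤ) := by
    have h3 : ∀ x : Fin M → E, ch (EE bl 0 x) = 1 := by
      intro x
      unfold EE
      simp only [Pi.zero_apply, zero_mul, Finset.sum_const_zero, ch_zero]
    rw [Finset.sum_congr rfl fun x _ => h3 x, Finset.sum_const, nsmul_eq_mul, mul_one]
  rw [h1, ← Finset.add_sum_erase univ _ (Finset.mem_univ (0 : prs (Fin M) → ZMod 2)), h2,
    add_sub_cancel_left]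
  have h3 : |∑ h ∈ univ.erase (0 : prs (Fin M) → ZMod 2), ∑ x ∈ PP V, ch (EE bl h x)| *
      (Q : ℤ) ≤ ∑ h ∈ univ.erase (0 : prs (Fin M) → ZMod 2), R * ((PP V).card : ℤ) := by
    refine (mul_le_mul_of_nonneg_right (Finset.abs_sum_le_sum_abs _ _)
      (Int.natCast_nonneg _)).trans ?_
    rw [Finset.sum_mul]
    exact Finset.sum_le_sum fun h hh =>
      sum_EE V bl hb Q R hQ hQ0 hR h (Finset.ne_of_mem_erase hh)
  refine h3.trans ?_
  rw [Finset.sum_const, nsmul_eq_mul]
  refine mul_le_mul_of_nonneg_right ?_ (by positivity)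
  have h4 : (univ.erase (0 : prs (Fin M) → ZMod 2)).card ≤ 2 ^ M.choose 2 := by
    refine (Finset.card_erase_le).trans ?_
    rw [Finset.card_univ, Fintype.card_fun, Fintype.card_coe, prs_card, ZMod.card]
  exact_mod_cast h4

/-- the orthogonal tuples that are independent modulo `K` -/
noncomputable def GG (V : Fin M → Submodule (ZMod 2) E)
    (bl : Fin M → Fin M → E →ₗ[ZMod 2] E →ₗ[ZMod 2] ZMod 2) (K : Finset E) :
    Finset (Fin M → E) :=
  (PP V).filter fun x : Fin M → E =>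
    (∀ e : prs (Fin M), bl e.1.1 e.1.2 (x e.1.1) (x e.1.2) = 0) ∧
    ∀ a : Fin M → ZMod 2, (∃ i, a i ≠ 0) → ∑ i, a i • x i ∉ K

theorem mem_GG {V : Fin M → Submodule (ZMod 2) E}
    {bl : Fin M → Fin M → E →ₗ[ZMod 2] E →ₗ[ZMod 2] ZMod 2} {K : Finset E}
    {x : Fin M → E} : x ∈ GG V bl K ↔ (∀ a, x a ∈ V a) ∧
    (∀ e : prs (Fin M), bl e.1.1 e.1.2 (x e.1.1) (x e.1.2) = 0) ∧
    ∀ a : Fin M → ZMod 2, (∃ i, a i ≠ 0) → ∑ i, a i • x i ∉ K := by
  unfold GG
  rw [Finset.mem_filter, mem_PP]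

/-- the number of the orthogonal tuples that are independent modulo `K` -/
theorem card_good (V : Fin M → Submodule (ZMod 2) E)
    (bl : Fin M → Fin M → E →ₗ[ZMod 2] E →ₗ[ZMod 2] ZMod 2)
    (hb : ∀ i j v w, bl i j v w = bl j i w v) (Q R : ℕ) (hQ : ∀ a, Fintype.card (V a) = Q)
    (hQ0 : 0 < Q) (hR : ∀ i j, (Rd (V i) (V j) (bl i j)).card ≤ R) (K : Finset E) :
    |((GG V bl K).card : ℤ) * 2 ^ M.choose 2 - (Q : ℤ) ^ M| * (Q : ℤ) ≤
      2 ^ M.choose 2 * ((Q : ℤ) ^ M * (R + 2 ^ M * K.card : ℤ)) := by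
  obtain ⟨O, hOd⟩ : ∃ O : Finset (Fin M → E), O = (PP V).filter fun x : Fin M → E =>
    ∀ e : prs (Fin M), bl e.1.1 e.1.2 (x e.1.1) (x e.1.2) = 0 := ⟨_, rfl⟩
  obtain ⟨G, hGd⟩ : ∃ G : Finset (Fin M → E), G = GG V bl K := ⟨_, rfl⟩
  have h0 := card_orth V bl hb Q R hQ hQ0 hR
  rw [← hOd, card_PP V Q hQ] at h0
  rw [← hGd]
  have hGO : G ⊆ O := by
    intro x hx
    rw [hGd, mem_GG] at hx
    rw [hOd, Finset.mem_filter, mem_PP]
    exact ⟨hx.1, hx.2.1⟩
  obtain ⟨Zf, hZf⟩ : ∃ Zf : (Fin M → ZMod 2) → (Fin M → E) → Prop,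
    ∀ a x, Zf a x ↔ ∑ i, a i • x i ∈ K := ⟨fun a x => ∑ i, a i • x i ∈ K, fun _ _ => Iff.rfl⟩
  have h1 : ((O.card : ℤ) - G.card) * (Q : ℤ) ≤ 2 ^ M * ((Q : ℤ) ^ M * K.card) := by
    have h2 : O.card - G.card ≤ ∑ a ∈ univ.erase (0 : Fin M → ZMod 2),
        ((PP V).filter (Zf a)).card := by
      rw [← Finset.card_sdiff_of_subset hGO]
      refine (Finset.card_le_card ?_).trans Finset.card_biUnion_le
      intro x hx
      rw [Finset.mem_sdiff, hOd, hGd, Finset.mem_filter, mem_GG, mem_PP] at hx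
      obtain ⟨hx1, hx2⟩ := hx
      rw [Finset.mem_biUnion]
      by_contra hcon
      push Not at hcon
      refine hx2 ⟨hx1.1, hx1.2, fun a ha hK => ?_⟩
      refine hcon a ?_ ?_
      · rw [Finset.mem_erase]
        refine ⟨fun h3 => ?_, Finset.mem_univ _⟩
        obtain ⟨i, hi⟩ := ha
        rw [h3] at hi
        exact hi rfl
      · rw [Finset.mem_filter, mem_PP, hZf]
        exact ⟨hx1.1, hK⟩
    have h3 : ∀ a ∈ univ.erase (0 : Fin M → ZMod 2),
        ((PP V).filter (Zf a)).card * Q ≤ K.card * Q ^ M := by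
      intro a ha
      obtain ⟨j0, hj0⟩ : ∃ j, a j ≠ 0 := by
        by_contra hcon
        push Not at hcon
        exact Finset.ne_of_mem_erase ha (funext hcon)
      have h4 := card_fib V j0 (Zf a) K.card fun x hx => by
        refine Finset.card_le_card_of_injOn (fun v => ∑ i, a i • x i + v.1) ?_ ?_
        · intro v hv
          rw [Finset.mem_coe, Finset.mem_filter, hZf] at hv
          have h5 : ∑ i, a i • (x + Pi.single j0 v.1 : Fin M → E) i =
              ∑ i, a i • x i + v.1 := by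
            simp only [Pi.add_apply, smul_add, Finset.sum_add_distrib]
            congr 1
            rw [Finset.sum_eq_single j0 (fun j _ hj => by
              rw [Pi.single_eq_of_ne hj, smul_zero])
              (fun hh => absurd (Finset.mem_univ _) hh), Pi.single_eq_same, eq_one _ hj0,
              one_smul]
          rw [h5] at hv
          exact Finset.mem_coe.2 hv.2
        · intro v _ v' _ hvv
          exact Subtype.ext (add_left_cancel hvv)
      rw [hQ, card_PP V Q hQ] at h4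
      exact h4
    have h4 : (O.card - G.card) * Q ≤ 2 ^ M * (Q ^ M * K.card) := by
      refine (Nat.mul_le_mul_right _ h2).trans ?_
      rw [Finset.sum_mul]
      refine (Finset.sum_le_sum h3).trans ?_
      rw [Finset.sum_const, smul_eq_mul, mul_comm K.card]
      refine Nat.mul_le_mul_right _ ?_
      refine (Finset.card_erase_le).trans ?_
      rw [Finset.card_univ, Fintype.card_fun, Fintype.card_fin, ZMod.card]
    have h5 : ((O.card - G.card : ℕ) : ℤ) = (O.card : ℤ) - G.card :=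
      Nat.cast_sub (Finset.card_le_card hGO)
    rw [← h5]
    exact_mod_cast h4
  have h2 : (0 : ℤ) ≤ (O.card : ℤ) - G.card :=
    sub_nonneg.2 (by exact_mod_cast Finset.card_le_card hGO)
  push_cast at h0
  have h3 : |(G.card : ℤ) * 2 ^ M.choose 2 - (Q : ℤ) ^ M| ≤
      |(O.card : ℤ) * 2 ^ M.choose 2 - (Q : ℤ) ^ M| +
        ((O.card : ℤ) - G.card) * 2 ^ M.choose 2 := by
    have h4 : (G.card : ℤ) * 2 ^ M.choose 2 - (Q : ℤ) ^ M =
        ((O.card : ℤ) * 2 ^ M.choose 2 - (Q : ℤ) ^ M) -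
          ((O.card : ℤ) - G.card) * 2 ^ M.choose 2 := by ring
    rw [h4]
    refine (abs_sub _ _).trans ?_
    rw [abs_of_nonneg (a := ((O.card : ℤ) - G.card) * 2 ^ M.choose 2) (by positivity)]
  refine (mul_le_mul_of_nonneg_right h3 (Int.natCast_nonneg _)).trans ?_
  have h5 : (0 : ℤ) ≤ 2 ^ M.choose 2 := by positivity
  have h6 := mul_le_mul_of_nonneg_left h1 h5
  calc (|(O.card : ℤ) * 2 ^ M.choose 2 - (Q : ℤ) ^ M| +
        ((O.card : ℤ) - G.card) * 2 ^ M.choose 2) * (Q : ℤ)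
      = |(O.card : ℤ) * 2 ^ M.choose 2 - (Q : ℤ) ^ M| * (Q : ℤ) +
        2 ^ M.choose 2 * (((O.card : ℤ) - G.card) * (Q : ℤ)) := by ring
    _ ≤ 2 ^ M.choose 2 * (R * (Q : ℤ) ^ M) +
        2 ^ M.choose 2 * (2 ^ M * ((Q : ℤ) ^ M * K.card)) := add_le_add h0 h6
    _ = _ := by ring

end generic

section blocks

variable {U J : Type} [Fintype U] [Fintype J] [LinearOrder J]
  (sU tU : U → ZMod 2) (sJ tJ : J → ZMod 2) (A : U → U → ZMod 2) (B : U → J → ZMod 2)

theorem fJ_add (W : Finset U) (x y : (U → ZMod 2) × (J → ZMod 2)) (k : J) :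
    fJ W tU sJ tJ B (x + y) k = fJ W tU sJ tJ B x k + fJ W tU sJ tJ B y k := by
  unfold fJ
  have h1 : ∑ u ∈ W, (B u k + tU u * tJ k) * ((x + y).2 k + (x + y).1 u) =
      ∑ u ∈ W, (B u k + tU u * tJ k) * (x.2 k + x.1 u) +
        ∑ u ∈ W, (B u k + tU u * tJ k) * (y.2 k + y.1 u) := by
    rw [← Finset.sum_add_distrib]
    refine Finset.sum_congr rfl fun u _ => ?_
    simp only [Prod.fst_add, Prod.snd_add, Pi.add_apply]
    ring
  rw [h1]
  simp only [Prod.snd_add, Pi.add_apply]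
  ring

theorem bj_add (W W' : Finset U) (x y z : (U → ZMod 2) × (J → ZMod 2)) :
    bj W W' tU sJ tJ B (x + y) z = bj W W' tU sJ tJ B x z + bj W W' tU sJ tJ B y z := by
  unfold bj
  have h1 : ∑ k, (fJ W tU sJ tJ B (x + y) k * z.2 k + fJ W' tU sJ tJ B z k * (x + y).2 k) =
      ∑ k, (fJ W tU sJ tJ B x k * z.2 k + fJ W' tU sJ tJ B z k * x.2 k) +
        ∑ k, (fJ W tU sJ tJ B y k * z.2 k + fJ W' tU sJ tJ B z k * y.2 k) := by
    rw [← Finset.sum_add_distrib]
    refine Finset.sum_congr rfl fun k _ => ?_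
    rw [fJ_add, Prod.snd_add, Pi.add_apply]
    ring
  have h2 : ∑ k, ∑ l, (if k = l then 0 else tJ k * tJ l * ((x + y).2 k * z.2 l)) =
      ∑ k, ∑ l, (if k = l then 0 else tJ k * tJ l * (x.2 k * z.2 l)) +
        ∑ k, ∑ l, (if k = l then 0 else tJ k * tJ l * (y.2 k * z.2 l)) := by
    rw [← Finset.sum_add_distrib]
    refine Finset.sum_congr rfl fun k _ => ?_
    rw [← Finset.sum_add_distrib]
    refine Finset.sum_congr rfl fun l _ => ?_
    split_ifs
    · ring
    · rw [Prod.snd_add, Pi.add_apply]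
      ring
  rw [h1, h2]
  ring

theorem bj_symm (W W' : Finset U) (x y : (U → ZMod 2) × (J → ZMod 2)) :
    bj W W' tU sJ tJ B x y = bj W' W tU sJ tJ B y x := by
  unfold bj
  congr 1
  · exact Finset.sum_congr rfl fun k _ => add_comm _ _
  · rw [Finset.sum_comm]
    refine Finset.sum_congr rfl fun k _ => Finset.sum_congr rfl fun l _ => ?_
    by_cases h : l = k
    · rw [if_pos h, if_pos h.symm]
    · rw [if_neg h, if_neg (Ne.symm h)]
      ring

/-- the form -/
noncomputable def bjL (W W' : Finset U) : ((U → ZMod 2) × (J → ZMod 2)) →ₗ[ZMod 2]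
    ((U → ZMod 2) × (J → ZMod 2)) →ₗ[ZMod 2] ZMod 2 :=
  LinearMap.mk₂ (ZMod 2) (fun x y => bj W W' tU sJ tJ B x y)
    (fun x x' y => bj_add tU sJ tJ B W W' x x' y)
    (fun c x y => ZMod.map_smul (AddMonoidHom.mk' (fun x => bj W W' tU sJ tJ B x y)
      fun x x' => bj_add tU sJ tJ B W W' x x' y) c x)
    (fun x y y' => by
      rw [bj_symm, bj_add, bj_symm, bj_symm tU sJ tJ B W' W y' x])
    (fun c x y => ZMod.map_smul (AddMonoidHom.mk' (fun y => bj W W' tU sJ tJ B x y)
      fun y y' => by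
        rw [bj_symm, bj_add, bj_symm, bj_symm tU sJ tJ B W' W y' x]) c y)

theorem bjL_apply (W W' : Finset U) (x y : (U → ZMod 2) × (J → ZMod 2)) :
    bjL tU sJ tJ B W W' x y = bj W W' tU sJ tJ B x y := rfl

/-- the unit vector of a large prime -/
noncomputable def ek (k : J) : (U → ZMod 2) × (J → ZMod 2) :=
  (fun _ => 0, fun l => if l = k then 1 else 0)

theorem fJ_ek (W : Finset U) (k l : J) :
    fJ W tU sJ tJ B (ek k) l = if l = k then sJ k + La tU tJ B W k else 0 := by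
  unfold fJ ek La
  by_cases h : l = k
  · subst h
    simp
  · simp [h]

theorem bj_ek (W W' : Finset U) (k : J) (x : (U → ZMod 2) × (J → ZMod 2)) :
    bj W W' tU sJ tJ B x (ek k) = (La tU tJ B W k + La tU tJ B W' k + tJ k) * x.2 k +
      (∑ u ∈ W, (B u k + tU u * tJ k) * x.1 u + tJ k * ∑ l, tJ l * x.2 l) := by
  unfold bj
  have h1 : ∑ l, (fJ W tU sJ tJ B x l * (ek (U := U) k).2 l +
      fJ W' tU sJ tJ B (ek k) l * x.2 l) =
      fJ W tU sJ tJ B x k + (sJ k + La tU tJ B W' k) * x.2 k := by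
    rw [Finset.sum_eq_single k (fun l _ hl => ?_) (fun hh => absurd (Finset.mem_univ _) hh)]
    · rw [fJ_ek, if_pos rfl]
      unfold ek
      simp
    · rw [fJ_ek, if_neg hl]
      unfold ek
      simp [hl]
  have h2 : ∀ l, ∑ l', (if l = l' then 0 else tJ l * tJ l' * (x.2 l * (ek (U := U) k).2 l')) =
      tJ k * (tJ l * x.2 l) + if l = k then tJ k * x.2 k else 0 := by
    intro l
    rw [Finset.sum_eq_single k (fun l' _ hl => ?_) (fun hh => absurd (Finset.mem_univ _) hh)]
    · by_cases h : l = k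
      · subst h
        rw [if_pos rfl, if_pos rfl]
        linear_combination (-(x.2 l)) * sq0 (tJ l) - (tJ l * x.2 l) * two0
      · rw [if_neg h, if_neg h]
        unfold ek
        simp only [if_true]
        ring
    · unfold ek
      simp [hl]
  have h3 : fJ W tU sJ tJ B x k = sJ k * x.2 k + (La tU tJ B W k * x.2 k +
      ∑ u ∈ W, (B u k + tU u * tJ k) * x.1 u) := by
    unfold fJ La
    rw [Finset.sum_mul, ← Finset.sum_add_distrib]
    congr 1
    exact Finset.sum_congr rfl fun u _ => mul_add _ _ _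
  rw [h1, Finset.sum_congr rfl fun l _ => h2 l, Finset.sum_add_distrib, ← Finset.mul_sum,
    Finset.sum_ite_eq' univ k, if_pos (Finset.mem_univ _), h3]
  linear_combination (sJ k * x.2 k) * two0

/-- the sum of the rows of the large primes -/
noncomputable def pS (W : Finset U) (x : (U → ZMod 2) × (J → ZMod 2)) : ZMod 2 :=
  ∑ k, fJ W tU sJ tJ B x k + ∑ e ∈ prs J, tJ e.1 * tJ e.2 * (x.2 e.1 + x.2 e.2)

/-- the rows of the small primes -/
noncomputable def pU (W : Finset U) (x : (U → ZMod 2) × (J → ZMod 2)) (u : U) : ZMod 2 :=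
  if u ∈ W then sU u * x.1 u + ∑ v ∈ W, A u v * (x.1 u + x.1 v) +
    ∑ l, B u l * (x.1 u + x.2 l) else x.1 u

theorem pS_add (W : Finset U) (x y : (U → ZMod 2) × (J → ZMod 2)) :
    pS tU sJ tJ B W (x + y) = pS tU sJ tJ B W x + pS tU sJ tJ B W y := by
  unfold pS
  have h1 : ∑ e ∈ prs J, tJ e.1 * tJ e.2 * ((x + y).2 e.1 + (x + y).2 e.2) =
      ∑ e ∈ prs J, tJ e.1 * tJ e.2 * (x.2 e.1 + x.2 e.2) +
        ∑ e ∈ prs J, tJ e.1 * tJ e.2 * (y.2 e.1 + y.2 e.2) := by
    rw [← Finset.sum_add_distrib]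
    refine Finset.sum_congr rfl fun e _ => ?_
    simp only [Prod.snd_add, Pi.add_apply]
    ring
  rw [Finset.sum_congr rfl fun k _ => fJ_add tU sJ tJ B W x y k, Finset.sum_add_distrib, h1]
  ring

theorem pU_add (W : Finset U) (x y : (U → ZMod 2) × (J → ZMod 2)) (u : U) :
    pU sU A B W (x + y) u = pU sU A B W x u + pU sU A B W y u := by
  unfold pU
  by_cases h : u ∈ W
  · rw [if_pos h, if_pos h, if_pos h]
    have h1 : ∑ v ∈ W, A u v * ((x + y).1 u + (x + y).1 v) =
        ∑ v ∈ W, A u v * (x.1 u + x.1 v) + ∑ v ∈ W, A u v * (y.1 u + y.1 v) := by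
      rw [← Finset.sum_add_distrib]
      refine Finset.sum_congr rfl fun v _ => ?_
      simp only [Prod.fst_add, Pi.add_apply]
      ring
    have h2 : ∑ l, B u l * ((x + y).1 u + (x + y).2 l) =
        ∑ l, B u l * (x.1 u + x.2 l) + ∑ l, B u l * (y.1 u + y.2 l) := by
      rw [← Finset.sum_add_distrib]
      refine Finset.sum_congr rfl fun v _ => ?_
      simp only [Prod.fst_add, Prod.snd_add, Pi.add_apply]
      ring
    rw [h1, h2]
    simp only [Prod.fst_add, Pi.add_apply]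
    ring
  · rw [if_neg h, if_neg h, if_neg h]
    rfl

/-- the equations that the vectors satisfy -/
noncomputable def Psi (W : Finset U) :
    ((U → ZMod 2) × (J → ZMod 2)) →ₗ[ZMod 2] (Option U → ZMod 2) :=
  AddMonoidHom.toZModLinearMap 2 (AddMonoidHom.mk' (fun x a =>
    Option.elim a (pS tU sJ tJ B W x) (fun u => pU sU A B W x u)) (fun x y => by
      funext a
      rcases a with _ | u
      · exact pS_add tU sJ tJ B W x y
      · exact pU_add sU A B W x y u))

theorem Psi_none (W : Finset U) (x : (U → ZMod 2) × (J → ZMod 2)) :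
    Psi sU tU sJ tJ A B W x none = pS tU sJ tJ B W x := rfl

theorem Psi_some (W : Finset U) (x : (U → ZMod 2) × (J → ZMod 2)) (u : U) :
    Psi sU tU sJ tJ A B W x (some u) = pU sU A B W x u := rfl

theorem UR_iff (W : Finset U) (x : (U → ZMod 2) × (J → ZMod 2)) :
    UR W sU tU sJ tJ A B x ↔ Psi sU tU sJ tJ A B W x = 0 := by
  constructor
  · rintro ⟨h1, h2, h3⟩
    funext a
    rcases a with _ | u
    · rw [Psi_none]
      exact h3
    · rw [Psi_some]
      unfold pU
      by_cases h : u ∈ W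
      · rw [if_pos h]
        exact h2 u h
      · rw [if_neg h]
        exact h1 u h
  · intro h
    refine ⟨fun u hu => ?_, fun u hu => ?_, ?_⟩
    · have h1 := congrFun h (some u)
      rw [Psi_some] at h1
      unfold pU at h1
      rw [if_neg hu] at h1
      exact h1
    · have h1 := congrFun h (some u)
      rw [Psi_some] at h1
      unfold pU at h1
      rw [if_pos hu] at h1
      exact h1
    · have h1 := congrFun h none
      rw [Psi_none] at h1
      exact h1

theorem prs_sum (y : J → ZMod 2) : ∑ e ∈ prs J, tJ e.1 * tJ e.2 * (y e.1 + y e.2) =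
    (∑ k, tJ k * y k) * (∑ k, tJ k) + ∑ k, tJ k * y k := by
  have h1 := sum_pairs (ι := J) fun k l => (tJ k * y k) * tJ l
  rw [← Finset.sum_mul_sum] at h1
  have h2 : ∑ e ∈ prs J, tJ e.1 * tJ e.2 * (y e.1 + y e.2) =
      ∑ e ∈ prs J, ((tJ e.1 * y e.1) * tJ e.2 + (tJ e.2 * y e.2) * tJ e.1) :=
    Finset.sum_congr rfl fun e _ => by ring
  have h3 : ∑ k, tJ k * y k * tJ k = ∑ k, tJ k * y k :=
    Finset.sum_congr rfl fun k _ => by linear_combination (y k) * sq0 (tJ k)
  rw [h2, h1, h3]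
  linear_combination (-(∑ k, tJ k * y k)) * two0

theorem pS_ek (W : Finset U) (hp : ∑ u ∈ W, tU u + ∑ j, tJ j = 0) (k : J) :
    pS tU sJ tJ B W (ek k) = sJ k + tJ k + ∑ u ∈ W, B u k := by
  unfold pS
  rw [prs_sum, Finset.sum_congr rfl fun l _ => fJ_ek tU sJ tJ B W k l, Finset.sum_ite_eq' univ k,
    if_pos (Finset.mem_univ _)]
  have h1 : ∑ l, tJ l * (ek (U := U) k).2 l = tJ k := by
    unfold ek
    simp
  rw [h1]
  unfold La
  rw [Finset.sum_add_distrib, ← Finset.sum_mul]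
  linear_combination (tJ k) * hp

theorem pU_ek (W : Finset U) (k : J) (u : U) :
    pU sU A B W (ek k) u = if u ∈ W then B u k else 0 := by
  unfold pU ek
  by_cases h : u ∈ W
  · simp [h]
  · simp [h]

/-- the functionals are independent -/
theorem Psi_ne (W : Finset U) (hp : ∑ u ∈ W, tU u + ∑ j, tJ j = 0)
    (hnd : ∀ (w : U → ZMod 2) (e : ZMod 2), ((∃ u, w u ≠ 0) ∨ e ≠ 0) →
      (∃ k, e * sJ k + ∑ u, w u * (B u k + tU u * tJ k) ≠ 0) ∧
      ∃ k, e * (sJ k + tJ k) + ∑ u, w u * B u k ≠ 0) (w : Option U → ZMod 2) (hw : w ≠ 0) :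
    ∃ x, ∑ a, w a * Psi sU tU sJ tJ A B W x a ≠ 0 := by
  by_cases h1 : ∃ u, u ∉ W ∧ w (some u) ≠ 0
  · obtain ⟨u, hu, hwu⟩ := h1
    refine ⟨(fun v => if v = u then 1 else 0, fun _ => 0), ?_⟩
    rw [Fintype.sum_option, Psi_none]
    simp only [Psi_some]
    have h2 : pS tU sJ tJ B W ((fun v => if v = u then 1 else 0 : U → ZMod 2),
        (fun _ => 0 : J → ZMod 2)) = 0 := by
      unfold pS fJ
      have h3 : ∀ k, ∑ v ∈ W, (B v k + tU v * tJ k) * ((0 : ZMod 2) +
          if v = u then 1 else 0) = 0 := by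
        intro k
        refine Finset.sum_eq_zero fun v hv => ?_
        rw [if_neg (fun h : v = u => hu (h ▸ hv)), add_zero, mul_zero]
      simp only [h3, mul_zero, add_zero, Finset.sum_const_zero]
    have h4 : ∀ v, pU sU A B W ((fun v => if v = u then 1 else 0 : U → ZMod 2),
        (fun _ => 0 : J → ZMod 2)) v = if v = u then 1 else 0 := by
      intro v
      unfold pU
      by_cases hv : v ∈ W
      · rw [if_pos hv]
        have h5 : ¬ v = u := fun h => hu (h ▸ hv)
        have h6 : ∑ v' ∈ W, A v v' * ((if v = u then 1 else 0 : ZMod 2) +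
            if v' = u then 1 else 0) = 0 := by
          refine Finset.sum_eq_zero fun v' hv' => ?_
          rw [if_neg h5, if_neg (fun h : v' = u => hu (h ▸ hv')), add_zero, mul_zero]
        simp only [if_neg h5] at h6 ⊢
        simp only [h6, mul_zero, add_zero, Finset.sum_const_zero]
      · rw [if_neg hv]
    rw [h2, mul_zero, zero_add]
    simp only [h4, mul_ite, mul_one, mul_zero]
    rw [Finset.sum_ite_eq' univ u, if_pos (Finset.mem_univ _)]
    exact hwu
  · push Not at h1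
    have h2 : (∃ u, (if u ∈ W then w (some u) + w none else 0) ≠ 0) ∨ w none ≠ 0 := by
      by_contra hcon
      push Not at hcon
      apply hw
      funext a
      rcases a with _ | u
      · exact hcon.2
      · by_cases hu : u ∈ W
        · have h3 := hcon.1 u
          rw [if_pos hu, hcon.2, add_zero] at h3
          exact h3
        · exact h1 u hu
    obtain ⟨-, k, hk⟩ := hnd _ (w none) h2
    refine ⟨ek k, ?_⟩
    rw [Fintype.sum_option, Psi_none, pS_ek tU sJ tJ B W hp]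
    simp only [Psi_some, pU_ek]
    have h3 : ∑ u, (if u ∈ W then w (some u) + w none else 0) * B u k =
        ∑ u, w (some u) * (if u ∈ W then B u k else 0) + w none * ∑ u ∈ W, B u k := by
      have h4 : w none * ∑ u ∈ W, B u k = ∑ u, if u ∈ W then w none * B u k else 0 := by
        rw [Finset.mul_sum, Finset.sum_ite_mem, Finset.univ_inter]
      rw [h4, ← Finset.sum_add_distrib]
      refine Finset.sum_congr rfl fun u _ => ?_
      split_ifs
      · ring
      · ring
    rw [h3] at hk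
    intro h5
    apply hk
    refine Eq.trans ?_ h5
    ring

/-- the radical is small -/
theorem card_Rd (W W' : Finset U) :
    (Rd (LinearMap.ker (Psi sU tU sJ tJ A B W)) (LinearMap.ker (Psi sU tU sJ tJ A B W'))
      (bjL tU sJ tJ B W W')).card ≤ 2 ^ (Fintype.card U + 1) * (2 * (2 ^ Fintype.card U *
      2 ^ Fintype.card {k : J // ¬ La tU tJ B W k + La tU tJ B W' k + tJ k = 1})) := by
  have h1 : ∀ x ∈ Rd (LinearMap.ker (Psi sU tU sJ tJ A B W))
      (LinearMap.ker (Psi sU tU sJ tJ A B W')) (bjL tU sJ tJ B W W'),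
      ∃ w : Option U → ZMod 2, ∀ y, bj W W' tU sJ tJ B y x.1 =
        ∑ a, w a * Psi sU tU sJ tJ A B W y a := by
    intro x hx
    refine dual_ker (Psi sU tU sJ tJ A B W) (fun y => bj W W' tU sJ tJ B y x.1)
      (fun y y' => bj_add tU sJ tJ B W W' y y' x.1) (fun y hy => ?_)
    rw [mem_Rd] at hx
    exact hx y (LinearMap.mem_ker.2 hy)
  choose! w hw using h1
  have h2 : (Rd (LinearMap.ker (Psi sU tU sJ tJ A B W))
      (LinearMap.ker (Psi sU tU sJ tJ A B W')) (bjL tU sJ tJ B W W')).card ≤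
      (univ : Finset ((Option U → ZMod 2) × (ZMod 2 × ((U → ZMod 2) ×
        ({k : J // ¬ La tU tJ B W k + La tU tJ B W' k + tJ k = 1} → ZMod 2))))).card := by
    refine Finset.card_le_card_of_injOn (fun x => (w x,
      (∑ j, tJ j * x.1.2 j, (x.1.1, fun j => x.1.2 j.1)))) ?_ ?_
    · intro x _
      exact Finset.mem_coe.2 (Finset.mem_univ _)
    · intro x hx y hy hxy
      simp only [Prod.mk.injEq] at hxy
      obtain ⟨h3, h4, h5, h6⟩ := hxy
      have h7 : x.1.2 = y.1.2 := by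
        funext k
        by_cases hk : La tU tJ B W k + La tU tJ B W' k + tJ k = 1
        · have h8 := hw x hx (ek k)
          have h9 := hw y hy (ek k)
          rw [bj_symm, bj_ek, add_comm (La tU tJ B W' k), hk, one_mul] at h8 h9
          rw [h3, ← h9, h4, h5] at h8
          exact add_right_cancel h8
        · exact congrFun h6 ⟨k, hk⟩
      exact Subtype.ext (Prod.ext h5 h7)
  refine h2.trans (le_of_eq ?_)
  rw [Finset.card_univ]
  simp only [Fintype.card_prod, Fintype.card_fun, ZMod.card, Fintype.card_option]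

/-- few vectors are constant on the large primes -/
theorem card_K [Nonempty J] : (univ.filter fun x : (U → ZMod 2) × (J → ZMod 2) =>
    ∀ k l, x.2 k + x.2 l = 0).card ≤ 2 ^ Fintype.card U * 2 := by
  obtain ⟨k0⟩ := ‹Nonempty J›
  have h2 : (univ.filter fun x : (U → ZMod 2) × (J → ZMod 2) =>
      ∀ k l, x.2 k + x.2 l = 0).card ≤ (univ : Finset ((U → ZMod 2) × ZMod 2)).card := by
    refine Finset.card_le_card_of_injOn (fun x => (x.1, x.2 k0)) ?_ ?_
    · intro x _
      exact Finset.mem_coe.2 (Finset.mem_univ _)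
    · intro x hx y hy hxy
      simp only [Prod.mk.injEq] at hxy
      rw [Finset.mem_coe, Finset.mem_filter] at hx hy
      refine Prod.ext hxy.1 (funext fun j => ?_)
      rw [add_eq0.1 (hx.2 j k0), add_eq0.1 (hy.2 j k0)]
      exact hxy.2
  refine h2.trans (le_of_eq ?_)
  rw [Finset.card_univ]
  simp only [Fintype.card_prod, Fintype.card_fun, ZMod.card]

end blocks

section reidx

variable {T : Type} [Fintype T] {M : ℕ} {J : Type} [Fintype J]

theorem IndA_iff (e : T ≃ Fin M) (d : T → J → ZMod 2) : IndA d ↔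
    ∀ w : Fin M → ZMod 2, (∃ a, w a ≠ 0) →
      ¬ ∀ k l, ∑ a, w a * d (e.symm a) k + ∑ a, w a * d (e.symm a) l = 0 := by
  have h1 : ∀ (w : Fin M → ZMod 2) (k l : J), ∑ a, w a * d (e.symm a) k +
      ∑ a, w a * d (e.symm a) l = ∑ t, w (e t) * (d t k + d t l) := by
    intro w k l
    rw [← Finset.sum_add_distrib, ← Equiv.sum_comp e]
    refine Finset.sum_congr rfl fun t _ => ?_
    rw [Equiv.symm_apply_apply]
    ring
  constructor
  · rintro h w ⟨a, ha⟩ hcon
    obtain ⟨k, l, hkl⟩ := h (fun t => w (e t)) ⟨e.symm a, by rwa [Equiv.apply_symm_apply]⟩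
    exact hkl ((h1 w k l).symm.trans (hcon k l))
  · rintro h w ⟨t, ht⟩
    have h2 := h (fun a => w (e.symm a)) ⟨e t, by rwa [Equiv.symm_apply_apply]⟩
    push Not at h2
    obtain ⟨k, l, hkl⟩ := h2
    refine ⟨k, l, fun h3 => hkl ?_⟩
    rw [h1 (fun a => w (e.symm a)) k l, ← h3]
    refine Finset.sum_congr rfl fun t _ => ?_
    rw [Equiv.symm_apply_apply]

end reidx

/-- QJ-LA2 -/
theorem t_LA2J : S_LA2J := by
  intro I _ m δ hδ
  obtain ⟨M, hM⟩ : ∃ M, M = ∑ i, m i := ⟨_, rfl⟩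
  have hT : Fintype.card (Σ i, Fin (m i)) = M := by
    rw [Fintype.card_sigma, hM]
    simp only [Fintype.card_fin]
  obtain ⟨V0, hV0⟩ : ∃ V0 : ℕ, (2 : ℝ) ^ M.choose 2 * (8 + 4 * 2 ^ M) / δ < 2 ^ V0 :=
    pow_unbounded_of_one_lt _ (by norm_num)
  refine ⟨4, V0 + 1, ?_⟩
  intro U J _ _ _ W sU tU sJ tJ A B hyp
  rw [← hM]
  obtain ⟨n, hn⟩ : ∃ n, n = Fintype.card J := ⟨_, rfl⟩
  rw [← hn]
  let eT : (Σ i, Fin (m i)) ≃ Fin M := Fintype.equivFinOfCardEq hT
  -- the spaces and the forms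
  let Wf : Fin M → Finset U := fun a => W (eT.symm a).1
  let Vf : Fin M → Submodule (ZMod 2) ((U → ZMod 2) × (J → ZMod 2)) := fun a =>
    LinearMap.ker (Psi sU tU sJ tJ A B (Wf a))
  let bl : Fin M → Fin M → ((U → ZMod 2) × (J → ZMod 2)) →ₗ[ZMod 2]
    ((U → ZMod 2) × (J → ZMod 2)) →ₗ[ZMod 2] ZMod 2 := fun a b => bjL tU sJ tJ B (Wf a) (Wf b)
  obtain ⟨K, hK⟩ : ∃ K : Finset ((U → ZMod 2) × (J → ZMod 2)), K =
    univ.filter fun x : (U → ZMod 2) × (J → ZMod 2) => ∀ k l, x.2 k + x.2 l = 0 := ⟨_, rfl⟩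
  obtain ⟨N, hN⟩ : ∃ N, N = (GG Vf bl K).card := ⟨_, rfl⟩
  -- the count of the tuples
  have hNe : (univ.filter fun x : (Σ i, Fin (m i)) → (U → ZMod 2) × (J → ZMod 2) =>
      IndA (fun a => (x a).2) ∧ (∀ a, UR (W a.1) sU tU sJ tJ A B (x a)) ∧
      ∀ a b, a ≠ b → bj (W a.1) (W b.1) tU sJ tJ B (x a) (x b) = 0).card = N := by
    rw [hN]
    have h0 : ∀ (w : Fin M → ZMod 2) (y : Fin M → (U → ZMod 2) × (J → ZMod 2)) (k : J),
        (∑ a, w a • y a).2 k = ∑ a, w a * (y a).2 k := by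
      intro w y k
      rw [Prod.snd_sum, Finset.sum_apply]
      rfl
    refine Finset.card_bij (fun x _ => fun a => x (eT.symm a)) ?_ ?_ ?_
    · intro x hx
      rw [Finset.mem_filter] at hx
      obtain ⟨-, h1, h2, h3⟩ := hx
      rw [mem_GG]
      refine ⟨fun a => ?_, fun e => ?_, fun w hw hcon => ?_⟩
      · exact LinearMap.mem_ker.2 ((UR_iff sU tU sJ tJ A B _ _).1 (h2 (eT.symm a)))
      · refine h3 (eT.symm e.1.1) (eT.symm e.1.2) fun h4 => ?_
        have h5 := mem_prs.1 e.2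
        rw [eT.symm.injective h4] at h5
        exact lt_irrefl _ h5
      · rw [hK, Finset.mem_filter] at hcon
        refine (IndA_iff eT _).1 h1 w hw fun k l => ?_
        have h4 := hcon.2 k l
        rw [h0, h0] at h4
        exact h4
    · intro x _ y _ hxy
      funext t
      have h1 := congrFun hxy (eT t)
      simp only [Equiv.symm_apply_apply] at h1
      exact h1
    · intro y hy
      rw [mem_GG] at hy
      obtain ⟨h1, h2, h3⟩ := hy
      have h4 : ∀ a b, a ≠ b → bj (Wf a) (Wf b) tU sJ tJ B (y a) (y b) = 0 := by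
        intro a b hab
        rcases lt_or_gt_of_ne hab with h | h
        · exact h2 ⟨(a, b), mem_prs.2 h⟩
        · rw [bj_symm]
          exact h2 ⟨(b, a), mem_prs.2 h⟩
      refine ⟨fun t => y (eT t), ?_, ?_⟩
      · rw [Finset.mem_filter]
        refine ⟨Finset.mem_univ _, ?_, fun t => ?_, fun t t' htt => ?_⟩
        · rw [IndA_iff eT]
          intro w hw hcon
          refine h3 w hw ?_
          rw [hK, Finset.mem_filter]
          refine ⟨Finset.mem_univ _, fun k l => ?_⟩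
          have h5 := hcon k l
          simp only [Equiv.apply_symm_apply] at h5
          rw [h0, h0]
          exact h5
        · have h5 := LinearMap.mem_ker.1 (h1 (eT t))
          rw [UR_iff]
          have h6 : Wf (eT t) = W t.1 := by
            change W (eT.symm (eT t)).1 = W t.1
            rw [Equiv.symm_apply_apply]
          rw [← h6]
          exact h5
        · have h5 := h4 (eT t) (eT t') fun h => htt (eT.injective h)
          have h6 : ∀ t, Wf (eT t) = W t.1 := by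
            intro t
            change W (eT.symm (eT t)).1 = W t.1
            rw [Equiv.symm_apply_apply]
          rw [h6, h6] at h5
          exact h5
      · funext a
        change y (eT (eT.symm a)) = y a
        rw [Equiv.apply_symm_apply]
  rw [hNe]
  obtain ⟨Q, hQ⟩ : ∃ Q : ℕ, Q = 2 ^ (n - 1) := ⟨_, rfl⟩
  have hQ0 : 0 < Q := by
    rw [hQ]
    positivity
  have hmain : |(N : ℤ) * 2 ^ M.choose 2 - (Q : ℤ) ^ M| * 2 ^ V0 ≤
      2 ^ M.choose 2 * (Q : ℤ) ^ M * (8 + 4 * 2 ^ M) := by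
    rcases Nat.eq_zero_or_pos M with hM0 | hM0
    · -- there is just one tuple
      have h1 : IsEmpty (Fin M) := by
        rw [hM0]
        infer_instance
      have h2 : N = 1 := by
        rw [hN]
        have h3 : GG Vf bl K = univ := by
          ext x
          rw [mem_GG]
          exact ⟨fun _ => Finset.mem_univ _, fun _ => ⟨fun a => h1.elim a,
            fun e => h1.elim e.1.1, fun w hw => hw.elim fun a _ => h1.elim a⟩⟩
        rw [h3, Finset.card_univ, Fintype.card_fun, Fintype.card_fin, hM0, pow_zero]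
      rw [h2, hM0]
      norm_num
    · obtain ⟨u, hu⟩ : ∃ u, u = Fintype.card U := ⟨_, rfl⟩
      have hmany := hyp.many
      rw [← hu] at hmany
      have hcu : ∀ s : Finset J, s.card ≤ n := by
        intro s
        rw [hn]
        exact Finset.card_le_univ s
      have hun : 4 * u + (V0 + 1) ≤ n :=
        (hmany (eT.symm ⟨0, hM0⟩).1 (eT.symm ⟨0, hM0⟩).1).trans (hcu _)
      have hne : Nonempty J := Fintype.card_pos_iff.1 (by omega)
      have hQ1 : ∀ a, Fintype.card (Vf a) = Q := by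
        intro a
        have h1 := card_ker (Psi sU tU sJ tJ A B (Wf a))
          (Psi_ne sU tU sJ tJ A B (Wf a) (hyp.par _) hyp.nd)
        simp only [Fintype.card_prod, Fintype.card_fun, ZMod.card, Fintype.card_option] at h1
        rw [← hu, ← hn] at h1
        have h2 : 2 ^ u * 2 ^ n = 2 ^ (n - 1) * 2 ^ (u + 1) := by
          rw [← pow_add, ← pow_add]
          congr 1
          omega
        rw [h2] at h1
        rw [hQ]
        exact Nat.eq_of_mul_eq_mul_right (by positivity) h1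
      obtain ⟨R, hR⟩ : ∃ R : ℕ, R = 2 ^ (n + 2 - V0) := ⟨_, rfl⟩
      have hR1 : R * 2 ^ V0 ≤ 8 * Q := by
        rw [hR, hQ, ← pow_add]
        have h5 : n + 2 - V0 + V0 = 3 + (n - 1) := by omega
        rw [h5, pow_add]
        norm_num
      have hR2 : ∀ i j, (Rd (Vf i) (Vf j) (bl i j)).card ≤ R := by
        intro i j
        refine (card_Rd sU tU sJ tJ A B (Wf i) (Wf j)).trans ?_
        rw [← hu, hR]
        have h1 := hmany (eT.symm i).1 (eT.symm j).1
        obtain ⟨ν, hν⟩ : ∃ ν, ν = Fintype.card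
          {k : J // ¬ La tU tJ B (Wf i) k + La tU tJ B (Wf j) k + tJ k = 1} := ⟨_, rfl⟩
        have h2 : (univ.filter fun k => La tU tJ B (Wf i) k + La tU tJ B (Wf j) k + tJ k =
            1).card + ν = n := by
          rw [hν, hn, Fintype.card_subtype, Finset.card_filter_add_card_filter_not]
          exact Finset.card_univ
        have h3 : 4 * u + (V0 + 1) + ν ≤ n := by
          rw [← h2]
          exact Nat.add_le_add_right h1 _
        rw [← hν]
        have h4 : 2 ^ (u + 1) * (2 * (2 ^ u * 2 ^ ν)) = 2 ^ (2 * u + 2 + ν) := by ring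
        rw [h4]
        exact Nat.pow_le_pow_right (by norm_num) (by omega)
      have hK1 : K.card * 2 ^ V0 ≤ 4 * Q := by
        have h1 := card_K (U := U) (J := J)
        rw [← hK, ← hu] at h1
        have h2 : 2 ^ u * 2 * 2 ^ V0 ≤ 4 * Q := by
          have h3 : 2 ^ u * 2 * 2 ^ V0 = 2 ^ (u + 1 + V0) := by
            ring
          have h4 : 4 * Q = 2 ^ (n + 1) := by
            rw [hQ]
            have h5 : n + 1 = 2 + (n - 1) := by omega
            rw [h5, pow_add]
            norm_num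
          rw [h3, h4]
          exact Nat.pow_le_pow_right (by norm_num) (by omega)
        exact (Nat.mul_le_mul_right _ h1).trans h2
      have hgood := card_good Vf bl (fun i j v w => bj_symm tU sJ tJ B (Wf i) (Wf j) v w)
        Q R hQ1 hQ0 hR2 K
      rw [← hN] at hgood
      have h2 : (R : ℤ) * 2 ^ V0 ≤ 8 * Q := by exact_mod_cast hR1
      have h3 : (K.card : ℤ) * 2 ^ V0 ≤ 4 * Q := by exact_mod_cast hK1
      have h4 : |(N : ℤ) * 2 ^ M.choose 2 - (Q : ℤ) ^ M| * 2 ^ V0 * Q ≤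
          2 ^ M.choose 2 * (Q : ℤ) ^ M * (8 + 4 * 2 ^ M) * Q := by
        calc |(N : ℤ) * 2 ^ M.choose 2 - (Q : ℤ) ^ M| * 2 ^ V0 * Q
            = (|(N : ℤ) * 2 ^ M.choose 2 - (Q : ℤ) ^ M| * Q) * 2 ^ V0 := by ring
          _ ≤ (2 ^ M.choose 2 * ((Q : ℤ) ^ M * (R + 2 ^ M * K.card : ℤ))) * 2 ^ V0 :=
            mul_le_mul_of_nonneg_right hgood (by positivity)
          _ = 2 ^ M.choose 2 * (Q : ℤ) ^ M * (R * 2 ^ V0 + 2 ^ M * (K.card * 2 ^ V0)) := by
            ring
          _ ≤ 2 ^ M.choose 2 * (Q : ℤ) ^ M * (8 * Q + 2 ^ M * (4 * Q)) := by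
            refine mul_le_mul_of_nonneg_left ?_ (by positivity)
            exact add_le_add h2 (mul_le_mul_of_nonneg_left h3 (by positivity))
          _ = _ := by ring
      exact le_of_mul_le_mul_right h4 (by exact_mod_cast hQ0)
  -- the estimate
  have h2 : |(N : ℝ) * 2 ^ M.choose 2 - (Q : ℝ) ^ M| * 2 ^ V0 ≤
      2 ^ M.choose 2 * (Q : ℝ) ^ M * (8 + 4 * 2 ^ M) := by exact_mod_cast hmain
  have hQr : (0 : ℝ) < (Q : ℝ) ^ M := by
    have : (0 : ℝ) < Q := by exact_mod_cast hQ0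
    positivity
  have h3 : (2 : ℝ) ^ (M * (n - 1)) = (Q : ℝ) ^ M := by
    rw [hQ]
    push_cast
    rw [← pow_mul, mul_comm]
  rw [h3]
  have h4 : (N : ℝ) * 2 ^ M.choose 2 / (Q : ℝ) ^ M - 1 =
      ((N : ℝ) * 2 ^ M.choose 2 - (Q : ℝ) ^ M) / (Q : ℝ) ^ M := by
    field_simp
  rw [h4, abs_div, abs_of_pos hQr, div_le_iff₀ hQr]
  rw [div_lt_iff₀ hδ] at hV0
  have h5 : (0 : ℝ) < 2 ^ V0 := by positivity
  have h6 : |(N : ℝ) * 2 ^ M.choose 2 - (Q : ℝ) ^ M| * 2 ^ V0 ≤ δ * (Q : ℝ) ^ M * 2 ^ V0 := by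
    refine h2.trans ?_
    have h7 := mul_le_mul_of_nonneg_right hV0.le hQr.le
    calc (2 : ℝ) ^ M.choose 2 * (Q : ℝ) ^ M * (8 + 4 * 2 ^ M)
        = 2 ^ M.choose 2 * (8 + 4 * 2 ^ M) * (Q : ℝ) ^ M := by ring
      _ ≤ 2 ^ V0 * δ * (Q : ℝ) ^ M := h7
      _ = _ := by ring
  exact le_of_mul_le_mul_right h6 h5

end Pool.Agent.R426.QJ.LA2
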