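import Pool.Agent.R426.QJ.Stm

/-!
QJ-LA4: the assembly (the joint moments are in MOMJ).
-/

set_option autoImplicit false
set_option linter.unusedVariables false
set_option linter.unusedSectionVars false

open scoped Classical

namespace Pool.Agent.R426.QJ.LA4

open Finset Pool.Agent.R426.QK Pool.Agent.R426.QJ

/-- the number of the linearly independent tuples -/
theorem card_li {V : Type} [AddCommGroup V] [Module (ZMod 2) V] [Finite V] (m : ℕ) :
    (Nat.card {s : Fin m → V // LinearIndependent (ZMod 2) s} : ℝ) =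
      ∏ i ∈ range m, ((2 : ℝ) ^ Module.finrank (ZMod 2) V - 2 ^ i) := by
  have hfin : Module.Finite (ZMod 2) V := Module.Finite.of_finite
  by_cases hm : m ≤ Module.finrank (ZMod 2) V
  · rw [card_linearIndependent hm, ZMod.card, Nat.cast_prod, Finset.prod_range]
    apply Finset.prod_congr rfl
    intro i _
    rw [Nat.cast_sub]
    · push_cast; rfl
    · exact Nat.pow_le_pow_right (by norm_num) (by omega)
  · rw [Finset.prod_eq_zero (i := Module.finrank (ZMod 2) V)]
    · have : IsEmpty {s : Fin m → V // LinearIndependent (ZMod 2) s} := by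
        constructor
        rintro ⟨s, hs⟩
        have := hs.fintype_card_le_finrank
        rw [Fintype.card_fin] at this
        exact hm this
      rw [Nat.card_of_isEmpty, Nat.cast_zero]
    · rw [Finset.mem_range]; omega
    · rw [sub_self]

section

variable {U J : Type} [Fintype U] [Fintype J] [LinearOrder J]

theorem two_eq : (2 : ZMod 2) = 0 := rfl

/-- the row of a small prime -/
def rU (W : Finset U) (sU : U → ZMod 2) (A : U → U → ZMod 2) (B : U → J → ZMod 2)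
    (x : (U → ZMod 2) × (J → ZMod 2)) (u : U) : ZMod 2 :=
  sU u * x.1 u + ∑ v ∈ W, A u v * (x.1 u + x.1 v) + ∑ l, B u l * (x.1 u + x.2 l)

/-- the row of a large prime -/
def rJ (W : Finset U) (tU : U → ZMod 2) (sJ tJ : J → ZMod 2) (B : U → J → ZMod 2)
    (R : J → J → ZMod 2) (x : (U → ZMod 2) × (J → ZMod 2)) (k : J) : ZMod 2 :=
  fJ W tU sJ tJ B x k + ∑ l, R k l * (x.2 k + x.2 l)

theorem rU_add (W : Finset U) (sU : U → ZMod 2) (A : U → U → ZMod 2) (B : U → J → ZMod 2)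
    (x y : (U → ZMod 2) × (J → ZMod 2)) (u : U) :
    rU W sU A B (x + y) u = rU W sU A B x u + rU W sU A B y u := by
  unfold rU
  simp only [Prod.fst_add, Prod.snd_add, Pi.add_apply]
  have h1 : ∑ v ∈ W, A u v * (x.1 u + y.1 u + (x.1 v + y.1 v)) =
      ∑ v ∈ W, A u v * (x.1 u + x.1 v) + ∑ v ∈ W, A u v * (y.1 u + y.1 v) := by
    rw [← Finset.sum_add_distrib]
    exact Finset.sum_congr rfl fun v _ => by ring
  have h2 : ∑ l, B u l * (x.1 u + y.1 u + (x.2 l + y.2 l)) =
      ∑ l, B u l * (x.1 u + x.2 l) + ∑ l, B u l * (y.1 u + y.2 l) := by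
    rw [← Finset.sum_add_distrib]
    exact Finset.sum_congr rfl fun v _ => by ring
  rw [h1, h2]; ring

theorem rU_smul (W : Finset U) (sU : U → ZMod 2) (A : U → U → ZMod 2) (B : U → J → ZMod 2)
    (a : ZMod 2) (x : (U → ZMod 2) × (J → ZMod 2)) (u : U) :
    rU W sU A B (a • x) u = a * rU W sU A B x u := by
  unfold rU
  simp only [Prod.smul_fst, Prod.smul_snd, Pi.smul_apply, smul_eq_mul]
  rw [mul_add, mul_add, Finset.mul_sum, Finset.mul_sum]
  congr 1
  · congr 1
    · ring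
    · exact Finset.sum_congr rfl fun v _ => by ring
  · exact Finset.sum_congr rfl fun v _ => by ring

theorem rJ_add (W : Finset U) (tU : U → ZMod 2) (sJ tJ : J → ZMod 2) (B : U → J → ZMod 2)
    (R : J → J → ZMod 2) (x y : (U → ZMod 2) × (J → ZMod 2)) (k : J) :
    rJ W tU sJ tJ B R (x + y) k = rJ W tU sJ tJ B R x k + rJ W tU sJ tJ B R y k := by
  unfold rJ fJ
  simp only [Prod.fst_add, Prod.snd_add, Pi.add_apply]
  have h1 : ∑ u ∈ W, (B u k + tU u * tJ k) * (x.2 k + y.2 k + (x.1 u + y.1 u)) =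
      ∑ u ∈ W, (B u k + tU u * tJ k) * (x.2 k + x.1 u) +
        ∑ u ∈ W, (B u k + tU u * tJ k) * (y.2 k + y.1 u) := by
    rw [← Finset.sum_add_distrib]
    exact Finset.sum_congr rfl fun v _ => by ring
  have h2 : ∑ l, R k l * (x.2 k + y.2 k + (x.2 l + y.2 l)) =
      ∑ l, R k l * (x.2 k + x.2 l) + ∑ l, R k l * (y.2 k + y.2 l) := by
    rw [← Finset.sum_add_distrib]
    exact Finset.sum_congr rfl fun v _ => by ring
  rw [h1, h2]; ring

theorem rJ_smul (W : Finset U) (tU : U → ZMod 2) (sJ tJ : J → ZMod 2) (B : U → J → ZMod 2)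
    (R : J → J → ZMod 2) (a : ZMod 2) (x : (U → ZMod 2) × (J → ZMod 2)) (k : J) :
    rJ W tU sJ tJ B R (a • x) k = a * rJ W tU sJ tJ B R x k := by
  unfold rJ fJ
  simp only [Prod.smul_fst, Prod.smul_snd, Pi.smul_apply, smul_eq_mul]
  rw [mul_add, mul_add, Finset.mul_sum, Finset.mul_sum]
  congr 1
  · congr 1
    · ring
    · exact Finset.sum_congr rfl fun v _ => by ring
  · exact Finset.sum_congr rfl fun v _ => by ring

/-- the kernel of the system of `W` -/
def Kr (W : Finset U) (sU tU : U → ZMod 2) (sJ tJ : J → ZMod 2) (A : U → U → ZMod 2)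
    (B : U → J → ZMod 2) (R : J → J → ZMod 2) :
    Submodule (ZMod 2) ((U → ZMod 2) × (J → ZMod 2)) where
  carrier := {x | (∀ u, u ∉ W → x.1 u = 0) ∧ (∀ u ∈ W, rU W sU A B x u = 0) ∧
    ∀ k, rJ W tU sJ tJ B R x k = 0}
  zero_mem' := by
    refine ⟨fun u _ => rfl, fun u _ => ?_, fun k => ?_⟩
    · have := rU_smul W sU A B 0 0 u
      simpa using this
    · have := rJ_smul W tU sJ tJ B R 0 0 k
      simpa using this
  add_mem' := by
    rintro x y ⟨h1, h2, h3⟩ ⟨h4, h5, h6⟩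
    refine ⟨fun u hu => ?_, fun u hu => ?_, fun k => ?_⟩
    · rw [Prod.fst_add, Pi.add_apply, h1 u hu, h4 u hu, add_zero]
    · rw [rU_add, h2 u hu, h5 u hu, add_zero]
    · rw [rJ_add, h3 k, h6 k, add_zero]
  smul_mem' := by
    rintro a x ⟨h1, h2, h3⟩
    refine ⟨fun u hu => ?_, fun u hu => ?_, fun k => ?_⟩
    · rw [Prod.smul_fst, Pi.smul_apply, h1 u hu, smul_zero]
    · rw [rU_smul, h2 u hu, mul_zero]
    · rw [rJ_smul, h3 k, mul_zero]

variable {W : Finset U} {sU tU : U → ZMod 2} {sJ tJ : J → ZMod 2} {A : U → U → ZMod 2}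
  {B : U → J → ZMod 2} {R : J → J → ZMod 2}

theorem mem_Kr {x : (U → ZMod 2) × (J → ZMod 2)} :
    x ∈ Kr W sU tU sJ tJ A B R ↔ (∀ u, u ∉ W → x.1 u = 0) ∧ (∀ u ∈ W, rU W sU A B x u = 0) ∧
      ∀ k, rJ W tU sJ tJ B R x k = 0 := Iff.rfl

theorem gd_iff :
    GdB W sU tU sJ tJ A B R ↔ Module.finrank (ZMod 2) (Kr W sU tU sJ tJ A B R) = 0 := by
  rw [Submodule.finrank_eq_zero, Submodule.eq_bot_iff]
  constructor
  · rintro h ⟨c, d⟩ hx
    obtain ⟨h1, h2⟩ := h c d hx.1 (fun u hu => hx.2.1 u hu) (fun k => hx.2.2 k)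
    ext i
    · exact h1 i
    · exact h2 i
  · intro h c d h0 h1 h2
    have := h (c, d) ⟨h0, fun u hu => h1 u hu, fun k => h2 k⟩
    rw [Prod.mk_eq_zero] at this
    exact ⟨fun u => congrFun this.1 u, fun l => congrFun this.2 l⟩

/-- linear independence in the kernel -/
theorem li_iff (k0 : J)
    (h4 : ∀ (w : U → ZMod 2) (e : ZMod 2), ((∃ u, w u ≠ 0) ∨ e ≠ 0) →
      ∃ k, e * sJ k + ∑ u, w u * (B u k + tU u * tJ k) ≠ 0) {m : ℕ}
    (s : Fin m → Kr W sU tU sJ tJ A B R) :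
    LinearIndependent (ZMod 2) s ↔ IndA (fun i => (s i).1.2) := by
  rw [Fintype.linearIndependent_iff]
  have hsum2 : ∀ (a : Fin m → ZMod 2) (k : J),
      (((∑ i, a i • s i : Kr W sU tU sJ tJ A B R) : (U → ZMod 2) × (J → ZMod 2)).2 k) =
        ∑ i, a i * (s i).1.2 k := by
    intro a k
    rw [Submodule.coe_sum, Prod.snd_sum, Finset.sum_apply]
    rfl
  constructor
  · intro h a ⟨i0, hi0⟩
    by_contra hcon
    push Not at hcon
    apply hi0
    refine h a ?_ i0
    obtain ⟨y, hy⟩ : ∃ y, y = ∑ i, a i • s i := ⟨_, rfl⟩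
    rw [← hy]
    have hyk : ∀ k, y.1.2 k = ∑ i, a i * (s i).1.2 k := by
      intro k; rw [hy]; exact hsum2 a k
    have hconst : ∀ l, y.1.2 l = y.1.2 k0 := by
      intro l
      have h1 := hcon l k0
      simp_rw [mul_add] at h1
      rw [Finset.sum_add_distrib, ← hyk, ← hyk] at h1
      have h2 : y.1.2 l = -y.1.2 k0 := eq_neg_of_add_eq_zero_left h1
      rw [h2, ZMod.neg_eq_self_mod_two]
    have hy1 := y.2.1
    have hy2 := y.2.2.2
    by_contra hy0
    have hor : (∃ u, (if u ∈ W then y.1.1 u + y.1.2 k0 else 0) ≠ 0) ∨ y.1.2 k0 ≠ 0 := by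
      by_contra hn
      push Not at hn
      obtain ⟨hn1, hn2⟩ := hn
      apply hy0
      apply Subtype.ext
      ext i
      · by_cases hi : i ∈ W
        · have := hn1 i
          rw [if_pos hi, hn2, add_zero] at this
          exact this
        · exact hy1 i hi
      · change y.1.2 i = 0
        rw [hconst i, hn2]
    obtain ⟨k, hk⟩ := h4 (fun u => if u ∈ W then y.1.1 u + y.1.2 k0 else 0) (y.1.2 k0) hor
    apply hk
    have h5 : rJ W tU sJ tJ B R y.1 k = 0 := hy2 k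
    unfold rJ fJ at h5
    rw [hconst k] at h5
    have h6 : ∑ l, R k l * (y.1.2 k0 + y.1.2 l) = 0 := by
      apply Finset.sum_eq_zero
      intro l _
      rw [hconst l, ← two_mul, two_eq, zero_mul, mul_zero]
    rw [h6, add_zero] at h5
    refine Eq.trans ?_ h5
    congr 1
    · ring
    · have h7 : ∑ u ∈ W, (B u k + tU u * tJ k) * (y.1.2 k0 + y.1.1 u) =
          ∑ u, if u ∈ W then (B u k + tU u * tJ k) * (y.1.2 k0 + y.1.1 u) else 0 := by
        rw [Finset.sum_ite_mem, Finset.univ_inter]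
      rw [h7]
      apply Finset.sum_congr rfl
      intro u _
      by_cases hu : u ∈ W
      · rw [if_pos hu, if_pos hu]; ring
      · rw [if_neg hu, if_neg hu, zero_mul]
  · intro h a ha
    by_contra hcon
    push Not at hcon
    obtain ⟨k, l, hkl⟩ := h a hcon
    apply hkl
    simp_rw [mul_add]
    rw [Finset.sum_add_distrib, ← hsum2 a k, ← hsum2 a l, ha]
    change (0 : ZMod 2) + 0 = 0
    rw [add_zero]

theorem mem_prs (e : J × J) : e ∈ prs J ↔ e.1 < e.2 := by
  unfold prs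
  rw [Finset.mem_filter]
  exact ⟨fun h => h.2, fun h => ⟨Finset.mem_univ _, h⟩⟩

theorem ext_add (t : J → ZMod 2) (α : prs J → ZMod 2) (k l : J) (h : k < l) :
    ext t α k l + ext t α l k = t k * t l := by
  have h1 : (l, k) ∉ prs J := by rw [mem_prs]; exact not_lt.2 h.le
  have h2 : (k, l) ∈ prs J := by rw [mem_prs]; exact h
  unfold Pool.Agent.R426.QK.ext
  rw [dif_neg h1, dif_pos h2, dif_pos h2]
  have : α ⟨(k, l), h2⟩ + t k * t l + α ⟨(k, l), h2⟩ =
      2 * α ⟨(k, l), h2⟩ + t k * t l := by ring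
  rw [this, two_eq, zero_mul, zero_add]

/-- a sum over the pairs -/
theorem sum_pairs (g : J → J → ZMod 2) (hg : ∀ k, g k k = 0) :
    ∑ k, ∑ l, g k l = ∑ e ∈ prs J, (g e.1 e.2 + g e.2 e.1) := by
  rw [Finset.sum_add_distrib]
  have h1 : ∑ k, ∑ l, g k l = ∑ e : J × J, g e.1 e.2 := by
    rw [← Finset.univ_product_univ, Finset.sum_product]
  have h2 : ∑ e ∈ prs J, g e.2 e.1 = ∑ e ∈ univ.filter (fun e : J × J => e.2 < e.1), g e.1 e.2 := by
    refine Finset.sum_bij' (fun e _ => (e.2, e.1)) (fun e _ => (e.2, e.1)) ?_ ?_ ?_ ?_ ?_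
    · intro e he
      rw [mem_prs] at he
      exact Finset.mem_filter.2 ⟨Finset.mem_univ _, he⟩
    · intro e he
      rw [mem_prs]
      exact (Finset.mem_filter.1 he).2
    · intro e _; rfl
    · intro e _; rfl
    · intro e _; rfl
  have h3 : ∑ e : J × J, g e.1 e.2 = ∑ e ∈ prs J, g e.1 e.2 +
      ∑ e ∈ univ.filter (fun e : J × J => e.2 < e.1), g e.1 e.2 := by
    have e0 : prs J = univ.filter (fun e : J × J => e.1 < e.2) := by
      apply Finset.ext
      intro e
      rw [mem_prs, Finset.mem_filter]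
      exact ⟨fun h => ⟨Finset.mem_univ _, h⟩, fun h => h.2⟩
    have e1 : ∑ e ∈ univ.filter (fun e : J × J => e.2 < e.1), g e.1 e.2 =
        ∑ e ∈ univ.filter (fun e : J × J => ¬ e.1 < e.2), g e.1 e.2 := by
      apply Finset.sum_subset
      · intro e he
        rw [Finset.mem_filter] at he ⊢
        exact ⟨he.1, not_lt.2 he.2.le⟩
      · intro e he hne
        rw [Finset.mem_filter] at he hne
        have : e.1 = e.2 := by
          apply le_antisymm
          · by_contra hc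
            exact hne ⟨Finset.mem_univ _, not_le.1 hc⟩
          · exact not_lt.1 he.2
        rw [this]; exact hg _
    rw [e1, e0, Finset.sum_filter_add_sum_filter_not univ (fun e : J × J => e.1 < e.2)]
  rw [h1, h3, h2]

/-- the vectors of the kernel satisfy the necessary conditions -/
theorem ur_of_mem (α : prs J → ZMod 2) {x : (U → ZMod 2) × (J → ZMod 2)}
    (h : x ∈ Kr W sU tU sJ tJ A B (ext tJ α)) : UR W sU tU sJ tJ A B x := by
  obtain ⟨h1, h2, h3⟩ := h
  refine ⟨h1, fun u hu => h2 u hu, ?_⟩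
  have h4 : ∑ k, rJ W tU sJ tJ B (ext tJ α) x k = 0 := Finset.sum_eq_zero fun k _ => h3 k
  unfold rJ at h4
  rw [Finset.sum_add_distrib, sum_pairs (fun k l => ext tJ α k l * (x.2 k + x.2 l))
    (fun k => by rw [← two_mul, two_eq, zero_mul, mul_zero])] at h4
  rw [← h4]
  congr 1
  apply Finset.sum_congr rfl
  intro e he
  rw [mem_prs] at he
  rw [← ext_add tJ α e.1 e.2 he]
  ring

end

theorem ind_sub {I : Type} [Fintype I] {m : I → ℕ} {J : Type} {d : (Σ i, Fin (m i)) → J → ZMod 2}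
    (h : IndA d) (i : I) : IndA (fun a : Fin (m i) => d ⟨i, a⟩) := by
  intro w ⟨a, ha⟩
  obtain ⟨k, l, hkl⟩ := h (fun b => if hb : b.1 = i then w (hb ▸ b.2) else 0) ⟨⟨i, a⟩, by
    simpa using ha⟩
  refine ⟨k, l, ?_⟩
  intro h0
  apply hkl
  refine Eq.trans ?_ h0
  rw [← Finset.univ_sigma_univ, Finset.sum_sigma]
  rw [Finset.sum_eq_single i]
  · apply Finset.sum_congr rfl
    intro b _
    simp
  · intro j _ hj
    apply Finset.sum_eq_zero
    intro b _
    rw [dif_neg hj, zero_mul]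
  · intro h; exact absurd (Finset.mem_univ i) h

theorem hyp_mono {U J : Type} [Fintype U] [Fintype J] {I : Type} {K V K' V' : ℕ}
    {W : I → Finset U} {sU tU : U → ZMod 2} {sJ tJ : J → ZMod 2} {A : U → U → ZMod 2}
    {B : U → J → ZMod 2} (hK : K' ≤ K) (hV : V' ≤ V) (h : Hyp K V W sU tU sJ tJ A B) :
    Hyp K' V' W sU tU sJ tJ A B where
  many i j := (Nat.add_le_add (Nat.mul_le_mul_right _ hK) hV).trans (h.many i j)
  diff i j hij := (Nat.add_le_add (Nat.mul_le_mul_right _ hK) hV).trans (h.diff i j hij)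
  par := h.par
  recip := h.recip
  nd := h.nd

theorem L1 (hLA1 : S_LA1J) (J T : Type) [Fintype J] [LinearOrder J] [Fintype T] (tJ : J → ZMod 2)
    (f d : T → J → ZMod 2) (hd : IndA d) (Pr : Prop)
    (hPr : Pr ↔ ((∀ a, ∑ k, f a k + ∑ e ∈ prs J, tJ e.1 * tJ e.2 * (d a e.1 + d a e.2) = 0) ∧
        (∀ a b, a ≠ b → ∑ k, (f a k * d b k + f b k * d a k) +
          ∑ k, ∑ l, (if k = l then 0 else tJ k * tJ l * (d a k * d b l)) = 0))) :
    (univ.filter fun α : prs J → ZMod 2 =>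
      ∀ a k, f a k + ∑ l, ext tJ α k l * (d a k + d a l) = 0).card *
      2 ^ (Fintype.card T * (Fintype.card J - 1)) =
      if Pr then 2 ^ ((prs J).card + (Fintype.card T).choose 2) else 0 := by
  have h := hLA1 J T tJ f d hd
  rw [h]
  by_cases hp : Pr
  · rw [if_pos hp, if_pos (hPr.1 hp)]
  · rw [if_neg hp, if_neg fun h' => hp (hPr.2 h')]

theorem t_LA4J : S_LA4J := by
  intro hMOM hLA1 hLA2 hLA3 I _ ε hε
  by_cases hI : Nonempty I
  swap
  · refine ⟨0, 0, ?_⟩
    intro U J _ _ _ W sU tU sJ tJ A B hyp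
    have h1 : (univ.filter fun α : prs J → ZMod 2 =>
        ∀ i, GdB (W i) sU tU sJ tJ A B (ext tJ α)) = univ := by
      apply Finset.filter_true_of_mem
      intro α _ i
      exact absurd ⟨i⟩ hI
    have h2 : Fintype.card I = 0 := by
      rw [Fintype.card_eq_zero_iff]
      exact not_nonempty_iff.1 hI
    rw [h1, h2, pow_zero, Finset.card_univ, Fintype.card_fun, ZMod.card, Fintype.card_coe]
    push_cast
    rw [div_self (by positivity), sub_self, abs_zero]
    exact hε.le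
  obtain ⟨i0⟩ := hI
  obtain ⟨M, δ, hδ, hM⟩ := hMOM I ε hε
  choose K2 V2 h2 using fun m => hLA2 I m (δ / 2) (half_pos hδ)
  choose K3 V3 h3 using fun m => hLA3 hLA1 I m (δ / 2) (half_pos hδ)
  obtain ⟨P, hP⟩ : ∃ P : Finset (I → ℕ), P = Fintype.piFinset fun _ : I => range (M + 1) :=
    ⟨_, rfl⟩
  refine ⟨P.sup K2 + P.sup K3, P.sup V2 + P.sup V3 + 1, ?_⟩
  intro U J _ _ _ W sU tU sJ tJ A B hyp
  have hJ : ∃ k0 : J, True := by
    have := hyp.many i0 i0
    have h4 : 0 < (univ.filter fun k => La tU tJ B (W i0) k + La tU tJ B (W i0) k + tJ k = 1).card := by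
      omega
    obtain ⟨k0, _⟩ := Finset.card_pos.1 h4
    exact ⟨k0, trivial⟩
  obtain ⟨k0, -⟩ := hJ
  have hcardΩ : (Fintype.card (prs J → ZMod 2) : ℝ) = 2 ^ (prs J).card := by
    rw [Fintype.card_fun, ZMod.card, Fintype.card_coe]
    push_cast
    rfl
  have key := hM (prs J → ZMod 2)
    (fun α i => Module.finrank (ZMod 2) (Kr (W i) sU tU sJ tJ A B (ext tJ α))) ?_
  · rw [hcardΩ] at key
    have h1 : (univ.filter fun α : prs J → ZMod 2 => ∀ i, GdB (W i) sU tU sJ tJ A B (ext tJ α)) =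
        univ.filter fun α : prs J → ZMod 2 =>
          ∀ i, Module.finrank (ZMod 2) (Kr (W i) sU tU sJ tJ A B (ext tJ α)) = 0 :=
      Finset.filter_congr fun α _ => forall_congr' fun i => gd_iff
    rw [h1]
    exact key
  · intro m hm
    have hmP : m ∈ P := by
      rw [hP, Fintype.mem_piFinset]
      intro i
      rw [Finset.mem_range]
      have := hm i
      omega
    have hyp2 : Hyp (K2 m) (V2 m) W sU tU sJ tJ A B :=
      hyp_mono ((Finset.le_sup (f := K2) hmP).trans (by omega))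
        ((Finset.le_sup (f := V2) hmP).trans (by omega)) hyp
    have hyp3 : Hyp (K3 m) (V3 m) W sU tU sJ tJ A B :=
      hyp_mono ((Finset.le_sup (f := K3) hmP).trans (by omega))
        ((Finset.le_sup (f := V3) hmP).trans (by omega)) hyp
    have hres2 := h2 m U J W sU tU sJ tJ A B hyp2
    have hres3 := h3 m U J W sU tU sJ tJ A B hyp3
    -- the tuples
    obtain ⟨Q, hQ⟩ : ∃ Q : (prs J → ZMod 2) → ((Σ i, Fin (m i)) → (U → ZMod 2) × (J → ZMod 2)) → Prop,
      ∀ α x, Q α x ↔ ∀ a, x a ∈ Kr (W a.1) sU tU sJ tJ A B (ext tJ α) :=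
      ⟨fun α x => ∀ a, x a ∈ Kr (W a.1) sU tU sJ tJ A B (ext tJ α), fun _ _ => Iff.rfl⟩
    have hcount : ∀ α : prs J → ZMod 2, ∏ i, ∏ a ∈ range (m i),
        ((2 : ℝ) ^ Module.finrank (ZMod 2) (Kr (W i) sU tU sJ tJ A B (ext tJ α)) - 2 ^ a) =
        ((univ.filter fun x : (Σ i, Fin (m i)) → (U → ZMod 2) × (J → ZMod 2) =>
          (∀ i, IndA (fun a : Fin (m i) => (x ⟨i, a⟩).2)) ∧ Q α x).card : ℝ) := by
      intro α
      have e1 : ∀ i, ∏ a ∈ range (m i),
        ((2 : ℝ) ^ Module.finrank (ZMod 2) (Kr (W i) sU tU sJ tJ A B (ext tJ α)) - 2 ^ a) =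
          (Nat.card {s : Fin (m i) → Kr (W i) sU tU sJ tJ A B (ext tJ α) //
            LinearIndependent (ZMod 2) s} : ℝ) := fun i => (card_li (m i)).symm
      rw [Finset.prod_congr rfl fun i _ => e1 i, ← Nat.cast_prod, ← Nat.card_pi]
      congr 1
      rw [← Fintype.card_coe, ← Nat.card_eq_fintype_card]
      apply Nat.card_congr
      refine
        { toFun := fun s => ⟨fun a => ((s a.1).1 a.2).1, ?_⟩
          invFun := fun x => fun i => ⟨fun a => ⟨x.1 ⟨i, a⟩, ?_⟩, ?_⟩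
          left_inv := ?_
          right_inv := ?_ }
      · rw [Finset.mem_filter, hQ]
        refine ⟨Finset.mem_univ _, fun i => ?_, fun a => ?_⟩
        · exact (li_iff k0 (fun w e h => (hyp.nd w e h).1) (s i).1).1 (s i).2
        · exact ((s a.1).1 a.2).2
      · have hx := (Finset.mem_filter.1 x.2).2.2
        rw [hQ] at hx
        exact hx ⟨i, a⟩
      · have hx := (Finset.mem_filter.1 x.2).2.1
        exact (li_iff k0 (fun w e h => (hyp.nd w e h).1) _).2 (hx i)
      · intro s; rfl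
      · intro x; rfl
    rw [Finset.sum_congr rfl fun α _ => hcount α, ← Nat.cast_sum, hcardΩ]
    -- the pairs
    have hpairs : ∑ α : prs J → ZMod 2,
        (univ.filter fun x : (Σ i, Fin (m i)) → (U → ZMod 2) × (J → ZMod 2) =>
          (∀ i, IndA (fun a : Fin (m i) => (x ⟨i, a⟩).2)) ∧ Q α x).card =
        (univ.filter fun y : (prs J → ZMod 2) × ((Σ i, Fin (m i)) → (U → ZMod 2) × (J → ZMod 2)) =>
          (∀ i, IndA (fun a : Fin (m i) => (y.2 ⟨i, a⟩).2)) ∧ Q y.1 y.2).card := by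
      rw [Finset.card_filter, ← Finset.univ_product_univ, Finset.sum_product]
      apply Finset.sum_congr rfl
      intro α _
      rw [Finset.card_filter]
    rw [hpairs]
    have hsplit : (univ.filter fun y : (prs J → ZMod 2) × ((Σ i, Fin (m i)) →
          (U → ZMod 2) × (J → ZMod 2)) =>
          (∀ i, IndA (fun a : Fin (m i) => (y.2 ⟨i, a⟩).2)) ∧ Q y.1 y.2).card =
        (univ.filter fun y : (prs J → ZMod 2) × ((Σ i, Fin (m i)) →
          (U → ZMod 2) × (J → ZMod 2)) => IndA (fun a => (y.2 a).2) ∧ Q y.1 y.2).card +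
        (univ.filter fun y : (prs J → ZMod 2) × ((Σ i, Fin (m i)) →
          (U → ZMod 2) × (J → ZMod 2)) =>
      (∀ i, IndA (fun a : Fin (m i) => (y.2 ⟨i, a⟩).2)) ∧ ¬ IndA (fun a => (y.2 a).2) ∧
      (∀ a, UR (W a.1) sU tU sJ tJ A B (y.2 a)) ∧
      ∀ a k, fJ (W a.1) tU sJ tJ B (y.2 a) k +
        ∑ l, ext tJ y.1 k l * ((y.2 a).2 k + (y.2 a).2 l) = 0).card := by
      rw [← Finset.card_union_of_disjoint]
      · congr 1
        ext y
        rw [Finset.mem_union, Finset.mem_filter, Finset.mem_filter, Finset.mem_filter]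
        constructor
        · rintro ⟨_, h5, h6⟩
          by_cases h7 : IndA (fun a => (y.2 a).2)
          · exact Or.inl ⟨Finset.mem_univ _, h7, h6⟩
          · refine Or.inr ⟨Finset.mem_univ _, h5, h7, fun a => ?_, fun a k => ?_⟩
            · exact ur_of_mem y.1 ((hQ _ _).1 h6 a)
            · exact ((hQ _ _).1 h6 a).2.2 k
        · rintro (⟨_, h5, h6⟩ | ⟨_, h5, h6, h7, h8⟩)
          · exact ⟨Finset.mem_univ _, fun i => ind_sub (d := fun a => (y.2 a).2) h5 i, h6⟩
          · refine ⟨Finset.mem_univ _, h5, (hQ _ _).2 fun a => ⟨(h7 a).1, (h7 a).2.1, fun k => ?_⟩⟩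
            exact h8 a k
      · rw [Finset.disjoint_left]
        intro y hy hy'
        rw [Finset.mem_filter] at hy hy'
        exact hy'.2.2.1 hy.2.1
    -- the jointly independent tuples
    obtain ⟨T, hT⟩ : ∃ T : Finset ((Σ i, Fin (m i)) → (U → ZMod 2) × (J → ZMod 2)),
      T = univ.filter fun x => IndA (fun a => (x a).2) ∧ ∀ a, (∀ u, u ∉ W a.1 → (x a).1 u = 0) ∧
        ∀ u ∈ W a.1, rU (W a.1) sU A B (x a) u = 0 := ⟨_, rfl⟩
    have hTm : ∀ x, x ∈ T ↔ IndA (fun a => (x a).2) ∧ ∀ a, (∀ u, u ∉ W a.1 → (x a).1 u = 0) ∧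
        ∀ u ∈ W a.1, rU (W a.1) sU A B (x a) u = 0 := by
      intro x
      rw [hT, Finset.mem_filter]
      exact ⟨fun h => h.2, fun h => ⟨Finset.mem_univ _, h⟩⟩
    have hN1 : (univ.filter fun y : (prs J → ZMod 2) × ((Σ i, Fin (m i)) →
          (U → ZMod 2) × (J → ZMod 2)) => IndA (fun a => (y.2 a).2) ∧ Q y.1 y.2).card =
        ∑ x ∈ T, (univ.filter fun α : prs J → ZMod 2 =>
          ∀ a k, fJ (W a.1) tU sJ tJ B (x a) k +
            ∑ l, ext tJ α k l * ((x a).2 k + (x a).2 l) = 0).card := by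
      rw [Finset.card_filter, ← Finset.univ_product_univ, Finset.sum_product_right, hT,
        Finset.sum_filter]
      apply Finset.sum_congr rfl
      intro x _
      rw [Finset.card_filter]
      split_ifs with h5
      · apply Finset.sum_congr rfl
        intro α _
        congr 1
        rw [eq_iff_iff, hQ]
        constructor
        · rintro ⟨_, h7⟩ a k
          exact (h7 a).2.2 k
        · intro h7
          exact ⟨h5.1, fun a => ⟨(h5.2 a).1, (h5.2 a).2, fun k => h7 a k⟩⟩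
      · apply Finset.sum_eq_zero
        intro α _
        rw [if_neg]
        rintro ⟨h6, h7⟩
        rw [hQ] at h7
        exact h5 ⟨h6, fun a => ⟨(h7 a).1, (h7 a).2.1⟩⟩
    have hcardT : Fintype.card (Σ i, Fin (m i)) = ∑ i, m i := by
      rw [Fintype.card_sigma]
      exact Finset.sum_congr rfl fun i _ => Fintype.card_fin _
    have hmul : (∑ x ∈ T, (univ.filter fun α : prs J → ZMod 2 =>
          ∀ a k, fJ (W a.1) tU sJ tJ B (x a) k +
            ∑ l, ext tJ α k l * ((x a).2 k + (x a).2 l) = 0).card) *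
          2 ^ ((∑ i, m i) * (Fintype.card J - 1)) =
        (univ.filter fun x : (Σ i, Fin (m i)) → (U → ZMod 2) × (J → ZMod 2) =>
      IndA (fun a => (x a).2) ∧ (∀ a, UR (W a.1) sU tU sJ tJ A B (x a)) ∧
      ∀ a b, a ≠ b → bj (W a.1) (W b.1) tU sJ tJ B (x a) (x b) = 0).card *
          2 ^ ((prs J).card + (∑ i, m i).choose 2) := by
      obtain ⟨Pr, hPr⟩ : ∃ Pr : ((Σ i, Fin (m i)) → (U → ZMod 2) × (J → ZMod 2)) → Prop,
          ∀ x, Pr x ↔ ((∀ a, ∑ k, fJ (W a.1) tU sJ tJ B (x a) k +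
              ∑ e ∈ prs J, tJ e.1 * tJ e.2 * ((x a).2 e.1 + (x a).2 e.2) = 0) ∧
              (∀ a b, a ≠ b → bj (W a.1) (W b.1) tU sJ tJ B (x a) (x b) = 0)) :=
        ⟨_, fun _ => Iff.rfl⟩
      rw [Finset.sum_mul]
      have h5 : ∀ x ∈ T, (univ.filter fun α : prs J → ZMod 2 =>
          ∀ a k, fJ (W a.1) tU sJ tJ B (x a) k +
            ∑ l, ext tJ α k l * ((x a).2 k + (x a).2 l) = 0).card *
          2 ^ ((∑ i, m i) * (Fintype.card J - 1)) =
          if Pr x then 2 ^ ((prs J).card + (∑ i, m i).choose 2) else 0 := by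
        intro x hx
        rw [hTm] at hx
        have := L1 hLA1 J (Σ i, Fin (m i)) tJ (fun a k => fJ (W a.1) tU sJ tJ B (x a) k)
          (fun a => (x a).2) hx.1 (Pr x) (hPr x)
        rw [hcardT] at this
        exact this
      rw [Finset.sum_congr rfl h5, ← Finset.sum_filter, Finset.sum_const, smul_eq_mul]
      congr 2
      rw [hT, Finset.filter_filter]
      apply Finset.filter_congr
      intro x _
      constructor
      · rintro ⟨⟨h6, h7⟩, h8'⟩
        obtain ⟨h8, h9⟩ := (hPr x).1 h8'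
        exact ⟨h6, fun a => ⟨(h7 a).1, (h7 a).2, h8 a⟩, h9⟩
      · rintro ⟨h6, h7, h8⟩
        exact ⟨⟨h6, fun a => ⟨(h7 a).1, (h7 a).2.1⟩⟩, (hPr x).2 ⟨fun a => (h7 a).2.2, h8⟩⟩
    rw [hsplit, hN1]
    obtain ⟨N1, hN1'⟩ : ∃ N1 : ℕ, N1 = ∑ x ∈ T, (univ.filter fun α : prs J → ZMod 2 =>
          ∀ a k, fJ (W a.1) tU sJ tJ B (x a) k +
            ∑ l, ext tJ α k l * ((x a).2 k + (x a).2 l) = 0).card := ⟨_, rfl⟩
    rw [← hN1'] at hmul ⊢
    obtain ⟨N2, hN2⟩ : ∃ N2 : ℕ, N2 =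
        (univ.filter fun x : (Σ i, Fin (m i)) → (U → ZMod 2) × (J → ZMod 2) =>
      IndA (fun a => (x a).2) ∧ (∀ a, UR (W a.1) sU tU sJ tJ A B (x a)) ∧
      ∀ a b, a ≠ b → bj (W a.1) (W b.1) tU sJ tJ B (x a) (x b) = 0).card := ⟨_, rfl⟩
    rw [← hN2] at hmul
    have hfin2 : |(N2 : ℝ) * 2 ^ (∑ i, m i).choose 2 /
        2 ^ ((∑ i, m i) * (Fintype.card J - 1)) - 1| ≤ δ / 2 := by
      rw [hN2]
      exact hres2
    obtain ⟨N3, hN3⟩ : ∃ N3 : ℕ, N3 = (univ.filter fun y : (prs J → ZMod 2) × ((Σ i, Fin (m i)) →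
          (U → ZMod 2) × (J → ZMod 2)) =>
      (∀ i, IndA (fun a : Fin (m i) => (y.2 ⟨i, a⟩).2)) ∧ ¬ IndA (fun a => (y.2 a).2) ∧
      (∀ a, UR (W a.1) sU tU sJ tJ A B (y.2 a)) ∧
      ∀ a k, fJ (W a.1) tU sJ tJ B (y.2 a) k +
        ∑ l, ext tJ y.1 k l * ((y.2 a).2 k + (y.2 a).2 l) = 0).card := ⟨_, rfl⟩
    rw [← hN3]
    have hfin3 : (N3 : ℝ) ≤ δ / 2 * 2 ^ (prs J).card := by
      rw [hN3]
      exact hres3
    obtain ⟨P', hP'⟩ : ∃ P : ℕ, P = (prs J).card := ⟨_, rfl⟩
    rw [← hP'] at hmul hfin3 ⊢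
    have hval : (N1 : ℝ) / 2 ^ P' = (N2 : ℝ) * 2 ^ (∑ i, m i).choose 2 /
        2 ^ ((∑ i, m i) * (Fintype.card J - 1)) := by
      rw [div_eq_div_iff (by positivity) (by positivity)]
      have h2 : (N1 : ℝ) * 2 ^ ((∑ i, m i) * (Fintype.card J - 1)) =
          (N2 : ℝ) * 2 ^ (P' + (∑ i, m i).choose 2) := by
        exact_mod_cast hmul
      rw [h2, pow_add]
      ring
    rw [← hval] at hfin2
    have hfin3' : (N3 : ℝ) / 2 ^ P' ≤ δ / 2 := by
      rw [div_le_iff₀ (by positivity)]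
      exact hfin3
    have hfin30 : 0 ≤ (N3 : ℝ) / 2 ^ P' := by positivity
    push_cast
    rw [add_div]
    rw [abs_le] at hfin2 ⊢
    constructor
    · linarith [hfin2.1]
    · linarith [hfin2.2]

end Pool.Agent.R426.QJ.LA4
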