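import Pool.Agent.R426.QJ.Stm
import Pool.Agent.R426.QK.LOW

/-!
# QJ-LOW: the class of the sets disjoint from `Z` has positive density

Adapted from `Pool/Agent/R426/QK/LOW.lean` (helper396).
-/

set_option autoImplicit false
set_option linter.unusedVariables false

open scoped Classical

namespace Pool.Agent.R426.QJ.LOW

open Finset
open Pool.Agent.Y698
open Pool.Agent.Y698.SG hiding PD
open Pool.Agent.R426.QK Pool.Agent.R426.QJ
open Pool.Agent.R426.QK.LOW (T mem_T four_fR_ne dD dm d_spec PD_mem card_big)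

/-- the elements `1` modulo `4 * fR * P` of norm at most `X` -/
noncomputable def TJ (P : RR) (X : ℕ) : Finset RR := (ZB X).filter fun n => 4 * fR * P ∣ n - 1

lemma mem_TJ {P : RR} {X : ℕ} {n : RR} : n ∈ TJ P X ↔ nrm n ≤ X ∧ 4 * fR * P ∣ n - 1 := by
  unfold TJ
  rw [mem_filter, mem_ZB]

lemma TJ_sub (P : RR) (X : ℕ) : TJ P X ⊆ T X := by
  intro n hn
  rw [mem_TJ] at hn
  rw [mem_T]
  exact ⟨hn.1, (dvd_mul_right _ _).trans hn.2⟩

/-- the norm of `1 + w` -/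
lemma nrm_one_add (w : RR) : nrm (1 + w) ≤ 2 * (1 + nrm w) := by
  have h1 := nrm_eq' (1 + w)
  have h2 := nrm_eq' w
  rw [(cXY_add _ _).1, (cXY_add _ _).2, cXY_one.1, cXY_one.2] at h1
  have h3 : (nrm (1 + w) : ℤ) ≤ 2 * (1 + nrm w) := by
    rw [h1, h2]
    nlinarith [sq_nonneg (2 * (cX w - 1) + cY w), sq_nonneg (cY w)]
  exact_mod_cast h3

lemma nrm_mk_le {a b B : ℕ} (ha : a ≤ B) (hb : b ≤ B) : nrm (mk ((a : ℤ), (b : ℤ))) ≤ 4 * (B * B) := by
  have h1 := nrm_eq' (mk ((a : ℤ), (b : ℤ)))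
  rw [(cXY_mk _).1, (cXY_mk _).2] at h1
  have ha' : (a : ℤ) ≤ B := by exact_mod_cast ha
  have hb' : (b : ℤ) ≤ B := by exact_mod_cast hb
  have ha0 : (0 : ℤ) ≤ a := Int.natCast_nonneg _
  have hb0 : (0 : ℤ) ≤ b := Int.natCast_nonneg _
  have h2 : (nrm (mk ((a : ℤ), (b : ℤ))) : ℤ) ≤ 4 * (B * B) := by
    rw [h1]
    simp only
    nlinarith [mul_le_mul ha' ha' ha0 (ha0.trans ha'), mul_le_mul hb' hb' hb0 (hb0.trans hb'),
      mul_le_mul ha' hb' hb0 (ha0.trans ha')]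
  exact_mod_cast h2

lemma TJ_lower {P : RR} (hP : P ≠ 0) {X : ℕ} (hX : 2 ≤ X) :
    X ≤ 16 * nrm (4 * fR * P) * (TJ P X).card := by
  set M : RR := 4 * fR * P with hM
  have hM0 : M ≠ 0 := mul_ne_zero four_fR_ne hP
  have hN : 0 < nrm M := nrm_pos' hM0
  obtain ⟨B, hB1, hB2⟩ : ∃ B : ℕ, B * B ≤ (X - 2) / (8 * nrm M) ∧
      (X - 2) / (8 * nrm M) < (B + 1) * (B + 1) :=
    ⟨Nat.sqrt ((X - 2) / (8 * nrm M)), Nat.sqrt_le _, Nat.lt_succ_sqrt _⟩
  have h1 : ((range (B + 1)) ×ˢ (range (B + 1))).card ≤ (TJ P X).card := by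
    refine card_le_card_of_injOn
      (fun p : ℕ × ℕ => 1 + M * mk ((p.1 : ℤ), (p.2 : ℤ))) ?_ ?_
    · intro p hp
      have hp' : p.1 < B + 1 ∧ p.2 < B + 1 := by
        simpa using hp
      rw [mem_coe, mem_TJ]
      refine ⟨?_, ⟨mk ((p.1 : ℤ), (p.2 : ℤ)), by rw [← hM]; ring⟩⟩
      have h2 := nrm_one_add (M * mk ((p.1 : ℤ), (p.2 : ℤ)))
      rw [nrm_mul] at h2
      have h3 := nrm_mk_le (Nat.lt_succ_iff.1 hp'.1) (Nat.lt_succ_iff.1 hp'.2)
      have h4 : B * B * (8 * nrm M) ≤ X - 2 :=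
        (Nat.le_div_iff_mul_le (by positivity)).1 hB1
      have h5 : nrm M * nrm (mk ((p.1 : ℤ), (p.2 : ℤ))) ≤ nrm M * (4 * (B * B)) :=
        Nat.mul_le_mul_left _ h3
      calc nrm (1 + M * mk ((p.1 : ℤ), (p.2 : ℤ))) ≤
          2 * (1 + nrm M * nrm (mk ((p.1 : ℤ), (p.2 : ℤ)))) := h2
        _ ≤ 2 * (1 + nrm M * (4 * (B * B))) :=
          Nat.mul_le_mul_left _ (Nat.add_le_add_left h5 _)
        _ = 2 + B * B * (8 * nrm M) := by ring
        _ ≤ 2 + (X - 2) := Nat.add_le_add_left h4 _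
        _ = X := by omega
    · intro p _ q _ h
      have h2 : M * mk ((p.1 : ℤ), (p.2 : ℤ)) = M * mk ((q.1 : ℤ), (q.2 : ℤ)) :=
        add_left_cancel h
      have h3 := mk_inj (mul_left_cancel₀ hM0 h2)
      rw [Prod.mk.injEq] at h3
      exact Prod.ext (by exact_mod_cast h3.1) (by exact_mod_cast h3.2)
  rw [card_product, card_range] at h1
  have h2 : X - 2 < (B + 1) * (B + 1) * (8 * nrm M) := by
    rw [Nat.div_lt_iff_lt_mul (by positivity)] at hB2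
    exact hB2
  have h3 : (B + 1) * (B + 1) * (8 * nrm M) ≤ (TJ P X).card * (8 * nrm M) :=
    Nat.mul_le_mul_right _ h1
  have h4 : 1 ≤ (TJ P X).card * (8 * nrm M) := by
    have : 0 < (B + 1) * (B + 1) * (8 * nrm M) := by positivity
    omega
  have h5 : 16 * nrm M * (TJ P X).card = 2 * ((TJ P X).card * (8 * nrm M)) := by ring
  rw [h5]
  omega

lemma PD_memJ {Z : Finset RR} {n : RR} {X : ℕ} (hn : n ∈ TJ (∏ u ∈ Z, u) X) :
    PD (dD n) ∈ SSJ Z X := by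
  rw [mem_TJ] at hn
  have hd : 4 * fR ∣ n - 1 := (dvd_mul_right _ _).trans hn.2
  obtain ⟨h1, h2, h3, h4⟩ := d_spec hd
  unfold SSJ
  rw [mem_filter]
  refine ⟨PD_mem h1 h2 ((norm_le_of_dvd h4 ⟨_, h3⟩).trans hn.1), ?_⟩
  rw [Finset.disjoint_left]
  intro π hπ hπZ
  rw [mem_PD h1.ne] at hπ
  have h5 : π ∣ n := hπ.2.trans ⟨_, h3⟩
  have h6 : π ∣ n - 1 := ((Finset.dvd_prod_of_mem (fun u => u) hπZ).mul_left _).trans hn.2
  have h7 : π ∣ n - (n - 1) := dvd_sub h5 h6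
  rw [sub_sub_cancel] at h7
  exact hπ.1.prime.not_isUnit (isUnit_of_dvd_one h7)

lemma card_smallJ (Z : Finset RR) (X L : ℕ) :
    ((TJ (∏ u ∈ Z, u) X).filter fun n => nrm (dm n) ≤ L).card ≤
    (ZB L).card * (SSJ Z X).card := by
  rw [← card_product]
  refine card_le_card_of_injOn (fun n => (dm n, PD (dD n))) ?_ ?_
  · intro n hn
    rw [mem_coe, mem_filter] at hn
    rw [mem_coe, mem_product, mem_ZB]
    exact ⟨hn.2, PD_memJ hn.1⟩
  · intro n hn n' hn' h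
    rw [mem_coe, mem_filter] at hn hn'
    have k := mem_T.1 (TJ_sub _ _ hn.1)
    have k' := mem_T.1 (TJ_sub _ _ hn'.1)
    obtain ⟨h1, h2, h3, h4⟩ := d_spec k.2
    obtain ⟨k1, k2, k3, k4⟩ := d_spec k'.2
    rw [Prod.mk.injEq] at h
    rw [h3, k3, ← h1.prod, ← k1.prod, h.1, h.2]

lemma card_bigJ (P : RR) {X L : ℕ} (hL : 1 ≤ L) :
    (((TJ P X).filter fun n => ¬ nrm (dm n) ≤ L).card : ℝ) ≤ 16 * X * (64 / L) := by
  refine le_trans ?_ (card_big hL)
  exact_mod_cast card_le_card (filter_subset_filter _ (TJ_sub P X))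

/-- **QJ-LOW** -/
theorem t_LOWJ : S_LOWJ := by
  intro Z hZ
  have hP : (∏ u ∈ Z, u) ≠ 0 := Finset.prod_ne_zero_iff.2 fun u hu => (hZ u hu).prime.ne_zero
  set P : RR := ∏ u ∈ Z, u with hPdef
  have hM0 : (4 * fR * P : RR) ≠ 0 := mul_ne_zero four_fR_ne hP
  have hN : 0 < nrm (4 * fR * P) := nrm_pos' hM0
  set N := nrm (4 * fR * P) with hNdef
  obtain ⟨L, hL⟩ : ∃ L : ℕ, L = 32768 * N := ⟨_, rfl⟩
  have hL1 : 1 ≤ L := by rw [hL]; omega
  have hZ1 : 0 < (ZB L).card := by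
    rw [card_pos]
    exact ⟨1, mem_ZB.2 (by rw [nrm_one]; exact hL1)⟩
  have hZ' : (0 : ℝ) < (ZB L).card := by exact_mod_cast hZ1
  have hN' : (0 : ℝ) < N := by exact_mod_cast hN
  refine ⟨1 / (32 * N * (ZB L).card), 2, by positivity, fun X hX => ?_⟩
  have h1 : (X : ℝ) ≤ 16 * N * (TJ P X).card := by exact_mod_cast TJ_lower hP hX
  have h2 : ((TJ P X).card : ℝ) = (((TJ P X).filter fun n => nrm (dm n) ≤ L).card : ℝ) +
      (((TJ P X).filter fun n => ¬ nrm (dm n) ≤ L).card : ℝ) := by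
    exact_mod_cast (card_filter_add_card_filter_not (s := TJ P X) (fun n => nrm (dm n) ≤ L)).symm
  have h3 : (((TJ P X).filter fun n => nrm (dm n) ≤ L).card : ℝ) ≤
      (ZB L).card * (SSJ Z X).card := by exact_mod_cast card_smallJ Z X L
  have h4 := card_bigJ P (X := X) hL1
  have h5 : (16 * X * (64 / L) : ℝ) = X / (32 * N) := by
    rw [hL]
    push_cast
    field_simp
    ring
  rw [h5] at h4
  have h6 : 16 * (N : ℝ) * (TJ P X).card ≤
      16 * N * ((ZB L).card * (SSJ Z X).card + X / (32 * N)) := by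
    apply mul_le_mul_of_nonneg_left _ (by positivity)
    linarith
  have h7 : 16 * (N : ℝ) * ((ZB L).card * (SSJ Z X).card + X / (32 * N)) =
      16 * N * ((ZB L).card * (SSJ Z X).card) + X / 2 := by
    field_simp
    ring
  have h8 : (X : ℝ) ≤ 32 * N * ((ZB L).card * (SSJ Z X).card) := by linarith
  calc 1 / (32 * N * ((ZB L).card : ℝ)) * X ≤
      1 / (32 * N * ((ZB L).card : ℝ)) * (32 * N * ((ZB L).card * (SSJ Z X).card)) :=
        mul_le_mul_of_nonneg_left h8 (by positivity)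
    _ = (SSJ Z X).card := by
      field_simp

end Pool.Agent.R426.QJ.LOW
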