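import Pool.Agent.R426.QJ.Stm
import Pool.Agent.R306.QJ.MomJ

/-!
QJ-MOM.
-/

set_option autoImplicit false

open scoped Classical

namespace Pool.Agent.R426.QJ.MOMJ

open Finset
open Pool.Agent.R426.QK Pool.Agent.R426.QJ

theorem t_MOMJ : S_MOMJ := by
  intro I _ ε hε
  obtain ⟨M, δ, hδ, h⟩ := Pool.Agent.R306.QJ.momj_main c2 rfl I ε hε
  refine ⟨M, δ, hδ, fun Ω _ _ r hm => ?_⟩
  have h1 := h Ω r hm
  have h2 : ((univ.filter fun ω => ∀ i, r ω i = 0).card : ℝ) =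
      ∑ ω, if (∀ i, r ω i = 0) then (1 : ℝ) else 0 := by
    rw [← Finset.sum_filter, Finset.sum_const, nsmul_eq_mul, mul_one]
  rw [h2]
  convert h1 using 4

end Pool.Agent.R426.QJ.MOMJ
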