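import Pool.Agent.R426.QK.Fin
import Pool.Agent.R426.QJ.Asy
import Pool.Agent.R426.QJ.Box
import Pool.Agent.R426.QJ.FB
import Pool.Agent.R426.QJ.KEY
import Pool.Agent.R426.QJ.LA1
import Pool.Agent.R426.QJ.LA2
import Pool.Agent.R426.QJ.LA3
import Pool.Agent.R426.QJ.LA4
import Pool.Agent.R426.QJ.LOW
import Pool.Agent.R426.QJ.MOMJ

/-!
# Project QJ: the assembly
-/

set_option autoImplicit false

namespace Pool.Agent.R426.QJ

open Pool.Agent.R426.QK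

theorem t_LAJ : S_LAJ := LA4.t_LA4J MOMJ.t_MOMJ LA1.t_LA1J LA2.t_LA2J LA3.t_LA3J

theorem t_DQJ : S_DQJ :=
  Asy.t_DQJ recP t_BIL EQ.t_EQ t_LAJ Box.t_BOXJ KEY.t_KEYJ CNT.t_CNT (FB.t_FBJ recP t_HALL t_MERT)
    LOW.t_LOWJ QK.MOM.t_C2

end Pool.Agent.R426.QJ
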